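import Pool.Agent.Helper91.TM.M

/-!
Taylor model machine (MP_c75db0, star frame): the machines with three and with four parameters
under their names.
-/

set_option autoImplicit false
noncomputable section
namespace Pool.Agent.Helper91.TM

open Pool.Agent.Helper86.CT (N3 Alg nx)
open Pool.Agent.Helper91.TMK (Mch AOK nM AOK_nx)

/-- numbers with four parameters -/
abbrev TQ : Type := N3 TP
/-- the algebra with four parameters -/
def AQ : Alg TQ := nx AT
/-- the machine with four parameters -/
def lfQ : Mch TQ := nM 3 lfT

theorem AQ_ok : AOK 4 lfQ AQ := AOK_nx AT_okn

end Pool.Agent.Helper91.TM
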