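import Pool.Agent.Helper91.TM.B
import Pool.Agent.Helper62.C75.TVM

/-!
Taylor model machine (MP_c75db0, star frame): the theorems of `Helper62.TVM` (vectors and `3 x 3`
matrices of models) for machines `Mch`. The kernel definitions are those of `Helper62.TVM`.
-/

set_option autoImplicit false
noncomputable section
namespace Pool.Agent.Helper91.TMK

open Pool.Agent.Helper90.C75
open Pool.Agent.Helper90.KMO
open Pool.Agent.Helper86.C75 (Z)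
open Pool.Agent.Helper86.CX (Cx andB)
open Pool.Agent.Helper86.CT (Alg Mo er mk cst addM subM mulM conjM)
open Pool.Agent.Helper17.K9 (V9)
open Pool.Agent.Helper62.TVM (cstC zeM negM hfM re2M nsqM dot3 V3m C3 C9 cstW cstV addW subW negW
  smW cjW jW hdW dtW addV subV negV smV hfV hdV mulV ctV trV ouV oV dlV drV dgV adV sbV mvV)

section

variable {α : Type} {D : ℕ} {lf : Mch α} {A : Alg α} {t : ℕ → ℝ}

/-- models of the three entries -/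
structure TW (D : ℕ) (lf : Mch α) (t : ℕ → ℝ) (x : Fin 3 → ℂ) (X : V3m α) : Prop where
  a : TOK D lf t (x 0) X.a
  b : TOK D lf t (x 1) X.b
  c : TOK D lf t (x 2) X.c

/-- MODELS OF THE NINE ENTRIES, by rows -/
structure TV (D : ℕ) (lf : Mch α) (t : ℕ → ℝ) (M : Matrix (Fin 3) (Fin 3) ℂ) (V : V9 α) :
    Prop where
  a : TOK D lf t (M 0 0) V.a
  b : TOK D lf t (M 0 1) V.b
  c : TOK D lf t (M 0 2) V.c
  d : TOK D lf t (M 1 0) V.d
  e : TOK D lf t (M 1 1) V.e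
  f : TOK D lf t (M 1 2) V.f
  g : TOK D lf t (M 2 0) V.g
  h : TOK D lf t (M 2 1) V.h
  i : TOK D lf t (M 2 2) V.i

theorem TV.congr {M N : Matrix (Fin 3) (Fin 3) ℂ} {V : V9 α} (h : TV D lf t M V) (e : M = N) :
    TV D lf t N V := e ▸ h
theorem TW.congr {x y : Fin 3 → ℂ} {X : V3m α} (h : TW D lf t x X) (e : x = y) :
    TW D lf t y X := e ▸ h
theorem tc {f g : ℂ} {F : Mo α} (h : TOK D lf t f F) (e : f = g) : TOK D lf t g F := e ▸ h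

/-- A COMPLEX CONSTANT -/
theorem TOK_cstC (hA : AOK D lf A) (_hP : PT D t) {f : ℂ} {c : Cx} {r : ℕ}
    (h : ‖(UU : ℂ) * f - cz c‖ ≤ r) : TOK D lf t f (cstC A c r) := by
  refine ⟨vt_mk hA (hA.vcs _) _, fun hgd => ?_⟩
  show ‖(UU : ℂ) * f - lf.ev (A.cs c) t‖ ≤ (r : ℝ)
  rw [hA.cs c hgd]
  exact h

theorem TOK_ze (hA : AOK D lf A) (hP : PT D t) : TOK D lf t 0 (zeM A) :=
  TOK.cst' hA hP (by simp)

theorem TOK_neg (hA : AOK D lf A) (hP : PT D t) {f : ℂ} {F : Mo α} (hf : TOK D lf t f F) :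
    TOK D lf t (-f) (negM A F) := tc ((TOK_ze hA hP).sub hA hf) (zero_sub f)

theorem TOK_hf (hA : AOK D lf A) (hP : PT D t) {f : ℂ} {F : Mo α} (hf : TOK D lf t f F) :
    TOK D lf t ((1 / 2 : ℂ) * f) (hfM A F) := by
  have h2 : TOK D lf t (1 / 2 : ℂ) (cst A (nat_lit 140737488355328) (nat_lit 0)) :=
    TOK.cst' hA hP (by unfold UU; norm_num)
  exact h2.mul hA hP hf

theorem TOK_re2 (hA : AOK D lf A) {f : ℂ} {F : Mo α} (hf : TOK D lf t f F) :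
    TOK D lf t (((2 * f.re : ℝ)) : ℂ) (re2M A F) := by
  refine tc (hf.add hA (hf.conj hA)) ?_
  apply Complex.ext
  · simp
    ring
  · simp

theorem TOK_nsq (hA : AOK D lf A) (hP : PT D t) {f : ℂ} {F : Mo α} (hf : TOK D lf t f F) :
    TOK D lf t (((‖f‖ ^ 2 : ℝ)) : ℂ) (nsqM A F) := by
  refine tc (hf.mul hA hP (hf.conj hA)) ?_
  have := Complex.mul_conj f
  rw [Complex.normSq_eq_norm_sq] at this
  exact this

theorem TOK_dot3 (hA : AOK D lf A) (hP : PT D t) {x0 x1 x2 y0 y1 y2 : ℂ}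
    {X0 X1 X2 Y0 Y1 Y2 : Mo α} (h0 : TOK D lf t x0 X0) (h1 : TOK D lf t x1 X1)
    (h2 : TOK D lf t x2 X2) (g0 : TOK D lf t y0 Y0) (g1 : TOK D lf t y1 Y1)
    (g2 : TOK D lf t y2 Y2) :
    TOK D lf t (x0 * y0 + x1 * y1 + x2 * y2) (dot3 A X0 X1 X2 Y0 Y1 Y2) :=
  ((h0.mul hA hP g0).add hA (h1.mul hA hP g1)).add hA (h2.mul hA hP g2)

/-! #### vectors -/

variable {x y : Fin 3 → ℂ} {X Y : V3m α}

theorem TW_cst (hA : AOK D lf A) (hP : PT D t) {C : C3} {r : ℕ}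
    (h : ∀ i, ‖(UU : ℂ) * x i - cz (C.get i)‖ ≤ r) : TW D lf t x (cstW A C r) :=
  ⟨TOK_cstC hA hP (h 0), TOK_cstC hA hP (h 1), TOK_cstC hA hP (h 2)⟩

theorem TW.add (hA : AOK D lf A) (hx : TW D lf t x X) (hy : TW D lf t y Y) :
    TW D lf t (x + y) (addW A X Y) := ⟨hx.a.add hA hy.a, hx.b.add hA hy.b, hx.c.add hA hy.c⟩
theorem TW.sub (hA : AOK D lf A) (hx : TW D lf t x X) (hy : TW D lf t y Y) :
    TW D lf t (x - y) (subW A X Y) := ⟨hx.a.sub hA hy.a, hx.b.sub hA hy.b, hx.c.sub hA hy.c⟩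
theorem TW.neg (hA : AOK D lf A) (hP : PT D t) (hx : TW D lf t x X) :
    TW D lf t (-x) (negW A X) := ⟨TOK_neg hA hP hx.a, TOK_neg hA hP hx.b, TOK_neg hA hP hx.c⟩
theorem TW.smul (hA : AOK D lf A) (hP : PT D t) {s : ℂ} {S : Mo α} (hs : TOK D lf t s S)
    (hx : TW D lf t x X) : TW D lf t (s • x) (smW A S X) :=
  ⟨hs.mul hA hP hx.a, hs.mul hA hP hx.b, hs.mul hA hP hx.c⟩
theorem TW.star (hA : AOK D lf A) (hx : TW D lf t x X) : TW D lf t (star x) (cjW A X) :=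
  ⟨hx.a.conj hA, hx.b.conj hA, hx.c.conj hA⟩
theorem TW.jw (hA : AOK D lf A) (hP : PT D t) (hx : TW D lf t x X) :
    TW D lf t ![Star.star (x 0), Star.star (x 1), -Star.star (x 2)] (jW A X) :=
  ⟨hx.a.conj hA, hx.b.conj hA, TOK_neg hA hP (hx.c.conj hA)⟩
theorem TW.hd (hA : AOK D lf A) (hP : PT D t) (hx : TW D lf t x X) (hy : TW D lf t y Y) :
    TW D lf t (fun i => x i * y i) (hdW A X Y) :=
  ⟨hx.a.mul hA hP hy.a, hx.b.mul hA hP hy.b, hx.c.mul hA hP hy.c⟩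
theorem TW.dt (hA : AOK D lf A) (hP : PT D t) (hx : TW D lf t x X) (hy : TW D lf t y Y) :
    TOK D lf t (x 0 * y 0 + x 1 * y 1 + x 2 * y 2) (dtW A X Y) :=
  TOK_dot3 hA hP hx.a hx.b hx.c hy.a hy.b hy.c

/-! #### matrices -/

variable {M N : Matrix (Fin 3) (Fin 3) ℂ} {U V : V9 α}

theorem TV_cst (hA : AOK D lf A) (hP : PT D t) {C : C9} {r : ℕ}
    (h : ∀ i j, ‖(UU : ℂ) * M i j - cz (C.get i j)‖ ≤ r) : TV D lf t M (cstV A C r) :=
  ⟨TOK_cstC hA hP (h 0 0),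
    TOK_cstC hA hP (h 0 1),
    TOK_cstC hA hP (h 0 2),
    TOK_cstC hA hP (h 1 0),
    TOK_cstC hA hP (h 1 1),
    TOK_cstC hA hP (h 1 2),
    TOK_cstC hA hP (h 2 0),
    TOK_cstC hA hP (h 2 1),
    TOK_cstC hA hP (h 2 2)⟩
theorem TV.add (hA : AOK D lf A) (hM : TV D lf t M U) (hN : TV D lf t N V) :
    TV D lf t (M + N) (addV A U V) :=
  ⟨hM.a.add hA hN.a, hM.b.add hA hN.b, hM.c.add hA hN.c, hM.d.add hA hN.d, hM.e.add hA hN.e, hM.f.add hA hN.f, hM.g.add hA hN.g, hM.h.add hA hN.h, hM.i.add hA hN.i⟩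
theorem TV.sub (hA : AOK D lf A) (hM : TV D lf t M U) (hN : TV D lf t N V) :
    TV D lf t (M - N) (subV A U V) :=
  ⟨hM.a.sub hA hN.a, hM.b.sub hA hN.b, hM.c.sub hA hN.c, hM.d.sub hA hN.d, hM.e.sub hA hN.e, hM.f.sub hA hN.f, hM.g.sub hA hN.g, hM.h.sub hA hN.h, hM.i.sub hA hN.i⟩
theorem TV.neg (hA : AOK D lf A) (hP : PT D t) (hM : TV D lf t M U) :
    TV D lf t (-M) (negV A U) :=
  ⟨TOK_neg hA hP hM.a, TOK_neg hA hP hM.b, TOK_neg hA hP hM.c, TOK_neg hA hP hM.d, TOK_neg hA hP hM.e, TOK_neg hA hP hM.f, TOK_neg hA hP hM.g, TOK_neg hA hP hM.h, TOK_neg hA hP hM.i⟩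
theorem TV.smul (hA : AOK D lf A) (hP : PT D t) {s : ℂ} {S : Mo α} (hs : TOK D lf t s S)
    (hM : TV D lf t M U) : TV D lf t (s • M) (smV A S U) :=
  ⟨hs.mul hA hP hM.a, hs.mul hA hP hM.b, hs.mul hA hP hM.c, hs.mul hA hP hM.d, hs.mul hA hP hM.e, hs.mul hA hP hM.f, hs.mul hA hP hM.g, hs.mul hA hP hM.h, hs.mul hA hP hM.i⟩
theorem TV.half (hA : AOK D lf A) (hP : PT D t) (hM : TV D lf t M U) :
    TV D lf t ((1 / 2 : ℂ) • M) (hfV A U) :=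
  ⟨TOK_hf hA hP hM.a, TOK_hf hA hP hM.b, TOK_hf hA hP hM.c, TOK_hf hA hP hM.d, TOK_hf hA hP hM.e, TOK_hf hA hP hM.f, TOK_hf hA hP hM.g, TOK_hf hA hP hM.h, TOK_hf hA hP hM.i⟩
theorem TV.hd (hA : AOK D lf A) (hP : PT D t) (hM : TV D lf t M U) (hN : TV D lf t N V) :
    TV D lf t (Matrix.of fun i j => M i j * N i j) (hdV A U V) :=
  ⟨hM.a.mul hA hP hN.a, hM.b.mul hA hP hN.b, hM.c.mul hA hP hN.c, hM.d.mul hA hP hN.d, hM.e.mul hA hP hN.e, hM.f.mul hA hP hN.f, hM.g.mul hA hP hN.g, hM.h.mul hA hP hN.h, hM.i.mul hA hP hN.i⟩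
theorem TV.mul (hA : AOK D lf A) (hP : PT D t) (hM : TV D lf t M U) (hN : TV D lf t N V) :
    TV D lf t (M * N) (mulV A U V) := by
  have e : ∀ i j, M i 0 * N 0 j + M i 1 * N 1 j + M i 2 * N 2 j = (M * N) i j := by
    intro i j
    rw [Matrix.mul_apply, Fin.sum_univ_three]
  exact ⟨tc (TOK_dot3 hA hP hM.a hM.b hM.c hN.a hN.d hN.g) (e 0 0),
    tc (TOK_dot3 hA hP hM.a hM.b hM.c hN.b hN.e hN.h) (e 0 1),
    tc (TOK_dot3 hA hP hM.a hM.b hM.c hN.c hN.f hN.i) (e 0 2),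
    tc (TOK_dot3 hA hP hM.d hM.e hM.f hN.a hN.d hN.g) (e 1 0),
    tc (TOK_dot3 hA hP hM.d hM.e hM.f hN.b hN.e hN.h) (e 1 1),
    tc (TOK_dot3 hA hP hM.d hM.e hM.f hN.c hN.f hN.i) (e 1 2),
    tc (TOK_dot3 hA hP hM.g hM.h hM.i hN.a hN.d hN.g) (e 2 0),
    tc (TOK_dot3 hA hP hM.g hM.h hM.i hN.b hN.e hN.h) (e 2 1),
    tc (TOK_dot3 hA hP hM.g hM.h hM.i hN.c hN.f hN.i) (e 2 2)⟩
theorem TV.ct (hA : AOK D lf A) (hM : TV D lf t M U) : TV D lf t M.conjTranspose (ctV A U) :=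
  ⟨hM.a.conj hA, hM.d.conj hA, hM.g.conj hA, hM.b.conj hA, hM.e.conj hA, hM.h.conj hA, hM.c.conj hA, hM.f.conj hA, hM.i.conj hA⟩
theorem TV.tr (hM : TV D lf t M U) : TV D lf t M.transpose (trV U) :=
  ⟨hM.a, hM.d, hM.g, hM.b, hM.e, hM.h, hM.c, hM.f, hM.i⟩
theorem TW.ou (hA : AOK D lf A) (hP : PT D t) (hx : TW D lf t x X) (hy : TW D lf t y Y) :
    TV D lf t (Matrix.of fun i j => x i * y j) (ouV A X Y) :=
  ⟨hx.a.mul hA hP hy.a, hx.a.mul hA hP hy.b, hx.a.mul hA hP hy.c, hx.b.mul hA hP hy.a, hx.b.mul hA hP hy.b, hx.b.mul hA hP hy.c, hx.c.mul hA hP hy.a, hx.c.mul hA hP hy.b, hx.c.mul hA hP hy.c⟩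
theorem TW.o (hA : AOK D lf A) (hP : PT D t) (hx : TW D lf t x X) (hy : TW D lf t y Y) :
    TV D lf t (Matrix.of fun i j => x i * ![Star.star (y 0), Star.star (y 1), -Star.star (y 2)] j)
      (oV A X Y) := hx.ou hA hP (hy.jw hA hP)
theorem TV.dl (hA : AOK D lf A) (hP : PT D t) (hx : TW D lf t x X) (hM : TV D lf t M U) :
    TV D lf t (Matrix.diagonal x * M) (dlV A X U) := by
  have e : ∀ i j, x i * M i j = (Matrix.diagonal x * M) i j := fun i j => by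
    rw [Matrix.diagonal_mul]
  exact ⟨tc (hx.a.mul hA hP hM.a) (e 0 0),
    tc (hx.a.mul hA hP hM.b) (e 0 1),
    tc (hx.a.mul hA hP hM.c) (e 0 2),
    tc (hx.b.mul hA hP hM.d) (e 1 0),
    tc (hx.b.mul hA hP hM.e) (e 1 1),
    tc (hx.b.mul hA hP hM.f) (e 1 2),
    tc (hx.c.mul hA hP hM.g) (e 2 0),
    tc (hx.c.mul hA hP hM.h) (e 2 1),
    tc (hx.c.mul hA hP hM.i) (e 2 2)⟩
theorem TV.dr (hA : AOK D lf A) (hP : PT D t) (hM : TV D lf t M U) (hx : TW D lf t x X) :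
    TV D lf t (M * Matrix.diagonal x) (drV A U X) := by
  have e : ∀ i j, M i j * x j = (M * Matrix.diagonal x) i j := fun i j => by
    rw [Matrix.mul_diagonal]
  exact ⟨tc (hM.a.mul hA hP hx.a) (e 0 0),
    tc (hM.b.mul hA hP hx.b) (e 0 1),
    tc (hM.c.mul hA hP hx.c) (e 0 2),
    tc (hM.d.mul hA hP hx.a) (e 1 0),
    tc (hM.e.mul hA hP hx.b) (e 1 1),
    tc (hM.f.mul hA hP hx.c) (e 1 2),
    tc (hM.g.mul hA hP hx.a) (e 2 0),
    tc (hM.h.mul hA hP hx.b) (e 2 1),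
    tc (hM.i.mul hA hP hx.c) (e 2 2)⟩
theorem TW.dg (hA : AOK D lf A) (hP : PT D t) (hx : TW D lf t x X) :
    TV D lf t (Matrix.diagonal x) (dgV A X) :=
  ⟨tc hx.a (Matrix.diagonal_apply_eq x 0).symm,
    tc (TOK_ze hA hP) (Matrix.diagonal_apply_ne x (by decide : (0 : Fin 3) ≠ 1)).symm,
    tc (TOK_ze hA hP) (Matrix.diagonal_apply_ne x (by decide : (0 : Fin 3) ≠ 2)).symm,
    tc (TOK_ze hA hP) (Matrix.diagonal_apply_ne x (by decide : (1 : Fin 3) ≠ 0)).symm,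
    tc hx.b (Matrix.diagonal_apply_eq x 1).symm,
    tc (TOK_ze hA hP) (Matrix.diagonal_apply_ne x (by decide : (1 : Fin 3) ≠ 2)).symm,
    tc (TOK_ze hA hP) (Matrix.diagonal_apply_ne x (by decide : (2 : Fin 3) ≠ 0)).symm,
    tc (TOK_ze hA hP) (Matrix.diagonal_apply_ne x (by decide : (2 : Fin 3) ≠ 1)).symm,
    tc hx.c (Matrix.diagonal_apply_eq x 2).symm⟩
theorem TV.ad (hA : AOK D lf A) (hM : TV D lf t M U) {s : ℂ} {S : Mo α}
    (hs : TOK D lf t s S) : TV D lf t (M + s • 1) (adV A U S) := by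
  have e : ∀ i, M i i + s = (M + s • 1) i i := fun i => by
    simp [Matrix.one_apply_eq]
  have g : ∀ {i j : Fin 3}, i ≠ j → M i j = (M + s • 1) i j := fun {i j} h => by
    simp [Matrix.one_apply_ne h]
  exact ⟨tc (hM.a.add hA hs) (e 0),
    tc hM.b (g (by decide : (0 : Fin 3) ≠ 1)),
    tc hM.c (g (by decide : (0 : Fin 3) ≠ 2)),
    tc hM.d (g (by decide : (1 : Fin 3) ≠ 0)),
    tc (hM.e.add hA hs) (e 1),
    tc hM.f (g (by decide : (1 : Fin 3) ≠ 2)),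
    tc hM.g (g (by decide : (2 : Fin 3) ≠ 0)),
    tc hM.h (g (by decide : (2 : Fin 3) ≠ 1)),
    tc (hM.i.add hA hs) (e 2)⟩
theorem TV.sb (hA : AOK D lf A) (hM : TV D lf t M U) {s : ℂ} {S : Mo α}
    (hs : TOK D lf t s S) : TV D lf t (M - s • 1) (sbV A U S) := by
  have e : ∀ i, M i i - s = (M - s • 1) i i := fun i => by
    simp [Matrix.one_apply_eq]
  have g : ∀ {i j : Fin 3}, i ≠ j → M i j = (M - s • 1) i j := fun {i j} h => by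
    simp [Matrix.one_apply_ne h]
  exact ⟨tc (hM.a.sub hA hs) (e 0),
    tc hM.b (g (by decide : (0 : Fin 3) ≠ 1)),
    tc hM.c (g (by decide : (0 : Fin 3) ≠ 2)),
    tc hM.d (g (by decide : (1 : Fin 3) ≠ 0)),
    tc (hM.e.sub hA hs) (e 1),
    tc hM.f (g (by decide : (1 : Fin 3) ≠ 2)),
    tc hM.g (g (by decide : (2 : Fin 3) ≠ 0)),
    tc hM.h (g (by decide : (2 : Fin 3) ≠ 1)),
    tc (hM.i.sub hA hs) (e 2)⟩
theorem TV.mv (hA : AOK D lf A) (hP : PT D t) (hM : TV D lf t M U) (hx : TW D lf t x X) :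
    TW D lf t (M.mulVec x) (mvV A U X) := by
  have e : ∀ i, M i 0 * x 0 + M i 1 * x 1 + M i 2 * x 2 = M.mulVec x i := by
    intro i
    rw [Matrix.mulVec, dotProduct, Fin.sum_univ_three]
  exact ⟨tc (TOK_dot3 hA hP hM.a hM.b hM.c hx.a hx.b hx.c) (e 0),
    tc (TOK_dot3 hA hP hM.d hM.e hM.f hx.a hx.b hx.c) (e 1),
    tc (TOK_dot3 hA hP hM.g hM.h hM.i hx.a hx.b hx.c) (e 2)⟩

end

end Pool.Agent.Helper91.TMK
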