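import Pool.Agent.Helper91.TM.I
import Pool.Agent.Helper84.TM.N

/-!
Taylor model machine (MP_c75db0, star frame): THE LAWS of the algebra `AT`.
-/

set_option autoImplicit false
set_option exponentiation.threshold 100000
noncomputable section
namespace Pool.Agent.Helper91.TM

open Finset
open Pool.Agent.Helper90.C75
open Pool.Agent.Helper90.KMT (rl erz NN PT tw)
open Pool.Agent.Helper86.C75 (Z)
open Pool.Agent.Helper86.CT (DF Alg)
open Pool.Agent.Helper86.CX (Cx nb2 andB)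
open Pool.Agent.Helper90.KMO
open Pool.Agent.Helper91.TMK (Mch AOKc AOKn LE2)

/-- THE MACHINE -/
def lfT : Mch TP := ⟨evT, fun x => x.g = true, VLT, LVT⟩

theorem SB_of {t : ℕ → ℝ} (h : PT 3 t) : SB (tS t) := tS_ok h.h0 h.h1

theorem LVT.cj {x : TP} (hx : VLT x) (hg : x.g = true) {l : List (ℝ × ℝ)} (h : LVT x l) :
    LVT (cjT x) l := by
  have hnd := Nd_cj hx hg
  obtain ⟨D1, F1, D2, F2, D3, F3, e, a1, a2, a3, a4, a5, a6, a7, a8⟩ := h
  refine ⟨D1, F1, D2, F2, D3, F3, e, a1, ?_, ?_, ?_, ?_, ?_, ?_, ?_⟩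
  · rw [hnd]; exact a2
  · rw [hnd]; exact a3
  · rw [hnd]; exact a4
  · rw [hnd, hnd]; exact a5
  · rw [hnd]; exact a6
  · rw [hnd, hnd, hnd]; exact a7
  · rw [hnd, hnd, hnd, hnd]; exact a8

theorem LVT.sub {x y : TP} (hz : zT (subT x y) = fun i => zT x i - zT y i) {l : List (ℝ × ℝ)}
    (h : LVT x l) (h' : LVT y l) : LVT (subT x y) (l.map tw) := by
  have n := fun d => Nd_sub hz d
  have k1 := n 1
  have k2 := n 2
  have k3 := n 3
  have k4 := n 4
  have k5 := n 5
  have k6 := n 6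
  have p3 := Nd_nn (subT x y) 3
  have p4 := Nd_nn (subT x y) 4
  have p5 := Nd_nn (subT x y) 5
  have p6 := Nd_nn (subT x y) 6
  have q3 := Nd_nn x 3
  have q4 := Nd_nn x 4
  have q5 := Nd_nn x 5
  have q6 := Nd_nn x 6
  obtain ⟨D1, F1, D2, F2, D3, F3, rfl, a1, a2, a3, a4, a5, a6, a7, a8⟩ := h
  obtain ⟨E1, G1, E2, G2, E3, G3, e, b1, b2, b3, b4, b5, b6, b7, b8⟩ := h'
  simp only [List.cons.injEq, Prod.mk.injEq, and_true] at e
  obtain ⟨⟨rfl, rfl⟩, ⟨rfl, rfl⟩, rfl, rfl⟩ := e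
  refine ⟨2 * D1, 2 * F1, 2 * D2, 2 * F2, 2 * D3, 2 * F3, rfl, ?_, ?_, ?_, ?_, ?_, ?_, ?_, ?_⟩
  · linarith
  · linarith
  · linarith
  · linarith
  · linarith
  · linarith
  · linarith
  · rcases a8 with a8 | a8
    · left
      linarith
    · rcases b8 with b8 | b8
      · left
        linarith
      · right
        linarith

theorem LVT.nn {x : TP} {l : List (ℝ × ℝ)} (h : LVT x l) : NN l := by
  obtain ⟨D1, F1, D2, F2, D3, F3, rfl, a1, a2, a3, a4, a5, a6, a7, a8⟩ := h
  have q1 := Nd_nn x 1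
  have q2 := Nd_nn x 2
  have q3 := Nd_nn x 3
  have q4 := Nd_nn x 4
  have q5 := Nd_nn x 5
  have q6 := Nd_nn x 6
  intro z hz
  simp only [List.mem_cons, List.not_mem_nil, or_false] at hz
  rcases hz with rfl | rfl | rfl
  · exact ⟨by show 0 ≤ D1; linarith, by show 0 ≤ F1; linarith⟩
  · exact ⟨by show 0 ≤ D2; linarith, by show 0 ≤ F2; linarith⟩
  · exact ⟨by show 0 ≤ D3; linarith, by show 0 ≤ F3; linarith⟩

theorem LVT.len {x : TP} {l : List (ℝ × ℝ)} (h : LVT x l) : l.length = 3 := by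
  obtain ⟨D1, F1, D2, F2, D3, F3, rfl, -⟩ := h
  rfl

theorem evT_add {x y : TP} (hz : zT (addT x y) = fun i => zT x i + zT y i) (t : ℕ → ℝ) :
    evT (addT x y) t = evT x t + evT y t := by
  unfold evT
  rw [hz, Ev_add]
  ring
theorem evT_sub {x y : TP} (hz : zT (subT x y) = fun i => zT x i - zT y i) (t : ℕ → ℝ) :
    evT (subT x y) t = evT x t - evT y t := by
  unfold evT
  rw [hz, Ev_sub]
  ring
theorem evT_cj {x : TP} (hz : zT (cjT x) = fun i => star (zT x i)) (t : ℕ → ℝ) :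
    evT (cjT x) t = star (evT x t) := by
  unfold evT
  rw [hz, Ev_star, star_div₀]
  congr 1
  simp


/-! ### constants -/

theorem zv_m' (n : ℕ) : zv (Z.m n) = -(n : ℤ) := rfl

theorem zv_abs (z : Z) : |zv z| = (Pool.Agent.Helper86.CX.ab z : ℕ) := by
  cases z with
  | p n => rw [zv_p]; exact abs_of_nonneg (Int.natCast_nonneg _)
  | m n => rw [zv_m', abs_neg]; exact abs_of_nonneg (Int.natCast_nonneg _)

/-- only the constant coefficient -/
def dl (z : ℤ) (i : ℕ) : ℤ := if i = 0 then z else 0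

theorem Sz_dl (z : ℤ) : Sz 301 (dl z) = z := by
  unfold Sz
  rw [Finset.sum_eq_single 0]
  · unfold dl
    simp
  · intro i _ hi
    unfold dl
    rw [if_neg hi, zero_mul]
  · intro h
    exact absurd (mem_range.2 (by norm_num)) h

theorem dl_sp (z : ℤ) : Sp (dl z) := by
  intro i hi
  by_cases h : i = 0
  · subst h
    exact absurd hi (by decide)
  · exact if_neg h

theorem toR_ok {z : Z} (h : |zv z| < 2 ^ 76) : Rp (toR z) (dl (zv z)) := by
  have hlt : (2 : ℕ) ^ 76 ≤ 2 ^ (160 * 301) := Nat.pow_le_pow_right (by norm_num) (by norm_num)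
  cases z with
  | p n =>
    refine Rp_mod (x := n) ?_ (dl_sp _)
    rw [Sz_dl, zv_p]
  | m n =>
    have h0 : Rp n (dl (n : ℤ)) := by
      refine ⟨?_, ?_, dl_sp _⟩
      · rw [zv_m', abs_neg, abs_of_nonneg (Int.natCast_nonneg _)] at h
        have h1 : n < 2 ^ 76 := by exact_mod_cast h
        exact lt_of_lt_of_le h1 hlt
      · rw [Sz_dl]
    have h1 := suR_ok Rp_zero h0
    have e : (fun i => 0 - dl (n : ℤ) i) = dl (zv (Z.m n)) := by
      funext i
      unfold dl
      rw [zv_m']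
      split_ifs
      · exact zero_sub _
      · rfl
    rw [e] at h1
    exact h1

theorem zv_256 (z : Z) : zv (Z.mul (Z.p (nat_lit 256)) z) = 256 * zv z := zv_mul _ _

/-- the data of a constant -/
def cdat (c : Cx) : ℕ := 256 * (Pool.Agent.Helper86.CX.ab c.re + Pool.Agent.Helper86.CX.ab c.im)

theorem csT_eq (c : Cx) : csT c = csT2 c (cdat c) (Nat.add (Pool.Agent.Helper86.CX.ab c.re)
    (Pool.Agent.Helper86.CX.ab c.im)) (toR (Z.mul (Z.p (nat_lit 256)) c.re))
    (toR (Z.mul (Z.p (nat_lit 256)) c.im))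
    (Nat.ble (cdat c) (nat_lit 75557863725914323419135)) := rfl

theorem csT2_ok {c : Cx} {m h re im : ℕ} {g : Bool} (H : g = true → Rp re (dl (256 * zv c.re)) ∧
    Rp im (dl (256 * zv c.im)) ∧ m < 2 ^ 76 ∧ 256 * (|zv c.re| + |zv c.im|) ≤ m) :
    VLT (csT2 c m h re im g) ∧ (g = true →
      zT (csT2 c m h re im g) = zc (dl (256 * zv c.re)) (dl (256 * zv c.im))) := by
  cases g with
  | false =>
    refine ⟨⟨fun hc => ?_, fun _ => ?_⟩, fun hc => ?_⟩
    · exact absurd (show false = true from hc) (by decide)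
    · show 2 ^ 200 ≤ nbF false h (Nat.mul 256 (Pool.Agent.Helper86.CX.ab c.re))
        (Nat.mul 256 (Pool.Agent.Helper86.CX.ab c.im))
      rw [← nbF_f]
      exact Nat.le_add_right _ _
    · exact absurd hc (by decide)
  | true =>
    obtain ⟨ha, hb, hm, hs⟩ := H rfl
    have hsum : ∀ z : ℤ, ∑ i ∈ range 301, |dl z i| = |z| := by
      intro z
      rw [Finset.sum_eq_single 0]
      · rfl
      · intro i _ hi
        unfold dl
        rw [if_neg hi, abs_zero]
      · intro h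
        exact absurd (mem_range.2 (by norm_num)) h
    have h256 : ∀ z : ℤ, |256 * z| = 256 * |z| := by
      intro z
      rw [abs_mul]
      rfl
    have hsm : ∑ i ∈ range 301, (|dl (256 * zv c.re) i| + |dl (256 * zv c.im) i|) ≤ (m : ℤ) := by
      rw [Finset.sum_add_distrib, hsum, hsum, h256, h256]
      linarith
    have hl := abs_lt_of ha.sp hb.sp hsm hm
    have da : dcf re = dl (256 * zv c.re) := ha.dcf fun i => (hl i).1
    have db : dcf im = dl (256 * zv c.im) := hb.dcf fun i => (hl i).2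
    set x := csT2 c m h re im true with hx
    have hz : zT x = zc (dl (256 * zv c.re)) (dl (256 * zv c.im)) := by
      funext i
      show ((dcf re i : ℤ) : ℂ) + ((dcf im i : ℤ) : ℂ) * Complex.I = _
      rw [da, db]
      rfl
    refine ⟨⟨fun _ => ?_, fun hc => ?_⟩, fun _ => hz⟩
    · have hnd : ∀ d, 1 ≤ d → Nd x d = 0 := by
        intro d hd
        unfold Nd Nh
        rw [hz, Finset.sum_eq_zero, zero_div]
        intro r _
        have h1 : 43 * d + r ≠ 0 := by omega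
        unfold zc dl
        rw [if_neg h1, if_neg h1]
        simp
      refine ⟨?_, ?_, ?_, hm, ?_, ?_⟩
      · show Rp re (dcf re)
        rw [da]
        exact ha
      · show Rp im (dcf im)
        rw [db]
        exact hb
      · show ∑ i ∈ range 301, (|dcf re i| + |dcf im i|) ≤ (m : ℤ)
        rw [da, db]
        exact hsm
      · show (∑ i ∈ range 301, |dcf re i|) ^ 2 + (∑ i ∈ range 301, |dcf im i|) ^ 2 ≤
          (256 * ((up8 (nb2 (256 * Pool.Agent.Helper86.CX.ab c.re)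
            (256 * Pool.Agent.Helper86.CX.ab c.im)) : ℕ) : ℤ)) ^ 2
        rw [da, db, hsum, hsum, h256, h256, zv_abs, zv_abs]
        have h1 := nb2_sq (256 * Pool.Agent.Helper86.CX.ab c.re)
          (256 * Pool.Agent.Helper86.CX.ab c.im)
        have h2 := up8_le (nb2 (256 * Pool.Agent.Helper86.CX.ab c.re)
          (256 * Pool.Agent.Helper86.CX.ab c.im))
        have h4 := h1.trans (Nat.pow_le_pow_left h2 2)
        exact_mod_cast h4
      · refine ⟨1, 0, 0, 0, 0, 0, ?_, le_rfl, ?_, ?_, ?_, ?_, ?_, ?_, ?_⟩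
        · show ([⟨(nat_lit 1), (nat_lit 0)⟩, ⟨(nat_lit 0), (nat_lit 0)⟩,
            ⟨(nat_lit 0), (nat_lit 0)⟩] : List DF).map rl = _
          simp [rl]
        · rw [hnd 1 le_rfl]; norm_num
        · rw [hnd 6 (by norm_num)]
        · rw [hnd 2 (by norm_num)]; norm_num
        · rw [hnd 5 (by norm_num), hnd 6 (by norm_num)]; norm_num
        · rw [hnd 3 (by norm_num)]; norm_num
        · rw [hnd 4 (by norm_num), hnd 5 (by norm_num), hnd 6 (by norm_num)]; norm_num
        · right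
          rw [hnd 3 (by norm_num), hnd 4 (by norm_num), hnd 5 (by norm_num), hnd 6 (by norm_num)]
          norm_num
    · exact absurd (show true = false from hc) (by decide)

theorem csT_H (c : Cx) : Nat.ble (cdat c) (nat_lit 75557863725914323419135) = true →
    Rp (toR (Z.mul (Z.p (nat_lit 256)) c.re)) (dl (256 * zv c.re)) ∧
    Rp (toR (Z.mul (Z.p (nat_lit 256)) c.im)) (dl (256 * zv c.im)) ∧ cdat c < 2 ^ 76 ∧
    256 * (|zv c.re| + |zv c.im|) ≤ (cdat c : ℤ) := by
  intro h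
  have h1 := m_ok h
  have e : 256 * (|zv c.re| + |zv c.im|) = (cdat c : ℤ) := by
    rw [zv_abs, zv_abs]
    unfold cdat
    push_cast
    rfl
  have h2 : 256 * (|zv c.re| + |zv c.im|) < 2 ^ 76 := by
    rw [e]
    exact_mod_cast h1
  have p1 := abs_nonneg (zv c.re)
  have p2 := abs_nonneg (zv c.im)
  refine ⟨?_, ?_, h1, e.le⟩
  · rw [← zv_256]
    refine toR_ok ?_
    rw [zv_256, abs_mul]
    show 256 * |zv c.re| < 2 ^ 76
    linarith
  · rw [← zv_256]
    refine toR_ok ?_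
    rw [zv_256, abs_mul]
    show 256 * |zv c.im| < 2 ^ 76
    linarith

/-- CONSTANTS -/
theorem csT_ok (c : Cx) : VLT (csT c) ∧ ((csT c).g = true →
    cdat c < 2 ^ 76 ∧ zT (csT c) = zc (dl (256 * zv c.re)) (dl (256 * zv c.im))) := by
  rw [csT_eq]
  obtain ⟨h1, h2⟩ := csT2_ok (h := Nat.add (Pool.Agent.Helper86.CX.ab c.re)
    (Pool.Agent.Helper86.CX.ab c.im)) (csT_H c)
  exact ⟨h1, fun hg => ⟨(csT_H c hg).2.2.1, h2 hg⟩⟩

theorem csT_ev {c : Cx} (hg : (csT c).g = true) (t : ℕ → ℝ) : evT (csT c) t = cz c := by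
  unfold evT
  rw [((csT_ok c).2 hg).2]
  unfold Ev
  rw [Finset.sum_eq_single 0]
  · have h0 : mu (tS t) 0 = 1 := by
      unfold mu
      have : x0 0 = 0 ∧ x1 0 = 0 ∧ x2 0 = 0 := by decide
      rw [this.1, this.2.1, this.2.2]
      simp
    rw [h0]
    unfold zc dl
    rw [if_pos rfl, if_pos rfl]
    apply Complex.ext
    · simp [cz]
    · simp [cz]
  · intro i _ hi
    unfold zc dl
    rw [if_neg hi, if_neg hi]
    simp
  · intro h
    exact absurd (mem_range.2 (by norm_num)) h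

/-- the bound of the modulus of a real constant -/
theorem csT2_n (n m h re im : ℕ) (g : Bool) (hh : n ≤ h) :
    n ≤ (csT2 ⟨Z.p n, Z.p (nat_lit 0)⟩ m h re im g).n := by
  cases g with
  | false =>
    show n ≤ nbF false h (Nat.mul 256 n) (Nat.mul 256 0)
    rw [← nbF_f]
    omega
  | true =>
    show n ≤ up8 (nb2 (256 * n) (256 * 0))
    have h1 := up8_le (nb2 (256 * n) (256 * 0))
    have h2 := nb2_sq (256 * n) (256 * 0)
    have h3 : (256 * n) ^ 2 ≤ nb2 (256 * n) (256 * 0) ^ 2 := by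
      refine le_trans ?_ h2
      simp
    have h4 := (Nat.pow_le_pow_iff_left two_ne_zero).1 h3
    omega

theorem csT_n (n : ℕ) : n ≤ (csT ⟨Z.p n, Z.p (nat_lit 0)⟩).n := by
  rw [csT_eq]
  exact csT2_n _ _ _ _ _ _ (Nat.le_add_right n 0)

/-! ### no overflow -/

theorem mkA_n {m h re im : ℕ} {g : Bool} (hg : (mkA2 m h re im g).g = false) :
    2 ^ 200 + h ≤ (mkA2 m h re im g).n := by
  cases g with
  | false => exact (nbF_f h (ds (absT re)) (ds (absT im))).le
  | true => exact absurd (show true = false from hg) (by decide)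

theorem mkA_n' {x y : TP} (hg : (subT x y).g = false) : 2 ^ 200 + y.n ≤ (subT x y).n := by
  have h := mkA_n (m := Nat.add x.m y.m) (h := Nat.add x.n y.n) (re := suR x.re y.re)
    (im := suR x.im y.im) (g := andB (andB x.g y.g)
    (Nat.ble (Nat.add x.m y.m) (nat_lit 75557863725914323419135))) hg
  refine le_trans ?_ h
  show 2 ^ 200 + y.n ≤ 2 ^ 200 + (x.n + y.n)
  omega

/-! ### THE LAWS -/

theorem evT_c (x : TP) {t t' : ℕ → ℝ} (h : ∀ j < 3, t j = t' j) : evT x t = evT x t' := by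
  unfold evT Ev mu tS
  rw [h 0 (by norm_num), h 1 (by norm_num), h 2 (by norm_num)]

theorem LVT.mono {x : TP} : ∀ {l l' : List (ℝ × ℝ)}, LVT x l → LE2 l l' → LVT x l' := by
  intro l l' h hl
  obtain ⟨D1, F1, D2, F2, D3, F3, rfl, a1, a2, a3, a4, a5, a6, a7, a8⟩ := h
  cases hl with
  | cons k1 hl =>
    cases hl with
    | cons k2 hl =>
      cases hl with
      | cons k3 hl =>
        cases hl with
        | nil =>
          rename_i u v w
          obtain ⟨E1, G1⟩ := u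
          obtain ⟨E2, G2⟩ := v
          obtain ⟨E3, G3⟩ := w
          have c1 : D1 ≤ E1 := k1.1
          have c2 : F1 ≤ G1 := k1.2
          have c3 : D2 ≤ E2 := k2.1
          have c4 : F2 ≤ G2 := k2.2
          have c5 : D3 ≤ E3 := k3.1
          have c6 : F3 ≤ G3 := k3.2
          refine ⟨E1, G1, E2, G2, E3, G3, rfl, a1.trans c1, a2.trans c1, a3.trans c2,
            a4.trans c3, a5.trans c4, a6.trans c5, a7.trans c6, ?_⟩
          rcases a8 with a8 | a8
          · exact Or.inl (a8.trans c3)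
          · exact Or.inr a8

theorem evT_bd {x : TP} (h : GT x) {t : ℕ → ℝ} (hs : SB (tS t)) : ‖evT x t‖ ≤ 2 ^ 148 := by
  have h1 := Ev_norm hs (zT x)
  have h2 : ∑ i ∈ range 301, ‖zT x i‖ ≤ ((∑ i ∈ range 301, (|dcf x.re i| + |dcf x.im i|) : ℤ) : ℝ) := by
    push_cast
    refine Finset.sum_le_sum fun i _ => ?_
    have h3 := Complex.norm_le_abs_re_add_abs_im (zT x i)
    rw [zT_zc, zc_re, zc_im] at h3
    exact h3
  have h4 : ((∑ i ∈ range 301, (|dcf x.re i| + |dcf x.im i|) : ℤ) : ℝ) ≤ ((x.m : ℤ) : ℝ) := by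
    exact_mod_cast h.sm
  have h5 : ((x.m : ℤ) : ℝ) < 2 ^ 76 := by
    have := h.m
    have h6 : (x.m : ℤ) < 2 ^ 76 := by exact_mod_cast this
    exact_mod_cast h6
  unfold evT
  rw [norm_div]
  have e3 : ‖(256 : ℂ)‖ = 256 := by norm_num
  rw [e3]
  have h7 : (2 : ℝ) ^ 76 ≤ 2 ^ 148 := by norm_num
  have h8 : 0 ≤ ‖Ev (tS t) (zT x)‖ := norm_nonneg _
  linarith

theorem inv_vl {x : TP} (hx : VLT x) : VLT (invT x) := by
  have ha := (csT_ok (Pool.Agent.Helper86.CX.cdiv Pool.Agent.Helper86.CX.one1 (c0T x))).1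
  have h1 : VLT oneT := (csT_ok _).1
  have hu := (subT_ok (mulT_ok ha hx).1 h1).1
  have hv := (mulT_ok hu hu).1
  have hw := (mulT_ok hv hv).1
  exact (mulT_ok (mulT_ok (mulT_ok (subT_ok h1 hu).1 (addT_ok h1 hv).1).1 (addT_ok h1 hw).1).1
    ha).1

/-- **THE LAWS OF THE ALGEBRA `AT`** -/
theorem AT_okc : AOKc 2 3 lfT AT where
  vadd := fun hx hy => (addT_ok hx hy).1
  vsub := fun hx hy => (subT_ok hx hy).1
  vmul := fun hx hy => (mulT_ok hx hy).1
  vq4 := fun hx => (q4T_ok hx).1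
  vcj := fun hx => (cjT_ok hx).1
  vcs := fun z => (csT_ok z).1
  vinv := fun hx => inv_vl hx
  add := fun hx hy hg => ⟨((addT_ok hx hy).2 hg).1, ((addT_ok hx hy).2 hg).2.1,
    fun t => evT_add ((addT_ok hx hy).2 hg).2.2 t⟩
  sub := fun hx hy hg => ⟨((subT_ok hx hy).2 hg).1, ((subT_ok hx hy).2 hg).2.1,
    fun t => evT_sub ((subT_ok hx hy).2 hg).2.2 t⟩
  mul := fun hx hy hg => ⟨((mulT_ok hx hy).2 hg).1, ((mulT_ok hx hy).2 hg).2.1,
    fun t l l' hP hl hl' => mulT_ev hx hy hg (SB_of hP) hl hl'⟩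
  q4 := fun hx hg => ⟨((q4T_ok hx).2 hg).1, fun _ hP => q4T_ev hx hg (SB_of hP)⟩
  cj := fun hx hg => ⟨((cjT_ok hx).2 hg).1, fun t => evT_cj ((cjT_ok hx).2 hg).2 t⟩
  cs := fun z hg t => csT_ev hg t
  mag := fun hx hg _ hP => evT_le (hx.ok hg) (SB_of hP)
  lv := fun hx hg => (hx.ok hg).l
  lvcj := fun hx hg hl => hl.cj hx hg
  lvsub := fun hx hy hg hl hl' => hl.sub ((subT_ok hx hy).2 hg).2.2 hl'
  lvnn := fun hl => hl.nn
  nbg := fun {x} hx hn => by
    cases hg : x.g with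
    | true => exact hg
    | false =>
      have h1 := hx.big hg
      have h2 : x.n < 2 ^ 150 := hn
      have h3 : (2 : ℕ) ^ 150 < 2 ^ 200 := by norm_num
      omega
  cng := fun {s} n hs hn => by
    cases hg : (subT s (csT ⟨Z.p n, Z.p (nat_lit 0)⟩)).g with
    | true => exact hg
    | false =>
      exfalso
      have h1 := mkA_n' hg
      have h2 := csT_n n
      have h3 : (subT s (csT ⟨Z.p n, Z.p (nat_lit 0)⟩)).n ≤ n := hn
      omega
  csb := fun n hg => by
    have h1 := ((csT_ok ⟨Z.p n, Z.p (nat_lit 0)⟩).2 hg).1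
    have h2 : cdat ⟨Z.p n, Z.p (nat_lit 0)⟩ = 256 * (n + 0) := rfl
    rw [h2] at h1
    omega

/-- **THE LAWS OF THE ALGEBRA `AT`**, with those for one more direction -/
theorem AT_okn : AOKn 2 3 lfT AT :=
  { AT_okc with
    evc := fun x _ _ h => evT_c x h
    gbd := fun hx hg _ hP => evT_bd (hx.ok hg) (SB_of hP)
    gcj := fun _ hg => hg
    lvmn := fun hl h => hl.mono h
    lvln := fun hl hl' => hl.len.trans hl'.len.symm }

theorem AT_ok : Pool.Agent.Helper91.TMK.AOK 3 lfT AT := AT_okc.mono (by norm_num)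

end Pool.Agent.Helper91.TM
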