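import Pool.Agent.Helper91.TM.Q
import Pool.Agent.Helper21.TM.BX

/-!
Taylor model machine (MP_c75db0, star frame): quadratic functions of one parameter given by their
controls; the laws `CD` of the directions.
-/

set_option autoImplicit false
set_option exponentiation.threshold 100000
noncomputable section
namespace Pool.Agent.Helper91.TM

open Finset
open Pool.Agent.Helper90.C75
open Pool.Agent.Helper90.KMT (PT)
open Pool.Agent.Helper86.C75 (Z)
open Pool.Agent.Helper86.CT (N3)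
open Pool.Agent.Helper86.CX (Cx)
open Pool.Agent.Helper90.KMO

/-- three coefficients -/
def qc (q : ℕ) (A0 A1 A2 : ℤ) (i : ℕ) : ℤ :=
  if i = 0 then A0 else if i = q then A1 else if i = 2 * q then A2 else 0

/-- the position of a direction -/
structure Ps (q : ℕ) : Prop where
  pos : 1 ≤ q
  lt : q ≤ 50
  v1 : vb q = true
  v2 : vb (2 * q) = true

variable {q : ℕ} {A0 A1 A2 : ℤ}

theorem qc_0 : qc q A0 A1 A2 0 = A0 := if_pos rfl
theorem qc_1 (h : Ps q) : qc q A0 A1 A2 q = A1 := by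
  unfold qc
  rw [if_neg (by have := h.pos; omega), if_pos rfl]
theorem qc_2 (h : Ps q) : qc q A0 A1 A2 (2 * q) = A2 := by
  unfold qc
  rw [if_neg (by have := h.pos; omega), if_neg (by have := h.pos; omega), if_pos rfl]
theorem qc_n {i : ℕ} (h0 : i ≠ 0) (h1 : i ≠ q) (h2 : i ≠ 2 * q) : qc q A0 A1 A2 i = 0 := by
  unfold qc
  rw [if_neg h0, if_neg h1, if_neg h2]

theorem qc_sp (h : Ps q) : Sp (qc q A0 A1 A2) := by
  intro i hi
  refine qc_n ?_ ?_ ?_
  · rintro rfl
    exact absurd hi (by decide)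
  · rintro rfl
    rw [h.v1] at hi
    exact absurd hi (by decide)
  · rintro rfl
    rw [h.v2] at hi
    exact absurd hi (by decide)

theorem sum_qc {R : Type*} [AddCommMonoid R] (h : Ps q) (F : ℤ → ℕ → R) (hF : ∀ i, F 0 i = 0) :
    ∑ i ∈ range 301, F (qc q A0 A1 A2 i) i = F A0 0 + F A1 q + F A2 (2 * q) := by
  have h1 := h.pos
  have h2 := h.lt
  have hsub : ({0, q, 2 * q} : Finset ℕ) ⊆ range 301 := by
    intro i hi
    simp only [Finset.mem_insert, Finset.mem_singleton] at hi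
    rw [mem_range]
    omega
  rw [← Finset.sum_subset hsub]
  · rw [Finset.sum_insert, Finset.sum_insert, Finset.sum_singleton, qc_0, qc_1 h, qc_2 h, add_assoc]
    · rw [Finset.mem_singleton]
      omega
    · simp only [Finset.mem_insert, Finset.mem_singleton]
      omega
  · intro i _ hi
    simp only [Finset.mem_insert, Finset.mem_singleton, not_or] at hi
    rw [qc_n hi.1 hi.2.1 hi.2.2, hF]

/-- from a number to its coefficients -/
theorem toR_big {z : Z} {c : ℕ → ℤ} (h : zv z = Sz 301 c) (hs : Sp c)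
    (hb : |zv z| < 2 ^ (160 * 301)) : Rp (toR z) c := by
  cases z with
  | p n =>
    refine Rp_mod (x := n) ?_ hs
    rw [← h, zv_p]
  | m n =>
    have hs' : Sp (fun i => 0 - c i) := by
      intro i hi
      show 0 - c i = 0
      rw [hs i hi]
      rfl
    have h0 : Rp n (fun i => 0 - c i) := by
      refine ⟨?_, ?_, hs'⟩
      · rw [zv_m', abs_neg, abs_of_nonneg (Int.natCast_nonneg _)] at hb
        have h1 : ((n : ℕ) : ℤ) < ((2 ^ (160 * 301) : ℕ) : ℤ) := by
          rw [Nat.cast_pow]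
          exact hb
        exact Int.ofNat_lt.1 h1
      · have e : Sz 301 (fun i => 0 - c i) = - Sz 301 c := by
          unfold Sz
          rw [← Finset.sum_neg_distrib]
          exact Finset.sum_congr rfl fun i _ => by ring
        rw [e, ← h, zv_m', neg_neg]
    have h1 := suR_ok Rp_zero h0
    have e : (fun i => 0 - (0 - c i)) = c := by
      funext i
      ring
    have e' : (fun i : ℕ => (0 : ℤ) - (fun i => 0 - c i) i) = c := e
    rw [e'] at h1
    exact h1

theorem zv_sh (e : ℕ) (x : Z) : zv (shZ e x) = 2 ^ e * zv x := by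
  have h : Nat.shiftLeft (nat_lit 1) e = 2 ^ e := by
    have := Nat.shiftLeft_eq 1 e
    rw [one_mul] at this
    exact this
  unfold shZ
  rw [zv_mul, zv_p, h]
  push_cast
  rfl

/-- the three coefficients of the function with the controls `a`, `c`, `b` -/
def qa (a c b : ℤ) : ℕ → ℕ → ℤ := fun q => qc q (64 * (a + b + 2 * c)) (128 * (b - a)) (64 * (a + b - 2 * c))

theorem zv_qt (e : ℕ) (a c b : Z) : zv (Z.add (Z.mul (Z.p (nat_lit 64)) (Z.add (Z.add a b)
    (Z.add c c))) (Z.add (shZ e (Z.mul (Z.p (Nat.mul (nat_lit 2) (nat_lit 64))) (Z.sub b a)))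
      (shZ (Nat.mul (nat_lit 2) e) (Z.mul (Z.p (nat_lit 64)) (Z.sub (Z.add a b) (Z.add c c)))))) =
    64 * (zv a + zv b + 2 * zv c) + 2 ^ e * (128 * (zv b - zv a)) +
      2 ^ (2 * e) * (64 * (zv a + zv b - 2 * zv c)) := by
  have h1 : zv (Z.p (Nat.mul (nat_lit 2) (nat_lit 64))) = 128 := rfl
  have h2 : zv (Z.p (nat_lit 64)) = 64 := rfl
  have h3 : Nat.mul (nat_lit 2) e = 2 * e := rfl
  rw [zv_add, zv_mul, zv_add, zv_add, zv_add, zv_add, zv_sh, zv_sh, zv_mul, zv_mul, zv_sub, zv_sub,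
    zv_add, zv_add, h1, h2, h3]
  ring

theorem abs3_le (a c b : ℤ) : |64 * (a + b + 2 * c)| + |128 * (b - a)| + |64 * (a + b - 2 * c)| ≤
    256 * (|a| + |b| + |c|) := by
  have e : ∀ k x : ℤ, 0 ≤ k → |k * x| = k * |x| := fun k x hk => by rw [abs_mul, abs_of_nonneg hk]
  rw [e 64 _ (by norm_num), e 128 _ (by norm_num), e 64 _ (by norm_num)]
  rcases abs_cases (a + b + 2 * c) with h1 | h1 <;> rcases abs_cases (b - a) with h2 | h2 <;>
  rcases abs_cases (a + b - 2 * c) with h3 | h3 <;> rcases abs_cases a with h4 | h4 <;>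
  rcases abs_cases b with h5 | h5 <;> rcases abs_cases c with h6 | h6 <;> omega

theorem qtZ_ok (h : Ps q) {a c b : Z} (hb : 256 * (|zv a| + |zv b| + |zv c|) < 2 ^ 76) :
    Rp (qtZ (160 * q) (nat_lit 64) a c b) (qa (zv a) (zv c) (zv b) q) := by
  have hv := zv_qt (160 * q) a c b
  have h3 := abs3_le (zv a) (zv c) (zv b)
  refine toR_big ?_ (qc_sp h) ?_
  · refine hv.trans ?_
    unfold Sz qa
    rw [sum_qc h (F := fun z i => z * 2 ^ (160 * i)) (fun i => zero_mul _)]
    rw [show 160 * (2 * q) = 2 * (160 * q) by ring, mul_zero, pow_zero, mul_one]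
    ring
  · refine (le_of_eq (congrArg abs hv)).trans_lt ?_
    set B : ℤ := 2 ^ (160 * 100) with hB
    have hB0 : 0 < B := by positivity
    have p0 : (1 : ℤ) ≤ B := one_le_pow₀ (by norm_num)
    have p1 : (2 : ℤ) ^ (160 * q) ≤ B :=
      pow_le_pow_right₀ (by norm_num) (by have := h.lt; omega)
    have p2 : (2 : ℤ) ^ (2 * (160 * q)) ≤ B :=
      pow_le_pow_right₀ (by norm_num) (by have := h.lt; omega)
    have q1 : 0 ≤ (2 : ℤ) ^ (160 * q) := by positivity
    have q2 : 0 ≤ (2 : ℤ) ^ (2 * (160 * q)) := by positivity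
    set X := 64 * (zv a + zv b + 2 * zv c)
    set Y := 128 * (zv b - zv a)
    set W := 64 * (zv a + zv b - 2 * zv c)
    have k1 : |X + 2 ^ (160 * q) * Y + 2 ^ (2 * (160 * q)) * W| ≤ B * |X| + B * |Y| + B * |W| := by
      refine (abs_add_le _ _).trans (add_le_add ((abs_add_le _ _).trans (add_le_add ?_ ?_)) ?_)
      · exact le_mul_of_one_le_left (abs_nonneg _) p0
      · rw [abs_mul, abs_of_nonneg q1]
        exact mul_le_mul_of_nonneg_right p1 (abs_nonneg _)
      · rw [abs_mul, abs_of_nonneg q2]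
        exact mul_le_mul_of_nonneg_right p2 (abs_nonneg _)
    have k2 : B * |X| + B * |Y| + B * |W| < B * 2 ^ 76 := by
      have : |X| + |Y| + |W| < 2 ^ 76 := lt_of_le_of_lt h3 hb
      nlinarith
    have k3 : B * 2 ^ 76 ≤ 2 ^ (160 * 301) := by
      rw [hB, ← pow_add]
      exact pow_le_pow_right₀ (by norm_num) (by norm_num)
    exact lt_of_lt_of_le (lt_of_le_of_lt k1 k2) k3

theorem qt2_ok (h : Ps q) (a c b : Cx) :
    VLT (qtT2 (160 * q) a c b (qtM a c b)) ∧ ((qtT2 (160 * q) a c b (qtM a c b)).g = true →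
      zT (qtT2 (160 * q) a c b (qtM a c b)) = zc (qa (zv a.re) (zv c.re) (zv b.re) q)
        (qa (zv a.im) (zv c.im) (zv b.im) q)) := by
  have em : ((qtM a c b : ℕ) : ℤ) = 256 * (|zv a.re| + |zv b.re| + |zv c.re|) +
      256 * (|zv a.im| + |zv b.im| + |zv c.im|) := by
    have e1 : qtM a c b = 256 * (((Pool.Agent.Helper86.CX.ab a.re + Pool.Agent.Helper86.CX.ab a.im)
      + (Pool.Agent.Helper86.CX.ab b.re + Pool.Agent.Helper86.CX.ab b.im)) +
      (Pool.Agent.Helper86.CX.ab c.re + Pool.Agent.Helper86.CX.ab c.im)) := rfl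
    rw [e1, zv_abs, zv_abs, zv_abs, zv_abs, zv_abs, zv_abs]
    push_cast
    ring
  have H : Nat.ble (qtM a c b) (nat_lit 75557863725914323419135) = true →
      Rp (qtZ (160 * q) (nat_lit 64) a.re c.re b.re) (qa (zv a.re) (zv c.re) (zv b.re) q) ∧
      Rp (qtZ (160 * q) (nat_lit 64) a.im c.im b.im) (qa (zv a.im) (zv c.im) (zv b.im) q) ∧
      ∑ i ∈ range 301, (|qa (zv a.re) (zv c.re) (zv b.re) q i| +
        |qa (zv a.im) (zv c.im) (zv b.im) q i|) ≤ ((qtM a c b : ℕ) : ℤ) ∧ qtM a c b < 2 ^ 76 := by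
    intro hm
    have h1 := m_ok hm
    have h2 : ((qtM a c b : ℕ) : ℤ) < 2 ^ 76 := by exact_mod_cast h1
    have n1 : 0 ≤ 256 * (|zv a.re| + |zv b.re| + |zv c.re|) := by positivity
    have n2 : 0 ≤ 256 * (|zv a.im| + |zv b.im| + |zv c.im|) := by positivity
    rw [em] at h2
    refine ⟨qtZ_ok h (by linarith), qtZ_ok h (by linarith), ?_, h1⟩
    rw [em, Finset.sum_add_distrib]
    refine add_le_add ?_ ?_
    · unfold qa
      rw [sum_qc h (F := fun z _ => |z|) (fun _ => abs_zero)]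
      exact abs3_le _ _ _
    · unfold qa
      rw [sum_qc h (F := fun z _ => |z|) (fun _ => abs_zero)]
      exact abs3_le _ _ _
  have k := mkA_ok (h := qtM a c b) H
  exact ⟨k.1, k.2⟩

theorem qt_ev (h : Ps q) {s : ℕ → ℝ} {j : ℕ} (h0 : mu s 0 = 1) (h1 : mu s q = s j)
    (h2 : mu s (2 * q) = s j ^ 2) (a c b : Cx) : Ev s (zc (qa (zv a.re) (zv c.re) (zv b.re) q)
        (qa (zv a.im) (zv c.im) (zv b.im) q)) / 256 =
      (((1 + s j) / 2 : ℝ) : ℂ) ^ 2 * cz b + 2 * (((1 + s j) / 2 : ℝ) : ℂ) *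
        (((1 - s j) / 2 : ℝ) : ℂ) * cz c + (((1 - s j) / 2 : ℝ) : ℂ) ^ 2 * cz a := by
  have key : ∀ a c b : ℤ, ∑ i ∈ range 301, ((qa a c b q i : ℤ) : ℝ) * mu s i =
      64 * (a + b + 2 * c) + 128 * (b - a) * s j + 64 * (a + b - 2 * c) * s j ^ 2 := by
    intro a c b
    unfold qa
    rw [sum_qc h (F := fun z i => ((z : ℤ) : ℝ) * mu s i) (fun i => by simp), h0, h1, h2]
    push_cast
    ring
  have e1 : Ev s (zc (qa (zv a.re) (zv c.re) (zv b.re) q) (qa (zv a.im) (zv c.im) (zv b.im) q)) =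
      ((∑ i ∈ range 301, ((qa (zv a.re) (zv c.re) (zv b.re) q i : ℤ) : ℝ) * mu s i : ℝ) : ℂ) +
      ((∑ i ∈ range 301, ((qa (zv a.im) (zv c.im) (zv b.im) q i : ℤ) : ℝ) * mu s i : ℝ) : ℂ) *
        Complex.I := by
    unfold Ev zc
    push_cast
    rw [Finset.sum_mul, ← Finset.sum_add_distrib]
    exact Finset.sum_congr rfl fun i _ => by ring
  rw [e1, key, key]
  apply Complex.ext
  · simp [cz, sq]
    ring
  · simp [cz, sq]
    ring

theorem Ps43 : Ps 43 := ⟨by norm_num, by norm_num, by decide, by decide⟩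
theorem Ps44 : Ps 44 := ⟨by norm_num, by norm_num, by decide, by decide⟩
theorem Ps50 : Ps 50 := ⟨by norm_num, by norm_num, by decide, by decide⟩

theorem mu_of {s : ℕ → ℝ} {i a b c : ℕ} (h : x0 i = a ∧ x1 i = b ∧ x2 i = c) :
    mu s i = s 0 ^ a * s 1 ^ b * s 2 ^ c := by
  unfold mu
  rw [h.1, h.2.1, h.2.2]

/-- A QUADRATIC FUNCTION OF ONE PARAMETER -/
theorem qtT_ok {j : ℕ} (hj : j < 3) (a c b : Cx) : VLT (qtT j a c b) ∧
    ((qtT j a c b).g = true → ∀ t : ℕ → ℝ, evT (qtT j a c b) t =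
      ((t j : ℝ) : ℂ) ^ 2 * cz b + 2 * ((t j : ℝ) : ℂ) * ((1 - t j : ℝ) : ℂ) * cz c +
        ((1 - t j : ℝ) : ℂ) ^ 2 * cz a) := by
  have key : ∀ {q : ℕ}, Ps q → (∀ s : ℕ → ℝ, mu s 0 = 1 ∧ mu s q = s j ∧ mu s (2 * q) = s j ^ 2) →
      VLT (qtT2 (160 * q) a c b (qtM a c b)) ∧ ((qtT2 (160 * q) a c b (qtM a c b)).g = true →
      ∀ t : ℕ → ℝ, evT (qtT2 (160 * q) a c b (qtM a c b)) t =
      ((t j : ℝ) : ℂ) ^ 2 * cz b + 2 * ((t j : ℝ) : ℂ) * ((1 - t j : ℝ) : ℂ) * cz c +
        ((1 - t j : ℝ) : ℂ) ^ 2 * cz a) := by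
    intro q h hm
    obtain ⟨h1, h2⟩ := qt2_ok h a c b
    refine ⟨h1, fun hg t => ?_⟩
    obtain ⟨m0, m1, m2⟩ := hm (tS t)
    have e := qt_ev h m0 m1 m2 a c b
    unfold evT
    rw [h2 hg, e]
    have e1 : (1 + tS t j) / 2 = t j := by
      unfold tS
      ring
    have e2 : (1 - tS t j) / 2 = 1 - t j := by
      unfold tS
      ring
    rw [e1, e2]
  have z0 : ∀ s : ℕ → ℝ, mu s 0 = 1 := by
    intro s
    rw [mu_of (a := 0) (b := 0) (c := 0) (by decide)]
    simp
  have eq : ∀ q, eJ j = 160 * q → qtT j a c b = qtT2 (160 * q) a c b (qtM a c b) := by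
    intro q hq
    unfold qtT
    rw [hq]
  rcases j with _ | _ | _ | j
  · rw [eq 43 (by rfl)]
    refine key Ps43 fun s => ⟨z0 s, ?_, ?_⟩
    · rw [mu_of (a := 1) (b := 0) (c := 0) (by decide)]
      simp
    · rw [mu_of (a := 2) (b := 0) (c := 0) (by decide)]
      simp
  · rw [eq 44 (by rfl)]
    refine key Ps44 fun s => ⟨z0 s, ?_, ?_⟩
    · rw [mu_of (a := 0) (b := 1) (c := 0) (by decide)]
      simp
    · rw [mu_of (a := 0) (b := 2) (c := 0) (by decide)]
      simp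
  · rw [eq 50 (by rfl)]
    refine key Ps50 fun s => ⟨z0 s, ?_, ?_⟩
    · rw [mu_of (a := 0) (b := 0) (c := 1) (by decide)]
      simp
    · rw [mu_of (a := 0) (b := 0) (c := 2) (by decide)]
      simp
  · omega

/-- THE DIRECTIONS of the machine with three parameters -/
theorem CD3 : ∀ j < 3, Pool.Agent.Helper91.TMK.BX.CD 3 j lfT (qtT j) := by
  intro j hj
  refine ⟨fun a c b => (qtT_ok hj a c b).1, fun a c b t hg _ => ?_⟩
  refine ((qtT_ok hj a c b).2 hg t).trans ?_
  push_cast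
  ring

/-- the directions `0, 1, 2` of the machine with four parameters -/
def qtQ (j : ℕ) (a c b : Cx) : TQ := N3.k (qtT j a c b)
/-- direction `3` of the machine with four parameters -/
def qtQ3 (a c b : Cx) : TQ := N3.q (csT a) (csT c) (csT b)

theorem CD4 : ∀ j < 3, Pool.Agent.Helper91.TMK.BX.CD 4 j lfQ (qtQ j) := by
  intro j hj
  refine ⟨fun a c b _ => (qtT_ok hj a c b).1, fun a c b t hg hP => ?_⟩
  refine (Pool.Agent.Helper91.TMK.avg_btc (t 3) _).trans ?_
  refine ((qtT_ok hj a c b).2 (hg 0) t).trans ?_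
  push_cast
  ring

end Pool.Agent.Helper91.TM
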