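import Pool.Agent.Helper91.TM.R

/-!
Taylor model machine (MP_c75db0, star frame): products.
-/

set_option autoImplicit false
set_option exponentiation.threshold 100000
noncomputable section
namespace Pool.Agent.Helper91.TM

open Finset
open Pool.Agent.Helper90.C75
open Pool.Agent.Helper90.KMT (rl erz NN)
open Pool.Agent.Helper86.CT (DF)
open Pool.Agent.Helper86.CX (nb2 andB)
open Pool.Agent.Helper90.KMO (andB_t UU UU_pos)

/-! ### the coefficients of a product -/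

/-- the first `301` entries -/
def tv {R : Type*} [Zero R] (c : ℕ → R) (k : ℕ) : R := if k < 301 then c k else 0

theorem tv_lt {R : Type*} [Zero R] {c : ℕ → R} {k : ℕ} (h : k < 301) : tv c k = c k := if_pos h
theorem tv_ge {R : Type*} [Zero R] {c : ℕ → R} {k : ℕ} (h : ¬ k < 301) : tv c k = 0 := if_neg h

theorem Sz_tv (c : ℕ → ℤ) : Sz 301 (tv c) = Sz 301 c := Sz_congr fun _ hi => tv_lt hi

theorem tv_sp {c : ℕ → ℤ} (h : ∀ k < 301, vb k = false → c k = 0) : Sp (tv c) := by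
  intro k hk
  by_cases h1 : k < 301
  · rw [tv_lt h1, h k h1 hk]
  · exact tv_ge h1

/-- real part -/
def pr (a b a' b' : ℕ → ℤ) (k : ℕ) : ℤ := cv a a' k - cv b b' k
/-- imaginary part -/
def pi (a b a' b' : ℕ → ℤ) (k : ℕ) : ℤ := cv a b' k + cv b a' k

theorem cv_abs (a b : ℕ → ℤ) (k : ℕ) : |cv a b k| ≤ cv (fun i => |a i|) (fun i => |b i|) k := by
  unfold cv
  refine (Finset.abs_sum_le_sum_abs _ _).trans (le_of_eq (Finset.sum_congr rfl fun p _ => ?_))
  rw [abs_mul]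

theorem cv_sum_le {a b : ℕ → ℤ} (ha : ∀ i, 0 ≤ a i) (hb : ∀ i, 0 ≤ b i) (n : ℕ) :
    ∑ k ∈ range n, cv a b k ≤ (∑ i ∈ range n, a i) * (∑ i ∈ range n, b i) := by
  rw [Finset.sum_mul_sum, ← Finset.sum_product', split_sum]
  unfold cv
  have : 0 ≤ ∑ p ∈ (range n ×ˢ range n).filter (fun p => ¬ (p.1 + p.2 < n)), a p.1 * b p.2 :=
    Finset.sum_nonneg fun p _ => mul_nonneg (ha _) (hb _)
  linarith

theorem pp_le (a b a' b' : ℕ → ℤ) (k : ℕ) : |pr a b a' b' k| + |pi a b a' b' k| ≤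
    cv (fun i => |a i| + |b i|) (fun i => |a' i| + |b' i|) k := by
  have e : cv (fun i => |a i| + |b i|) (fun i => |a' i| + |b' i|) k =
      cv (fun i => |a i|) (fun i => |a' i|) k + cv (fun i => |b i|) (fun i => |b' i|) k +
      (cv (fun i => |a i|) (fun i => |b' i|) k + cv (fun i => |b i|) (fun i => |a' i|) k) := by
    unfold cv
    rw [← Finset.sum_add_distrib, ← Finset.sum_add_distrib, ← Finset.sum_add_distrib]
    exact Finset.sum_congr rfl fun p _ => by ring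
  rw [e]
  unfold pr pi
  have h1 := abs_sub (cv a a' k) (cv b b' k)
  have h2 := abs_add_le (cv a b' k) (cv b a' k)
  have h3 := cv_abs a a' k
  have h4 := cv_abs b b' k
  have h5 := cv_abs a b' k
  have h6 := cv_abs b a' k
  linarith

theorem pp_sum (a b a' b' : ℕ → ℤ) : ∑ k ∈ range 301, (|tv (pr a b a' b') k| +
    |tv (pi a b a' b') k|) ≤ (∑ i ∈ range 301, (|a i| + |b i|)) *
      (∑ i ∈ range 301, (|a' i| + |b' i|)) := by
  refine le_trans ?_ (cv_sum_le (a := fun i => |a i| + |b i|) (b := fun i => |a' i| + |b' i|)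
    (fun i => add_nonneg (abs_nonneg _) (abs_nonneg _))
    (fun i => add_nonneg (abs_nonneg _) (abs_nonneg _)) 301)
  refine Finset.sum_le_sum fun k hk => ?_
  rw [mem_range] at hk
  rw [tv_lt hk, tv_lt hk]
  exact pp_le a b a' b' k

theorem zc_cv (a b a' b' : ℕ → ℤ) (k : ℕ) : cv (zc a b) (zc a' b') k =
    zc (pr a b a' b') (pi a b a' b') k := by
  have e1 : ((pr a b a' b' k : ℤ) : ℂ) = ∑ p ∈ antidiagonal k,
      (((a p.1 : ℤ) : ℂ) * ((a' p.2 : ℤ) : ℂ) - ((b p.1 : ℤ) : ℂ) * ((b' p.2 : ℤ) : ℂ)) := by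
    unfold pr cv
    rw [Finset.sum_sub_distrib]
    push_cast
    rfl
  have e2 : ((pi a b a' b' k : ℤ) : ℂ) = ∑ p ∈ antidiagonal k,
      (((a p.1 : ℤ) : ℂ) * ((b' p.2 : ℤ) : ℂ) + ((b p.1 : ℤ) : ℂ) * ((a' p.2 : ℤ) : ℂ)) := by
    unfold pi cv
    rw [Finset.sum_add_distrib]
    push_cast
    rfl
  have e3 : zc (pr a b a' b') (pi a b a' b') k = ((pr a b a' b' k : ℤ) : ℂ) +
      ((pi a b a' b' k : ℤ) : ℂ) * Complex.I := rfl
  rw [e3, e1, e2, Finset.sum_mul, ← Finset.sum_add_distrib]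
  unfold cv
  refine Finset.sum_congr rfl fun p _ => ?_
  unfold zc
  linear_combination (((b p.1 : ℤ) : ℂ) * ((b' p.2 : ℤ) : ℂ)) * Complex.I_sq

/-! ### rounding -/

theorem rnd_abs (p : ℤ) : 2 ^ 56 * |(p + 2 ^ 55) / 2 ^ 56| ≤ |p| + 2 ^ 55 := by
  rcases abs_cases ((p + 2 ^ 55) / 2 ^ 56) with h | h <;> rcases abs_cases p with h' | h' <;> omega

theorem rnd_err (p : ℤ) : |(((p + 2 ^ 55) / 2 ^ 56 : ℤ) : ℝ) - (p : ℝ) / 2 ^ 56| ≤ 1 / 2 := by
  have h1 : 2 * (2 ^ 56 * ((p + 2 ^ 55) / 2 ^ 56) - p) ≤ 2 ^ 56 := by omega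
  have h2 : -(2 ^ 56 : ℤ) ≤ 2 * (2 ^ 56 * ((p + 2 ^ 55) / 2 ^ 56) - p) := by omega
  have h3 : (2 : ℝ) * (2 ^ 56 * (((p + 2 ^ 55) / 2 ^ 56 : ℤ) : ℝ) - (p : ℝ)) ≤ 2 ^ 56 := by
    exact_mod_cast h1
  have h4 : -(2 ^ 56 : ℝ) ≤ 2 * (2 ^ 56 * (((p + 2 ^ 55) / 2 ^ 56 : ℤ) : ℝ) - (p : ℝ)) := by
    exact_mod_cast h2
  rw [abs_le]
  constructor
  · rw [← sub_nonneg] at h4 ⊢
    have : (((p + 2 ^ 55) / 2 ^ 56 : ℤ) : ℝ) - (p : ℝ) / 2 ^ 56 - -(1 / 2) =
      (2 * (2 ^ 56 * (((p + 2 ^ 55) / 2 ^ 56 : ℤ) : ℝ) - (p : ℝ)) - -(2 ^ 56)) / 2 ^ 57 := by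
      ring
    rw [this]
    positivity
  · rw [← sub_nonneg] at h3 ⊢
    have : 1 / 2 - ((((p + 2 ^ 55) / 2 ^ 56 : ℤ) : ℝ) - (p : ℝ) / 2 ^ 56) =
      (2 ^ 56 - 2 * (2 ^ 56 * (((p + 2 ^ 55) / 2 ^ 56 : ℤ) : ℝ) - (p : ℝ))) / 2 ^ 57 := by
      ring
    rw [this]
    positivity

/-- the rounded coefficients -/
def rn (c : ℕ → ℤ) (i : ℕ) : ℤ := bif vb i then (c i + 2 ^ 55) / 2 ^ 56 else 0

theorem rn_sum {p q : ℕ → ℤ} (h : ∑ i ∈ range 301, (|p i| + |q i|) ≤ 2 ^ 130) :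
    ∑ i ∈ range 301, (|rn p i| + |rn q i|) < 2 ^ 76 := by
  have h1 : ∀ c : ℕ → ℤ, ∀ i, 2 ^ 56 * |rn c i| ≤ |c i| + 2 ^ 55 := by
    intro c i
    unfold rn
    cases vb i
    · rw [cond_false, abs_zero]
      have := abs_nonneg (c i)
      omega
    · rw [cond_true]
      exact rnd_abs (c i)
  have h2 : 2 ^ 56 * ∑ i ∈ range 301, (|rn p i| + |rn q i|) ≤
      ∑ i ∈ range 301, ((|p i| + |q i|) + 2 ^ 56) := by
    rw [Finset.mul_sum]
    refine Finset.sum_le_sum fun i _ => ?_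
    have := h1 p i
    have := h1 q i
    omega
  have h3 : ∑ i ∈ range 301, ((|p i| + |q i|) + 2 ^ 56) =
      ∑ i ∈ range 301, (|p i| + |q i|) + 301 * 2 ^ 56 := by
    rw [Finset.sum_add_distrib (f := fun i => |p i| + |q i|), Finset.sum_const, card_range]
    norm_num
  rw [h3] at h2
  omega

/-- the error of the rounding of the polynomial -/
theorem rn_ev {s : ℕ → ℝ} (hs : SB s) {p q : ℕ → ℤ} (hp : Sp p) (hq : Sp q) :
    ‖Ev s (zc (rn p) (rn q)) - Ev s (zc p q) / 2 ^ 56‖ ≤ 301 := by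
  have e : Ev s (zc (rn p) (rn q)) - Ev s (zc p q) / 2 ^ 56 =
      Ev s (fun i => zc (rn p) (rn q) i - zc p q i / 2 ^ 56) := by
    rw [Ev_sub]
    congr 1
    unfold Ev
    rw [Finset.sum_div]
    exact Finset.sum_congr rfl fun i _ => by ring
  rw [e]
  refine (Ev_norm hs _).trans ?_
  have h1 : ∀ i ∈ range 301, ‖zc (rn p) (rn q) i - zc p q i / 2 ^ 56‖ ≤ 1 := by
    intro i _
    have key : ∀ c : ℕ → ℤ, Sp c → |((rn c i : ℤ) : ℝ) - (c i : ℝ) / 2 ^ 56| ≤ 1 / 2 := by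
      intro c hc
      unfold rn
      cases hv : vb i
      · rw [cond_false, hc i hv]
        norm_num
      · rw [cond_true]
        exact rnd_err (c i)
    refine (Complex.norm_le_abs_re_add_abs_im _).trans ?_
    have k1 := key p hp
    have k2 := key q hq
    have e1 : (zc (rn p) (rn q) i - zc p q i / 2 ^ 56).re =
        ((rn p i : ℤ) : ℝ) - (p i : ℝ) / 2 ^ 56 := by
      rw [Complex.sub_re, zc_re]
      congr 1
      have : (2 : ℂ) ^ 56 = ((2 ^ 56 : ℝ) : ℂ) := by push_cast; rfl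
      rw [this, Complex.div_ofReal_re, zc_re]
    have e2 : (zc (rn p) (rn q) i - zc p q i / 2 ^ 56).im =
        ((rn q i : ℤ) : ℝ) - (q i : ℝ) / 2 ^ 56 := by
      rw [Complex.sub_im, zc_im]
      congr 1
      have : (2 : ℂ) ^ 56 = ((2 ^ 56 : ℝ) : ℂ) := by push_cast; rfl
      rw [this, Complex.div_ofReal_im, zc_im]
    rw [e1, e2]
    linarith
  refine (Finset.sum_le_sum h1).trans ?_
  rw [Finset.sum_const, card_range]
  norm_num

/-! ### the product -/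

theorem md_add (a n c : ℤ) : a + n * c ≡ a [ZMOD n] := Int.add_mul_emod_self_left a n c

theorem cBB_eq : cBB = 2 ^ (160 * 301) * 2 ^ (160 * 301) := by
  have h2 : Nat.shiftLeft 1 96320 = 2 ^ (160 * 301) * 2 ^ (160 * 301) := by
    have h := Nat.shiftLeft_eq 1 (160 * 301 + 160 * 301)
    rw [one_mul, pow_add] at h
    exact h
  exact h2

/-- the real part -/
theorem pr_md {x x' y y' : ℕ} {a a' b b' : ℕ → ℤ} (ha : Rp x a) (ha' : Rp x' a') (hb : Rp y b)
    (hb' : Rp y' b') : ((Nat.add (Nat.mul x x') (Nat.sub cBB (Nat.mul y y')) : ℕ) : ℤ) ≡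
      Sz 301 (tv (pr a b a' b')) [ZMOD 2 ^ (160 * 301)] := by
  have h1 : y * y' ≤ cBB := by
    rw [cBB_eq]
    exact Nat.mul_le_mul hb.lt.le hb'.lt.le
  have e : ((Nat.add (Nat.mul x x') (Nat.sub cBB (Nat.mul y y')) : ℕ) : ℤ) =
      ((x : ℤ) * x' - y * y') + 2 ^ (160 * 301) * 2 ^ (160 * 301) := by
    show ((x * x' + (cBB - y * y') : ℕ) : ℤ) = _
    rw [Nat.cast_add, Nat.cast_sub h1, cBB_eq]
    push_cast
    ring
  rw [e, Sz_tv]
  have h2 : ((x : ℤ) * x' - y * y') + 2 ^ (160 * 301) * 2 ^ (160 * 301) ≡ (x : ℤ) * x' - y * y'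
      [ZMOD 2 ^ (160 * 301)] := md_add _ _ _
  refine h2.trans ?_
  obtain ⟨T1, e1⟩ := Sz_mul 301 a a'
  obtain ⟨T2, e2⟩ := Sz_mul 301 b b'
  have h3 := (ha.md.mul ha'.md).sub (hb.md.mul hb'.md)
  refine h3.trans ?_
  have e3 : Sz 301 (pr a b a' b') = Sz 301 (cv a a') - Sz 301 (cv b b') := Sz_sub _ _ _
  rw [e1, e2, e3]
  have e4 : Sz 301 (cv a a') + 2 ^ (160 * 301) * T1 - (Sz 301 (cv b b') + 2 ^ (160 * 301) * T2) =
      (Sz 301 (cv a a') - Sz 301 (cv b b')) + 2 ^ (160 * 301) * (T1 - T2) := by ring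
  rw [e4]
  exact md_add _ _ _

/-- the imaginary part -/
theorem pi_md {x x' y y' : ℕ} {a a' b b' : ℕ → ℤ} (ha : Rp x a) (ha' : Rp x' a') (hb : Rp y b)
    (hb' : Rp y' b') : ((Nat.sub (Nat.mul (Nat.add x y) (Nat.add x' y'))
      (Nat.add (Nat.mul x x') (Nat.mul y y')) : ℕ) : ℤ) ≡
      Sz 301 (tv (pi a b a' b')) [ZMOD 2 ^ (160 * 301)] := by
  have e0 : Nat.sub (Nat.mul (Nat.add x y) (Nat.add x' y'))
      (Nat.add (Nat.mul x x') (Nat.mul y y')) = x * y' + y * x' := by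
    show (x + y) * (x' + y') - (x * x' + y * y') = _
    have : (x + y) * (x' + y') = (x * y' + y * x') + (x * x' + y * y') := by ring
    rw [this, Nat.add_sub_cancel]
  rw [e0, Sz_tv]
  push_cast
  obtain ⟨T1, e1⟩ := Sz_mul 301 a b'
  obtain ⟨T2, e2⟩ := Sz_mul 301 b a'
  have h3 := (ha.md.mul hb'.md).add (hb.md.mul ha'.md)
  refine h3.trans ?_
  have e3 : Sz 301 (pi a b a' b') = Sz 301 (cv a b') + Sz 301 (cv b a') := Sz_add _ _ _
  rw [e1, e2, e3]
  have e4 : Sz 301 (cv a b') + 2 ^ (160 * 301) * T1 + (Sz 301 (cv b a') + 2 ^ (160 * 301) * T2) =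
      (Sz 301 (cv a b') + Sz 301 (cv b a')) + 2 ^ (160 * 301) * (T1 + T2) := by ring
  rw [e4]
  exact md_add _ _ _

theorem pr_sp {a a' b b' : ℕ → ℤ} (ha : Sp a) (ha' : Sp a') (hb : Sp b) (hb' : Sp b') :
    Sp (tv (pr a b a' b')) := tv_sp fun k hk h => by
  unfold pr
  rw [cv_sp ha ha' hk h, cv_sp hb hb' hk h]
  rfl
theorem pi_sp {a a' b b' : ℕ → ℤ} (ha : Sp a) (ha' : Sp a') (hb : Sp b) (hb' : Sp b') :
    Sp (tv (pi a b a' b')) := tv_sp fun k hk h => by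
  unfold pi
  rw [cv_sp ha hb' hk h, cv_sp hb ha' hk h]
  rfl

/-- each coefficient -/
theorem one_le {p q : ℕ → ℤ} (hp : Sp p) (hq : Sp q)
    (h : ∑ i ∈ range 301, (|p i| + |q i|) ≤ 2 ^ 130) (i : ℕ) :
    |p i| ≤ 2 ^ 157 ∧ |q i| ≤ 2 ^ 157 := by
  cases hv : vb i
  · rw [hp i hv, hq i hv]
    norm_num
  · have hi : i < 301 := ((vb_iff i).1 hv).1
    have h1 := Finset.single_le_sum (f := fun i => |p i| + |q i|)
      (fun j _ => add_nonneg (abs_nonneg (p j)) (abs_nonneg (q j))) (mem_range.2 hi)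
    have h2 : |p i| + |q i| ≤ 2 ^ 130 := h1.trans h
    have h3 := abs_nonneg (p i)
    have h4 := abs_nonneg (q i)
    constructor <;> omega

/-- THE PRODUCT: validity and coefficients -/
theorem mulT_ok {x y : TP} (hx : VLT x) (hy : VLT y) : VLT (mulT x y) ∧
    ((mulT x y).g = true → x.g = true ∧ y.g = true ∧
      Sp (tv (pr (dcf x.re) (dcf x.im) (dcf y.re) (dcf y.im))) ∧
      Sp (tv (pi (dcf x.re) (dcf x.im) (dcf y.re) (dcf y.im))) ∧
      zT (mulT x y) = zc (rn (tv (pr (dcf x.re) (dcf x.im) (dcf y.re) (dcf y.im))))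
        (rn (tv (pi (dcf x.re) (dcf x.im) (dcf y.re) (dcf y.im))))) := by
  set p := tv (pr (dcf x.re) (dcf x.im) (dcf y.re) (dcf y.im)) with hp
  set q := tv (pi (dcf x.re) (dcf x.im) (dcf y.re) (dcf y.im)) with hq
  have H : andB (andB x.g y.g) (Nat.ble (Nat.mul x.m y.m)
      (nat_lit 1361129467683753853853498429727072845824)) = true →
      Rp (roR (Nat.add (Nat.mul x.re y.re) (Nat.sub cBB (Nat.mul x.im y.im)))) (rn p) ∧
      Rp (roR (Nat.sub (Nat.mul (Nat.add x.re x.im) (Nat.add y.re y.im))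
        (Nat.add (Nat.mul x.re y.re) (Nat.mul x.im y.im)))) (rn q) ∧
      ∑ i ∈ range 301, (|rn p i| + |rn q i|) < 2 ^ 76 := by
    intro h
    obtain ⟨h1, h2⟩ := andB_t h
    obtain ⟨h3, h4⟩ := andB_t h1
    have k1 := hx.ok h3
    have k2 := hy.ok h4
    have h5 : x.m * y.m ≤ 1361129467683753853853498429727072845824 := Nat.le_of_ble_eq_true h2
    have h6 : ∑ i ∈ range 301, (|p i| + |q i|) ≤ 2 ^ 130 := by
      refine (pp_sum _ _ _ _).trans ?_
      have h7 := mul_le_mul k1.sm k2.sm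
        (Finset.sum_nonneg fun i _ => add_nonneg (abs_nonneg _) (abs_nonneg _)) (by positivity)
      refine h7.trans ?_
      have h8 : ((x.m * y.m : ℕ) : ℤ) ≤ 1361129467683753853853498429727072845824 := by
        exact_mod_cast h5
      have h9 : (1361129467683753853853498429727072845824 : ℤ) = 2 ^ 130 := by norm_num
      rw [← h9]
      push_cast at h8
      exact h8
    have sp := pr_sp k1.re.sp k2.re.sp k1.im.sp k2.im.sp
    have sq := pi_sp k1.re.sp k2.re.sp k1.im.sp k2.im.sp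
    have hl := one_le sp sq h6
    exact ⟨roR_ok (pr_md k1.re k2.re k1.im k2.im) sp fun i => (hl i).1,
      roR_ok (pi_md k1.re k2.re k1.im k2.im) sq fun i => (hl i).2, rn_sum h6⟩
  obtain ⟨h1, h2⟩ := mkB_ok (h := Nat.add x.n y.n) H
  refine ⟨h1, fun hg => ?_⟩
  have hg' : andB (andB x.g y.g) (Nat.ble (Nat.mul x.m y.m)
      (nat_lit 1361129467683753853853498429727072845824)) = true := hg
  obtain ⟨h5, -⟩ := andB_t hg'
  obtain ⟨h3, h4⟩ := andB_t h5
  have k1 := hx.ok h3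
  have k2 := hy.ok h4
  exact ⟨h3, h4, pr_sp k1.re.sp k2.re.sp k1.im.sp k2.im.sp,
    pi_sp k1.re.sp k2.re.sp k1.im.sp k2.im.sp, h2 hg'⟩

/-- the error of lists -/
theorem erz_cons {D F E G : ℝ} (l l' : List (ℝ × ℝ)) (h1 : D + F ≠ 0) (h2 : E + G ≠ 0) :
    erz ((D, F) :: l) ((E, G) :: l') = (D * G + F * E) / 10 + F * G / 4 + 2 * erz l l' := by
  conv_lhs => unfold erz
  rw [if_neg h2, if_neg h1]

theorem erz_one {D F E G : ℝ} (hD : 0 ≤ D) (hF : 0 ≤ F) (hE : 0 ≤ E) (hG : 0 ≤ G) :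
    (D * G + F * E) / 10 + F * G / 4 ≤ erz [(D, F)] [(E, G)] := by
  by_cases h2 : E + G = 0
  · have e1 : E = 0 := by linarith
    have e2 : G = 0 := by linarith
    unfold erz
    rw [if_pos h2, e1, e2]
    unfold erz
    simp
  · by_cases h1 : D + F = 0
    · have e1 : D = 0 := by linarith
      have e2 : F = 0 := by linarith
      unfold erz
      rw [if_neg h2, if_pos h1, e1, e2]
      unfold erz
      simp
    · rw [erz_cons _ _ h1 h2]
      unfold erz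
      simp

theorem erz_two {D F E G : ℝ} {l l' : List (ℝ × ℝ)} (hD : 0 ≤ D) (hF : 0 ≤ F) (hE : 0 ≤ E)
    (hG : 0 ≤ G) (hl : 0 ≤ erz l l') :
    (D * G + F * E) / 10 + F * G / 4 ≤ erz ((D, F) :: l) ((E, G) :: l') := by
  by_cases h2 : E + G = 0
  · have e1 : E = 0 := by linarith
    have e2 : G = 0 := by linarith
    conv_rhs => unfold erz
    rw [if_pos h2, e1, e2]
    simpa using hl
  · by_cases h1 : D + F = 0
    · have e1 : D = 0 := by linarith
      have e2 : F = 0 := by linarith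
      conv_rhs => unfold erz
      rw [if_neg h2, if_pos h1, e1, e2]
      simpa using hl
    · rw [erz_cons _ _ h1 h2]
      linarith

/-- the lists bound the dropped part -/
theorem hb_le {x y : TP} {l l' : List (ℝ × ℝ)} (hx : LVT x l) (hy : LVT y l') :
    hb (Nd x) (Nd y) ≤ erz l l' := by
  obtain ⟨D1, F1, D2, F2, D3, F3, rfl, a1, a2, a3, a4, a5, a6, a7, a8⟩ := hx
  obtain ⟨E1, G1, E2, G2, E3, G3, rfl, b1, b2, b3, b4, b5, b6, b7, b8⟩ := hy
  have n := fun d => Nd_nn x d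
  have m := fun d => Nd_nn y d
  have n1 := n 1
  have n2 := n 2
  have n3 := n 3
  have n4 := n 4
  have n5 := n 5
  have n6 := n 6
  have m1 := m 1
  have m2 := m 2
  have m3 := m 3
  have m4 := m 4
  have m5 := m 5
  have m6 := m 6
  unfold hb
  generalize Nd x 1 = A1 at *
  generalize Nd x 2 = A2 at *
  generalize Nd x 3 = A3 at *
  generalize Nd x 4 = A4 at *
  generalize Nd x 5 = A5 at *
  generalize Nd x 6 = A6 at *
  generalize Nd y 1 = B1 at *
  generalize Nd y 2 = B2 at *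
  generalize Nd y 3 = B3 at *
  generalize Nd y 4 = B4 at *
  generalize Nd y 5 = B5 at *
  generalize Nd y 6 = B6 at *
  clear n m
  have z1 : D1 + F1 ≠ 0 := by
    have : 0 < D1 + F1 := by linarith
    exact this.ne'
  have z2 : E1 + G1 ≠ 0 := by
    have : 0 < E1 + G1 := by linarith
    exact this.ne'
  rw [erz_cons _ _ z1 z2]
  have p1 : A1 * B6 ≤ D1 * G1 / 10 := by
    have := mul_le_mul a2 b3 m6 (by linarith)
    linarith
  have p2 : A6 * B1 ≤ F1 * E1 / 10 := by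
    have := mul_le_mul a3 b2 (by linarith) (by linarith : 0 ≤ F1)
    linarith
  have p3 : 0 ≤ F1 * G1 := mul_nonneg (by linarith) (by linarith)
  have q1 : A2 * (B5 + B6) ≤ D2 * G2 / 5 := by
    have := mul_le_mul a4 b5 (by linarith) (by linarith : 0 ≤ D2)
    linarith
  have q2 : (A5 + A6) * B2 ≤ F2 * E2 / 5 := by
    have := mul_le_mul a5 b4 (by linarith) (by linarith : 0 ≤ F2)
    linarith
  have q3 : 0 ≤ F2 * G2 := mul_nonneg (by linarith) (by linarith)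
  have r1 : A3 * (B4 + B5 + B6) ≤ 2 * (D3 * G3) / 5 := by
    have := mul_le_mul a6 b7 (by linarith) (by linarith : 0 ≤ D3)
    linarith
  have r2 : (A4 + A5 + A6) * B3 ≤ 2 * (F3 * E3) / 5 := by
    have := mul_le_mul a7 b6 (by linarith) (by linarith : 0 ≤ F3)
    linarith
  have r3 : (A4 + A5 + A6) * (B4 + B5 + B6) ≤ F3 * G3 :=
    mul_le_mul a7 b7 (by linarith) (by linarith)
  have hD2 : 0 ≤ D2 := by linarith
  have hF2 : 0 ≤ F2 := by linarith
  have hE2 : 0 ≤ E2 := by linarith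
  have hG2 : 0 ≤ G2 := by linarith
  have hD3 : 0 ≤ D3 := by linarith
  have hF3 : 0 ≤ F3 := by linarith
  have hE3 : 0 ≤ E3 := by linarith
  have hG3 : 0 ≤ G3 := by linarith
  have k3 := erz_one hD3 hF3 hE3 hG3
  have k0 : 0 ≤ erz [(D3, F3)] [(E3, G3)] := by
    refine le_trans ?_ k3
    positivity
  have e : A1 * B6 + A2 * (B5 + B6) + A3 * (B4 + B5 + B6) + A4 * (B3 + B4 + B5 + B6) +
      A5 * (B2 + B3 + B4 + B5 + B6) + A6 * (B1 + B2 + B3 + B4 + B5 + B6) =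
      A1 * B6 + A6 * B1 + A2 * (B5 + B6) + (A5 + A6) * B2 + A3 * (B4 + B5 + B6) +
      (A4 + A5 + A6) * B3 + (A4 + A5 + A6) * (B4 + B5 + B6) := by ring
  rcases a8 with a8 | a8
  · rcases b8 with b8 | b8
    · have z3 : D2 + F2 ≠ 0 := by
        have : 0 < D2 + F2 := by linarith
        exact this.ne'
      have z4 : E2 + G2 ≠ 0 := by
        have : 0 < E2 + G2 := by linarith
        exact this.ne'
      rw [erz_cons _ _ z3 z4, e]
      linarith
    · have c3 : B3 = 0 := by linarith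
      have c4 : B4 = 0 := by linarith
      have c5 : B5 = 0 := by linarith
      have c6 : B6 = 0 := by linarith
      have k2 := erz_two hD2 hF2 hE2 hG2 k0
      rw [e, c3, c4, c5, c6]
      rw [c6] at p1
      rw [c5, c6] at q1
      linarith
  · have c3 : A3 = 0 := by linarith
    have c4 : A4 = 0 := by linarith
    have c5 : A5 = 0 := by linarith
    have c6 : A6 = 0 := by linarith
    have k2 := erz_two hD2 hF2 hE2 hG2 k0
    rw [e, c3, c4, c5, c6]
    rw [c6] at p2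
    rw [c5, c6] at q2
    linarith

theorem hb_scale (A B : ℕ → ℝ) (c : ℝ) : hb (fun d => c * A d) (fun d => c * B d) =
    c ^ 2 * hb A B := by
  unfold hb
  ring

/-- THE LAW OF THE PRODUCT -/
theorem mulT_ev {x y : TP} (hx : VLT x) (hy : VLT y) (hg : (mulT x y).g = true) {t : ℕ → ℝ}
    (hs : SB (tS t)) {l l' : List (ℝ × ℝ)} (hl : LVT x l) (hl' : LVT y l') :
    ‖evT (mulT x y) t - evT x t * evT y t / UU‖ ≤ 2 + erz l l' / UU := by
  have hU := UU_pos
  obtain ⟨g1, g2, sp, sq, hz⟩ := (mulT_ok hx hy).2 hg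
  have k1 := hx.ok g1
  have k2 := hy.ok g2
  set p := tv (pr (dcf x.re) (dcf x.im) (dcf y.re) (dcf y.im)) with hp
  set q := tv (pi (dcf x.re) (dcf x.im) (dcf y.re) (dcf y.im)) with hq
  set s := tS t with hs'
  have hsx : Sp (zT x) := by
    intro i hi
    show ((dcf x.re i : ℤ) : ℂ) + ((dcf x.im i : ℤ) : ℂ) * Complex.I = 0
    rw [k1.re.sp i hi, k1.im.sp i hi]
    simp
  have hsy : Sp (zT y) := by
    intro i hi
    show ((dcf y.re i : ℤ) : ℂ) + ((dcf y.im i : ℤ) : ℂ) * Complex.I = 0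
    rw [k2.re.sp i hi, k2.im.sp i hi]
    simp
  have e1 := Ev_mul (s := s) hsx hsy
  have e2 : Ev s (cv (zT x) (zT y)) = Ev s (zc p q) := by
    unfold Ev
    refine Finset.sum_congr rfl fun i hi => ?_
    rw [mem_range] at hi
    congr 1
    rw [zT_zc, zT_zc, zc_cv]
    show ((_ : ℤ) : ℂ) + _ = ((_ : ℤ) : ℂ) + _
    rw [hp, hq, tv_lt hi, tv_lt hi]
  have e3 := rn_ev hs sp sq
  have e4 := Hd_le hs hsx hsy
  have e5 : hb (Nh (zT x)) (Nh (zT y)) = 256 ^ 2 * hb (Nd x) (Nd y) := by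
    rw [← hb_scale]
    congr 1
    · funext d
      unfold Nd
      ring
    · funext d
      unfold Nd
      ring
  have e6 := hb_le hl hl'
  have hUU : (UU : ℂ) = 2 ^ 48 := by
    unfold UU
    norm_num
  have e7 : evT (mulT x y) t - evT x t * evT y t / UU =
      (Ev s (zc (rn p) (rn q)) - Ev s (zc p q) / 2 ^ 56) / 256 -
        Hd s (zT x) (zT y) / (256 ^ 2 * UU) := by
    unfold evT
    rw [hz, ← hs']
    have e8 : Ev s (zT x) * Ev s (zT y) = Ev s (zc p q) + Hd s (zT x) (zT y) := by rw [e1, e2]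
    have e9 : Ev s (zT x) / 256 * (Ev s (zT y) / 256) / (UU : ℂ) =
        (Ev s (zT x) * Ev s (zT y)) / (256 ^ 2 * UU) := by
      field_simp
    rw [e9, e8, hUU]
    ring
  rw [e7]
  refine (norm_sub_le _ _).trans (add_le_add ?_ ?_)
  · rw [norm_div]
    have : ‖(256 : ℂ)‖ = 256 := by norm_num
    rw [this]
    linarith
  · rw [norm_div]
    have h1 : ‖(256 ^ 2 * (UU : ℂ))‖ = 256 ^ 2 * UU := by
      rw [norm_mul, norm_pow, Complex.norm_real, Real.norm_eq_abs, abs_of_pos hU]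
      norm_num
    rw [h1, div_le_div_iff₀ (by positivity) hU]
    have h2 : ‖Hd s (zT x) (zT y)‖ ≤ 256 ^ 2 * erz l l' := by
      refine e4.trans ?_
      rw [e5]
      linarith
    have h3 := mul_le_mul_of_nonneg_right h2 hU.le
    linarith

/-! ### quarters -/

/-- the rounded quarters -/
def r4 (c : ℕ → ℤ) (i : ℕ) : ℤ := bif vb i then (c i + 2) / 4 else 0

theorem r4_abs (p : ℤ) : 4 * |(p + 2) / 4| ≤ |p| + 2 := by
  rcases abs_cases ((p + 2) / 4) with h | h <;> rcases abs_cases p with h' | h' <;> omega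

theorem r4_err (p : ℤ) : |(((p + 2) / 4 : ℤ) : ℝ) - (p : ℝ) / 4| ≤ 1 / 2 := by
  have h1 : 4 * ((p + 2) / 4) - p ≤ 2 := by omega
  have h2 : -2 ≤ 4 * ((p + 2) / 4) - p := by omega
  have h3 : (4 : ℝ) * (((p + 2) / 4 : ℤ) : ℝ) - (p : ℝ) ≤ 2 := by exact_mod_cast h1
  have h4 : -(2 : ℝ) ≤ 4 * (((p + 2) / 4 : ℤ) : ℝ) - (p : ℝ) := by exact_mod_cast h2
  rw [abs_le]
  constructor <;> linarith

theorem r4_sum {p q : ℕ → ℤ} {m : ℕ} (h : ∑ i ∈ range 301, (|p i| + |q i|) ≤ (m : ℤ))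
    (hm : m < 2 ^ 76) : ∑ i ∈ range 301, (|r4 p i| + |r4 q i|) < 2 ^ 76 := by
  have h1 : ∀ c : ℕ → ℤ, ∀ i, 4 * |r4 c i| ≤ |c i| + 2 := by
    intro c i
    unfold r4
    cases vb i
    · rw [cond_false, abs_zero]
      have := abs_nonneg (c i)
      omega
    · rw [cond_true]
      exact r4_abs (c i)
  have h2 : 4 * ∑ i ∈ range 301, (|r4 p i| + |r4 q i|) ≤
      ∑ i ∈ range 301, ((|p i| + |q i|) + 4) := by
    rw [Finset.mul_sum]
    refine Finset.sum_le_sum fun i _ => ?_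
    have := h1 p i
    have := h1 q i
    omega
  have h3 : ∑ i ∈ range 301, ((|p i| + |q i|) + 4) =
      ∑ i ∈ range 301, (|p i| + |q i|) + 301 * 4 := by
    rw [Finset.sum_add_distrib (f := fun i => |p i| + |q i|), Finset.sum_const, card_range]
    norm_num
  rw [h3] at h2
  have h4 : (m : ℤ) < 2 ^ 76 := by exact_mod_cast hm
  omega

theorem r4_ev {s : ℕ → ℝ} (hs : SB s) {p q : ℕ → ℤ} (hp : Sp p) (hq : Sp q) :
    ‖Ev s (zc (r4 p) (r4 q)) - Ev s (zc p q) / 4‖ ≤ 301 := by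
  have e : Ev s (zc (r4 p) (r4 q)) - Ev s (zc p q) / 4 =
      Ev s (fun i => zc (r4 p) (r4 q) i - zc p q i / 4) := by
    rw [Ev_sub]
    congr 1
    unfold Ev
    rw [Finset.sum_div]
    exact Finset.sum_congr rfl fun i _ => by ring
  rw [e]
  refine (Ev_norm hs _).trans ?_
  have h1 : ∀ i ∈ range 301, ‖zc (r4 p) (r4 q) i - zc p q i / 4‖ ≤ 1 := by
    intro i _
    have key : ∀ c : ℕ → ℤ, Sp c → |((r4 c i : ℤ) : ℝ) - (c i : ℝ) / 4| ≤ 1 / 2 := by
      intro c hc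
      unfold r4
      cases hv : vb i
      · rw [cond_false, hc i hv]
        norm_num
      · rw [cond_true]
        exact r4_err (c i)
    refine (Complex.norm_le_abs_re_add_abs_im _).trans ?_
    have k1 := key p hp
    have k2 := key q hq
    have e1 : (zc (r4 p) (r4 q) i - zc p q i / 4).re = ((r4 p i : ℤ) : ℝ) - (p i : ℝ) / 4 := by
      rw [Complex.sub_re, zc_re]
      congr 1
      have : (4 : ℂ) = ((4 : ℝ) : ℂ) := by push_cast; rfl
      rw [this, Complex.div_ofReal_re, zc_re]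
    have e2 : (zc (r4 p) (r4 q) i - zc p q i / 4).im = ((r4 q i : ℤ) : ℝ) - (q i : ℝ) / 4 := by
      rw [Complex.sub_im, zc_im]
      congr 1
      have : (4 : ℂ) = ((4 : ℝ) : ℂ) := by push_cast; rfl
      rw [this, Complex.div_ofReal_im, zc_im]
    rw [e1, e2]
    linarith
  refine (Finset.sum_le_sum h1).trans ?_
  rw [Finset.sum_const, card_range]
  norm_num

theorem mkB_g (g : Bool) (h re im : ℕ) : (mkB2 g h re im).g = g := rfl

theorem q4_aux {g : Bool} {n re im : ℕ} {a b : ℕ → ℤ} (H : g = true → Rp re a ∧ Rp im b ∧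
    ∑ i ∈ range 301, (|a i| + |b i|) < 2 ^ 76) : VLT (mkB2 g n re im) ∧
    ((mkB2 g n re im).g = true → g = true ∧ zT (mkB2 g n re im) = zc a b) := by
  obtain ⟨h1, h2⟩ := mkB_ok (h := n) H
  refine ⟨h1, fun hg => ?_⟩
  rw [mkB_g] at hg
  exact ⟨hg, h2 hg⟩

theorem q4T_ok {x : TP} (hx : VLT x) : VLT (q4T x) ∧ ((q4T x).g = true → x.g = true ∧
    zT (q4T x) = zc (r4 (dcf x.re)) (r4 (dcf x.im))) := by
  have h0 : (2 : ℤ) ^ 76 ≤ 2 ^ 157 := by norm_num
  have H : x.g = true → Rp (q4R x.re) (r4 (dcf x.re)) ∧ Rp (q4R x.im) (r4 (dcf x.im)) ∧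
      ∑ i ∈ range 301, (|r4 (dcf x.re) i| + |r4 (dcf x.im) i|) < 2 ^ 76 := by
    intro h
    have k := hx.ok h
    have hl := abs_lt_of k.re.sp k.im.sp k.sm k.m
    have q1 := q4R_ok k.re.md k.re.sp fun i => ((hl i).1.le).trans h0
    have q2 := q4R_ok k.im.md k.im.sp fun i => ((hl i).2.le).trans h0
    exact ⟨q1, q2, r4_sum k.sm k.m⟩
  exact q4_aux H

theorem q4T_ev {x : TP} (hx : VLT x) (hg : (q4T x).g = true) {t : ℕ → ℝ} (hs : SB (tS t)) :
    ‖evT (q4T x) t - evT x t / 4‖ ≤ 3 / 2 := by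
  obtain ⟨g, hz⟩ := (q4T_ok hx).2 hg
  have k := hx.ok g
  have h := r4_ev hs k.re.sp k.im.sp
  have e : evT (q4T x) t - evT x t / 4 = (Ev (tS t) (zc (r4 (dcf x.re)) (r4 (dcf x.im))) -
      Ev (tS t) (zc (dcf x.re) (dcf x.im)) / 4) / 256 := by
    unfold evT
    rw [hz, zT_zc]
    ring
  rw [e, norm_div]
  have : ‖(256 : ℂ)‖ = 256 := by norm_num
  rw [this]
  linarith

end Pool.Agent.Helper91.TM
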