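import Pool.Agent.Helper91.TM.H

/-!
Taylor model machine (MP_c75db0, star frame): the roundings (proof of helper60).
-/

set_option autoImplicit false
set_option exponentiation.threshold 100000
noncomputable section
namespace Pool.Agent.Helper91.TM

open Finset

theorem shl_301 : Nat.shiftLeft 1 48160 = 2 ^ (160 * 301) := by
  have := Nat.shiftLeft_eq 1 48160
  rw [one_mul] at this
  exact this

theorem off_of {c k : Nat} (h : Nat.beq (Nat.add c (SmF (fo k) (nat_lit 301)))
    (Nat.shiftLeft (nat_lit 1) (nat_lit 48160)) = true) :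
    c + Sm 301 (fun i => fo k (vb i)) = 2 ^ (160 * 301) := by
  have h1 := Nat.eq_of_beq_eq_true h
  rw [SmF_eq] at h1
  exact h1.trans shl_301

/-- A ROUNDING: `s` bits are dropped, `r` is added before -/
theorem round_ok {N cO cK cC s O K C : ℕ} {r : ℤ} {c : ℕ → ℤ} (hs : s ≤ 157)
    (eO : cO = Sm 301 (fun i => fo O (vb i))) (eK : cK = Sm 301 (fun i => fo K (vb i)))
    (eC : cC + Sm 301 (fun i => fo C (vb i)) = 2 ^ (160 * 301)) (hO : (O : ℤ) = 2 ^ 159 + r)
    (hr : 0 ≤ r) (hr' : r ≤ 2 ^ 157) (hK : K = 2 ^ (160 - s) - 1) (hC : C = 2 ^ (159 - s))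
    (h : (N : ℤ) ≡ Sz 301 c [ZMOD 2 ^ (160 * 301)]) (hsp : Sp c) (hc : ∀ i, |c i| ≤ 2 ^ 157) :
    Rp (Nat.land (Nat.add (Nat.land (Nat.shiftRight (Nat.add N cO) s) cK) cC) cMA)
      (fun i => bif vb i then (c i + r) / 2 ^ s else 0) := by
  set d : ℕ → ℕ := fun i => (c i + (fo O (vb i) : ℤ)).toNat with hd
  have dt : ∀ {i}, vb i = true → ((d i : ℕ) : ℤ) = c i + (2 ^ 159 + r) ∧ d i < 2 ^ 160 := by
    intro i hv
    have h1 := abs_le.1 (hc i)
    have e : d i = (c i + (2 ^ 159 + r)).toNat := by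
      show (c i + (fo O (vb i) : ℤ)).toNat = _
      rw [hv, fo_t, hO]
    rw [e]
    constructor
    · rw [Int.toNat_of_nonneg (by omega)]
    · omega
  have df : ∀ {i}, vb i = false → d i = 0 := by
    intro i hv
    show (c i + (fo O (vb i) : ℤ)).toNat = 0
    rw [hv, fo_f, hsp i hv]
    rfl
  have hd160 : ∀ i < 301, d i < 2 ^ 160 := by
    intro i _
    cases hv : vb i
    · rw [df hv]
      positivity
    · exact (dt hv).2
  have ho : ∀ i < 301, c i + ((fo O (vb i) : ℕ) : ℤ) = ((d i : ℕ) : ℤ) := by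
    intro i _
    cases hv : vb i
    · rw [df hv, fo_f, hsp i hv]
      rfl
    · rw [(dt hv).1, fo_t, hO]
  obtain ⟨T, hT⟩ := Sm_of (n := 301) (N := N) (c := c) (o := fun i => fo O (vb i)) h hd160 ho
  rw [← eO] at hT
  -- the shift and the mask
  set m : ℕ → ℕ := fun i => fo K (vb i) with hm
  have hm' : ∀ i < 301, m i < 2 ^ (160 - s) := by
    intro i _
    have hp : 0 < 2 ^ (160 - s) := by positivity
    show fo K (vb i) < _
    cases vb i
    · rw [fo_f]
      exact hp
    · rw [fo_t, hK]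
      omega
  have e1 : Nat.land (Nat.shiftRight (Nat.add N cO) s) cK = Sm 301 (fun i => (d i / 2 ^ s) &&& m i) := by
    have e2 : Nat.land (Nat.shiftRight (Nat.add N cO) s) cK = ((N + cO) / 2 ^ s) &&& cK := by
      show (N + cO) >>> s &&& cK = _
      rw [Nat.shiftRight_eq_div_pow]
    rw [e2, hT, eK]
    exact Sm_shift (by omega) hd160 hm' T
  have p0 : (2 : ℕ) ^ 160 = 2 ^ s * 2 ^ (160 - s) := by
    rw [← pow_add]
    congr 1
    omega
  have p1 : (2 : ℤ) ^ 159 = 2 ^ s * 2 ^ (159 - s) := by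
    rw [← pow_add]
    congr 1
    omega
  have hdig : ∀ i, (((d i / 2 ^ s) &&& m i : ℕ) : ℤ) =
      (bif vb i then (c i + r) / 2 ^ s else 0) + ((fo C (vb i) : ℕ) : ℤ) := by
    intro i
    cases hv : vb i
    · have : m i = 0 := by
        show fo K (vb i) = 0
        rw [hv, fo_f]
      rw [this, Nat.and_zero, fo_f, cond_false]
      rfl
    · have e3 : m i = 2 ^ (160 - s) - 1 := by
        show fo K (vb i) = _
        rw [hv, fo_t, hK]
      have e4 : d i / 2 ^ s < 2 ^ (160 - s) := by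
        rw [Nat.div_lt_iff_lt_mul (by positivity), mul_comm, ← p0]
        exact (dt hv).2
      rw [e3, Nat.and_two_pow_sub_one_eq_mod, Nat.mod_eq_of_lt e4, cond_true, fo_t, hC]
      push_cast
      rw [(dt hv).1, p1]
      have e5 : c i + (2 ^ s * 2 ^ (159 - s) + r) = (c i + r) + 2 ^ s * 2 ^ (159 - s) := by ring
      rw [e5, Int.add_mul_ediv_left _ _ (by positivity)]
  have hC2 : ((cC : ℕ) : ℤ) + Sz 301 (fun i => ((fo C (vb i) : ℕ) : ℤ)) = 2 ^ (160 * 301) := by
    rw [← Sz_cast]
    have := congrArg (fun n : ℕ => (n : ℤ)) eC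
    push_cast at this
    exact this
  refine Rp_mod (x := Nat.add (Nat.land (Nat.shiftRight (Nat.add N cO) s) cK) cC) ?_ ?_
  · rw [e1]
    have e6 : ((Nat.add (Sm 301 (fun i => (d i / 2 ^ s) &&& m i)) cC : ℕ) : ℤ) =
        Sz 301 (fun i => bif vb i then (c i + r) / 2 ^ s else 0) + 2 ^ (160 * 301) := by
      show ((Sm 301 (fun i => (d i / 2 ^ s) &&& m i) + cC : ℕ) : ℤ) = _
      rw [Nat.cast_add, Sz_cast, ← hC2,
        Sz_congr (c' := fun i => (bif vb i then (c i + r) / 2 ^ s else 0) +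
          ((fo C (vb i) : ℕ) : ℤ)) (fun i _ => hdig i), Sz_add]
      ring
    rw [e6]
    exact Int.add_modEq_right
  · intro i hi
    show (bif vb i then (c i + r) / 2 ^ s else 0) = 0
    rw [hi, cond_false]

theorem roR_ok {N : ℕ} {c : ℕ → ℤ} (h : (N : ℤ) ≡ Sz 301 c [ZMOD 2 ^ (160 * 301)]) (hs : Sp c)
    (hc : ∀ i, |c i| ≤ 2 ^ 157) :
    Rp (roR N) (fun i => bif vb i then (c i + 2 ^ 55) / 2 ^ 56 else 0) :=
  round_ok (s := 56) (O := 730750818665451459101842416358177538624985235456)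
    (K := 20282409603651670423947251286015) (C := 10141204801825835211973625643008) (r := 2 ^ 55)
    (by norm_num) (cst_of (by decide +kernel)) (cst_of (by decide +kernel))
    (off_of (by decide +kernel)) (by norm_num) (by norm_num) (by norm_num) (by norm_num)
    (by norm_num) h hs hc

theorem q4R_ok {N : ℕ} {c : ℕ → ℤ} (h : (N : ℤ) ≡ Sz 301 c [ZMOD 2 ^ (160 * 301)]) (hs : Sp c)
    (hc : ∀ i, |c i| ≤ 2 ^ 157) :
    Rp (q4R N) (fun i => bif vb i then (c i + 2) / 4 else 0) :=
  round_ok (s := 2) (O := 730750818665451459101842416358141509827966271490)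
    (K := 365375409332725729550921208179070754913983135743)
    (C := 182687704666362864775460604089535377456991567872) (r := 2)
    (by norm_num) (cst_of (by decide +kernel)) (cst_of (by decide +kernel))
    (off_of (by decide +kernel)) (by norm_num) (by norm_num) (by norm_num) (by norm_num)
    (by norm_num) h hs hc

end Pool.Agent.Helper91.TM
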