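import Pool.Agent.Helper91.TM.F

/-!
Taylor model machine (MP_c75db0, star frame): absolute values of the coefficients, the bounds of
the homogeneous parts and of the modulus computed by the kernel.
-/

set_option autoImplicit false
set_option exponentiation.threshold 100000
noncomputable section
namespace Pool.Agent.Helper91.TM

open Finset
open Pool.Agent.Helper90.KMT (rl)
open Pool.Agent.Helper86.CT (DF)
open Pool.Agent.Helper86.CX (nb2)

/-! ### constants -/

theorem cON_eq : cON = Sm 301 (fun i => fo (nat_lit 1) (vb i)) := cst_of (by decide +kernel)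
theorem cBK_eq : cBK = 2 ^ (160 * 43) - 1 := by
  have h : Nat.beq cBK (Nat.sub (Nat.shiftLeft (nat_lit 1) (nat_lit 6880)) (nat_lit 1)) = true := by
    decide +kernel
  have h1 := Nat.eq_of_beq_eq_true h
  have h2 : Nat.shiftLeft 1 6880 = 2 ^ (160 * 43) := by
    have := Nat.shiftLeft_eq 1 6880
    rw [one_mul] at this
    exact this
  rw [h1]
  show Nat.shiftLeft 1 6880 - 1 = _
  rw [h2]

theorem fo_t (k : ℕ) : fo k true = k := rfl
theorem fo_f (k : ℕ) : fo k false = 0 := rfl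

/-! ### absolute values -/

/-- the bit `2 ^ 76` -/
theorem bit76 {c : ℤ} (h : |c| < 2 ^ 76) : ((c + 2 ^ 76).toNat / 2 ^ 76) &&& 1 =
    if 0 ≤ c then 1 else 0 := by
  have h1 := abs_lt.1 h
  have h2 : (c + 2 ^ 76).toNat / 2 ^ 76 = if 0 ≤ c then 1 else 0 := by
    split_ifs with h3
    · have h4 : 2 ^ 76 ≤ (c + 2 ^ 76).toNat := by omega
      have h5 : (c + 2 ^ 76).toNat < 2 * 2 ^ 76 := by omega
      rw [Nat.div_eq_iff (by norm_num)]
      omega
    · exact Nat.div_eq_of_lt (by omega)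
  rw [h2]
  split_ifs <;> rfl

theorem land_ones (x k : ℕ) : x &&& (2 ^ k - 1) = x % 2 ^ k := Nat.and_two_pow_sub_one_eq_mod x k

/-- ABSOLUTE VALUES -/
theorem absT_eq {N : ℕ} {c : ℕ → ℤ} (h : (N : ℤ) ≡ Sz 301 c [ZMOD 2 ^ (160 * 301)]) (hs : Sp c)
    (hc : ∀ i, |c i| < 2 ^ 76) : absT N = Sm 301 (fun i => (c i).natAbs) := by
  set d : ℕ → ℕ := fun i => (c i + (o76 i : ℤ)).toNat with hdd
  have hd : ∀ i < 301, d i < 2 ^ 160 := by
    intro i _
    have h1 := abs_lt.1 (hc i)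
    show (c i + (o76 i : ℤ)).toNat < 2 ^ 160
    cases hv : vb i
    · rw [o76_f hv]
      omega
    · rw [o76_t hv]
      omega
  have ho : ∀ i < 301, c i + (o76 i : ℤ) = ((d i : ℕ) : ℤ) := by
    intro i _
    have h1 := abs_lt.1 (hc i)
    show c i + (o76 i : ℤ) = ((c i + (o76 i : ℤ)).toNat : ℤ)
    cases hv : vb i
    · rw [o76_f hv, hs i hv]
      rfl
    · rw [o76_t hv, Int.toNat_of_nonneg (by omega)]
  obtain ⟨T, hT⟩ := Sm_of (n := 301) (N := N) (c := c) (o := o76) h hd ho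
  have e : Sm 301 o76 = cOR := cOR_eq.symm
  rw [e] at hT
  -- the signs
  set sg : ℕ → ℕ := fun i => bif vb i then (if 0 ≤ c i then 1 else 0) else 0 with hsg
  set tg : ℕ → ℕ := fun i => bif vb i then (if 0 ≤ c i then 0 else 1) else 0 with htg
  have hS : Nat.land (Nat.shiftRight (Nat.add N cOR) (nat_lit 76)) cON = Sm 301 sg := by
    have e1 : Nat.shiftRight (Nat.add N cOR) (nat_lit 76) = (N + cOR) / 2 ^ 76 :=
      Nat.shiftRight_eq_div_pow _ _
    rw [e1, hT, cON_eq]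
    refine (Sm_shift (s := 76) (by norm_num) hd (m := fun i => fo (nat_lit 1) (vb i)) ?_ T).trans
      (Sm_congr fun i hi => ?_)
    · intro i _
      show fo 1 (vb i) < _
      cases vb i
      · rw [fo_f]; norm_num
      · rw [fo_t]; norm_num
    · show (c i + (o76 i : ℤ)).toNat / 2 ^ 76 &&& fo 1 (vb i) =
        bif vb i then (if 0 ≤ c i then 1 else 0) else 0
      cases hv : vb i
      · rw [fo_f, Nat.and_zero]
        rfl
      · rw [fo_t, o76_t hv, cond_true]
        have := bit76 (hc i)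
        push_cast
        exact this
  have hsub : Nat.sub cON (Sm 301 sg) = Sm 301 tg := by
    have e1 : Nat.sub cON (Sm 301 sg) = cON - Sm 301 sg := rfl
    rw [e1, cON_eq, ← Sm_sub]
    · refine Sm_congr fun i hi => ?_
      show fo 1 (vb i) - (bif vb i then (if 0 ≤ c i then 1 else 0) else 0) =
        bif vb i then (if 0 ≤ c i then 0 else 1) else 0
      cases vb i
      · rfl
      · rw [fo_t, cond_true, cond_true]
        split_ifs <;> rfl
    · intro i _
      show (bif vb i then (if 0 ≤ c i then 1 else 0) else 0) ≤ fo 1 (vb i)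
      cases vb i
      · exact le_rfl
      · rw [fo_t, cond_true]
        split_ifs <;> norm_num
  -- the masks
  have hm1 : Nat.land (Nat.add N cOR) (Nat.mul (Sm 301 sg) (nat_lit 75557863725914323419135)) =
      Sm 301 (fun i => bif vb i then (if 0 ≤ c i then (c i).natAbs else 0) else 0) := by
    have e1 : Nat.mul (Sm 301 sg) (nat_lit 75557863725914323419135) =
      Sm 301 (fun i => sg i * 75557863725914323419135) := (Sm_mul _ _ _).symm
    have e2 : Nat.add N cOR = N + cOR := rfl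
    rw [e1, e2, hT]
    refine (Sm_land hd ?_ T).trans (Sm_congr fun i hi => ?_)
    · intro i _
      show (bif vb i then (if 0 ≤ c i then 1 else 0) else 0) * 75557863725914323419135 < _
      cases vb i
      · norm_num
      · rw [cond_true]
        split_ifs <;> norm_num
    · show (c i + (o76 i : ℤ)).toNat &&& ((bif vb i then (if 0 ≤ c i then 1 else 0) else 0) *
        75557863725914323419135) = bif vb i then (if 0 ≤ c i then (c i).natAbs else 0) else 0
      cases hv : vb i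
      · simp
      · rw [cond_true, cond_true, o76_t hv]
        have h1 := abs_lt.1 (hc i)
        split_ifs with h2
        · rw [one_mul]
          have e3 := land_ones (c i + ((2 ^ 76 : ℕ) : ℤ)).toNat 76
          norm_num at e3
          norm_num
          rw [e3]
          omega
        · simp
  have hm2 : Nat.land (Nat.add N cOR) (Nat.mul (Sm 301 tg) (nat_lit 75557863725914323419135)) =
      Sm 301 (fun i => bif vb i then (if 0 ≤ c i then 0 else (c i + 2 ^ 76).toNat) else 0) := by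
    have e1 : Nat.mul (Sm 301 tg) (nat_lit 75557863725914323419135) =
      Sm 301 (fun i => tg i * 75557863725914323419135) := (Sm_mul _ _ _).symm
    have e2 : Nat.add N cOR = N + cOR := rfl
    rw [e1, e2, hT]
    refine (Sm_land hd ?_ T).trans (Sm_congr fun i hi => ?_)
    · intro i _
      show (bif vb i then (if 0 ≤ c i then 0 else 1) else 0) * 75557863725914323419135 < _
      cases vb i
      · norm_num
      · rw [cond_true]
        split_ifs <;> norm_num
    · show (c i + (o76 i : ℤ)).toNat &&& ((bif vb i then (if 0 ≤ c i then 0 else 1) else 0) *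
        75557863725914323419135) = bif vb i then (if 0 ≤ c i then 0 else (c i + 2 ^ 76).toNat) else 0
      cases hv : vb i
      · simp
      · rw [cond_true, cond_true, o76_t hv]
        have h1 := abs_lt.1 (hc i)
        split_ifs with h2
        · simp
        · rw [one_mul]
          have e3 := land_ones (c i + ((2 ^ 76 : ℕ) : ℤ)).toNat 76
          norm_num at e3
          norm_num
          rw [e3]
          omega
  have e0 : absT N = Nat.add (Nat.land (Nat.add N cOR) (Nat.mul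
      (Nat.land (Nat.shiftRight (Nat.add N cOR) (nat_lit 76)) cON)
      (nat_lit 75557863725914323419135)))
      (Nat.sub (Nat.mul (Nat.sub cON (Nat.land (Nat.shiftRight (Nat.add N cOR) (nat_lit 76)) cON))
      (nat_lit 75557863725914323419136))
      (Nat.land (Nat.add N cOR) (Nat.mul (Nat.sub cON
      (Nat.land (Nat.shiftRight (Nat.add N cOR) (nat_lit 76)) cON))
      (nat_lit 75557863725914323419135)))) := rfl
  rw [e0, hS, hsub, hm1, hm2]
  have e1 : Nat.mul (Sm 301 tg) (nat_lit 75557863725914323419136) =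
    Sm 301 (fun i => tg i * 75557863725914323419136) := (Sm_mul _ _ _).symm
  rw [e1]
  show _ + (Sm 301 _ - Sm 301 _) = _
  rw [← Sm_sub, ← Sm_add]
  · refine Sm_congr fun i hi => ?_
    show (bif vb i then (if 0 ≤ c i then (c i).natAbs else 0) else 0) +
      ((bif vb i then (if 0 ≤ c i then 0 else 1) else 0) * 75557863725914323419136 -
      (bif vb i then (if 0 ≤ c i then 0 else (c i + 2 ^ 76).toNat) else 0)) = (c i).natAbs
    cases hv : vb i
    · rw [hs i hv]
      rfl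
    · rw [cond_true, cond_true, cond_true]
      have h1 := abs_lt.1 (hc i)
      split_ifs with h2
      · simp
      · omega
  · intro i _
    show (bif vb i then (if 0 ≤ c i then 0 else (c i + 2 ^ 76).toNat) else 0) ≤
      (bif vb i then (if 0 ≤ c i then 0 else 1) else 0) * 75557863725914323419136
    have h1 := abs_lt.1 (hc i)
    cases vb i
    · simp
    · rw [cond_true, cond_true]
      split_ifs with h2
      · simp
      · omega

/-! ### sums of digits -/

theorem ds_eq {n : ℕ} {d : ℕ → ℕ} (hn : n ≤ 301) (h : ∀ i < n, d i ≤ 2 ^ 78) :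
    ds (Sm n d) = ∑ i ∈ range n, d i := by
  have h1 : ∑ i ∈ range n, d i ≤ n * 2 ^ 78 := by
    have := Finset.sum_le_sum (f := d) (g := fun _ => 2 ^ 78) (s := range n)
      fun i hi => h i (mem_range.1 hi)
    rwa [Finset.sum_const, card_range, smul_eq_mul] at this
  have h2 : n * 2 ^ 78 ≤ 301 * 2 ^ 78 := Nat.mul_le_mul_right _ hn
  have h3 : ∑ i ∈ range n, d i < 2 ^ 160 - 1 := by
    have : (301 : ℕ) * 2 ^ 78 < 2 ^ 160 - 1 := by norm_num
    omega
  exact Sm_ds h3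

theorem up8_le (n : ℕ) : n ≤ 256 * up8 n := by
  have e : up8 n = n / 2 ^ 8 + 1 := by
    show Nat.shiftRight n 8 + 1 = _
    rw [show Nat.shiftRight n 8 = n / 2 ^ 8 from Nat.shiftRight_eq_div_pow n 8]
  rw [e]
  omega

theorem up8_le' (n : ℕ) : (n : ℝ) / 256 ≤ (up8 n : ℕ) := by
  have h : ((n : ℕ) : ℝ) ≤ 256 * (up8 n : ℕ) := by exact_mod_cast up8_le n
  linarith

/-- block `k` -/
theorem blk {k : ℕ} {d : ℕ → ℕ} (hk : k < 7) (h : ∀ i, d i ≤ 2 ^ 78) :
    ds (Nat.land (Sm 301 d / 2 ^ (160 * (43 * k))) cBK) = ∑ r ∈ range 43, d (43 * k + r) := by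
  have hlt : ∀ i, d i < 2 ^ 160 := fun i => lt_of_le_of_lt (h i) (by norm_num)
  obtain ⟨m, hm⟩ : ∃ m, 301 = 43 * k + (43 + m) := ⟨301 - 43 * k - 43, by omega⟩
  have e1 : Sm 301 d / 2 ^ (160 * (43 * k)) = Sm (43 + m) (fun i => d (43 * k + i)) := by
    rw [hm]
    exact Sm_div fun i _ => hlt i
  have e2 : Nat.land (Sm (43 + m) (fun i => d (43 * k + i))) cBK =
      Sm 43 (fun i => d (43 * k + i)) := by
    have e3 : Nat.land (Sm (43 + m) (fun i => d (43 * k + i))) cBK =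
      Sm (43 + m) (fun i => d (43 * k + i)) &&& (2 ^ (160 * 43) - 1) := by rw [cBK_eq]; rfl
    rw [e3, land_ones]
    exact Sm_low fun i _ => hlt _
  rw [e1, e2, ds_eq (by norm_num) fun i _ => h _]

theorem blk' {k : ℕ} {d : ℕ → ℕ} (hk : k < 7) (h : ∀ i, d i ≤ 2 ^ 78) :
    ds (Sm 301 d / 2 ^ (160 * (43 * k))) = ∑ r ∈ range (301 - 43 * k), d (43 * k + r) := by
  have hlt : ∀ i, d i < 2 ^ 160 := fun i => lt_of_le_of_lt (h i) (by norm_num)
  have hm : 301 = 43 * k + (301 - 43 * k) := by omega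
  have e1 : Sm 301 d / 2 ^ (160 * (43 * k)) = Sm (301 - 43 * k) (fun i => d (43 * k + i)) := by
    conv_lhs => rw [hm]
    exact Sm_div fun i _ => hlt i
  rw [e1, ds_eq (by omega) fun i _ => h _]

/-- the sum of block `k` -/
def bs (d : ℕ → ℕ) (k : ℕ) : ℕ := ∑ r ∈ range 43, d (43 * k + r)

theorem lsT_eq {d : ℕ → ℕ} (h : ∀ i, d i ≤ 2 ^ 78) : lsT (Sm 301 d) =
    ls3 (up8 (bs d 1)) (up8 (bs d 2)) (up8 (bs d 3)) (up8 (bs d 4 + bs d 5 + bs d 6))
      (up8 (bs d 5 + bs d 6)) (up8 (bs d 6)) := by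
  have s1 : Nat.shiftRight (Sm 301 d) (nat_lit 6880) = Sm 301 d / 2 ^ (160 * (43 * 1)) :=
    Nat.shiftRight_eq_div_pow _ _
  have s2 : Nat.shiftRight (Sm 301 d) (nat_lit 13760) = Sm 301 d / 2 ^ (160 * (43 * 2)) :=
    Nat.shiftRight_eq_div_pow _ _
  have s3 : Nat.shiftRight (Sm 301 d) (nat_lit 20640) = Sm 301 d / 2 ^ (160 * (43 * 3)) :=
    Nat.shiftRight_eq_div_pow _ _
  have s4 : Nat.shiftRight (Sm 301 d) (nat_lit 27520) = Sm 301 d / 2 ^ (160 * (43 * 4)) :=
    Nat.shiftRight_eq_div_pow _ _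
  have s5 : Nat.shiftRight (Sm 301 d) (nat_lit 34400) = Sm 301 d / 2 ^ (160 * (43 * 5)) :=
    Nat.shiftRight_eq_div_pow _ _
  have s6 : Nat.shiftRight (Sm 301 d) (nat_lit 41280) = Sm 301 d / 2 ^ (160 * (43 * 6)) :=
    Nat.shiftRight_eq_div_pow _ _
  have b4 : ds (Sm 301 d / 2 ^ (160 * (43 * 4))) = bs d 4 + bs d 5 + bs d 6 := by
    rw [blk' (by norm_num) h]
    have e : 301 - 43 * 4 = 43 + 43 + 43 := rfl
    rw [e, Finset.sum_range_add, Finset.sum_range_add]
    rfl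
  have b5 : ds (Sm 301 d / 2 ^ (160 * (43 * 5))) = bs d 5 + bs d 6 := by
    rw [blk' (by norm_num) h]
    have e : 301 - 43 * 5 = 43 + 43 := rfl
    rw [e, Finset.sum_range_add]
    rfl
  have b6 : ds (Sm 301 d / 2 ^ (160 * (43 * 6))) = bs d 6 := by
    rw [blk' (by norm_num) h]
    rfl
  unfold lsT
  rw [s1, s2, s3, s4, s5, s6, blk (by norm_num) h, blk (by norm_num) h, blk (by norm_num) h, b4,
    b5, b6]
  rfl

/-! ### validity of a number -/

section

variable {a b : ℕ → ℤ} {m : ℕ}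

theorem abs_lt_of (ha : Sp a) (hb : Sp b) (hm : ∑ i ∈ range 301, (|a i| + |b i|) ≤ (m : ℤ))
    (hm' : m < 2 ^ 76) (i : ℕ) : |a i| < 2 ^ 76 ∧ |b i| < 2 ^ 76 := by
  cases hv : vb i
  · rw [ha i hv, hb i hv]
    norm_num
  · have hi : i < 301 := ((vb_iff i).1 hv).1
    have h1 := Finset.single_le_sum (f := fun i => |a i| + |b i|)
      (fun j _ => add_nonneg (abs_nonneg (a j)) (abs_nonneg (b j))) (mem_range.2 hi)
    have h2 : |a i| + |b i| ≤ (m : ℤ) := h1.trans hm
    have h3 := abs_nonneg (a i)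
    have h4 := abs_nonneg (b i)
    have h5 : (m : ℤ) < 2 ^ 76 := by exact_mod_cast hm'
    constructor <;> omega

/-- complex numbers from integers -/
def zc (a b : ℕ → ℤ) (i : ℕ) : ℂ := ((a i : ℤ) : ℂ) + ((b i : ℤ) : ℂ) * Complex.I

theorem zc_re (a b : ℕ → ℤ) (i : ℕ) : (zc a b i).re = a i := by simp [zc]
theorem zc_im (a b : ℕ → ℤ) (i : ℕ) : (zc a b i).im = b i := by simp [zc]

theorem zc_le (a b : ℕ → ℤ) (i : ℕ) : ‖zc a b i‖ ≤ (((a i).natAbs + (b i).natAbs : ℕ) : ℝ) := by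
  have h := Complex.norm_le_abs_re_add_abs_im (zc a b i)
  rw [zc_re, zc_im] at h
  refine h.trans (le_of_eq ?_)
  rw [Nat.cast_add, Nat.cast_natAbs, Nat.cast_natAbs]
  push_cast
  rfl

theorem Nh_le (a b : ℕ → ℤ) (d : ℕ) :
    Nh (zc a b) d ≤ (bs (fun i => (a i).natAbs + (b i).natAbs) d : ℕ) := by
  unfold Nh bs
  rw [Nat.cast_sum]
  exact Finset.sum_le_sum fun r _ => zc_le a b _

/-- the list -/
theorem ls_ok {x : TP} (hz : zT x = zc a b) (hb : ∀ i, |a i| < 2 ^ 76 ∧ |b i| < 2 ^ 76) :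
    LVT x ((lsT (Sm 301 (fun i => (a i).natAbs + (b i).natAbs))).map rl) := by
  have h1 : ∀ i, (fun i => (a i).natAbs + (b i).natAbs) i ≤ 2 ^ 78 := by
    intro i
    show (a i).natAbs + (b i).natAbs ≤ 2 ^ 78
    have h2 := (hb i).1
    have h3 := (hb i).2
    have h4 : ((a i).natAbs : ℤ) = |a i| := Int.natCast_natAbs _
    have h5 : ((b i).natAbs : ℤ) = |b i| := Int.natCast_natAbs _
    omega
  rw [lsT_eq h1]
  set s := bs (fun i => (a i).natAbs + (b i).natAbs) with hs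
  have n1 : Nd x 1 ≤ (up8 (s 1) : ℕ) := by
    unfold Nd
    rw [hz]
    have := Nh_le a b 1
    have := up8_le' (s 1)
    linarith
  have n2 : Nd x 2 ≤ (up8 (s 2) : ℕ) := by
    unfold Nd
    rw [hz]
    have := Nh_le a b 2
    have := up8_le' (s 2)
    linarith
  have n3 : Nd x 3 ≤ (up8 (s 3) : ℕ) := by
    unfold Nd
    rw [hz]
    have := Nh_le a b 3
    have := up8_le' (s 3)
    linarith
  have n6 : Nd x 6 ≤ (up8 (s 6) : ℕ) := by
    unfold Nd
    rw [hz]
    have := Nh_le a b 6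
    have := up8_le' (s 6)
    linarith
  have n5 : Nd x 5 + Nd x 6 ≤ (up8 (s 5 + s 6) : ℕ) := by
    unfold Nd
    rw [hz]
    have := Nh_le a b 5
    have := Nh_le a b 6
    have := up8_le' (s 5 + s 6)
    push_cast at this
    linarith
  have n4 : Nd x 4 + Nd x 5 + Nd x 6 ≤ (up8 (s 4 + s 5 + s 6) : ℕ) := by
    unfold Nd
    rw [hz]
    have := Nh_le a b 4
    have := Nh_le a b 5
    have := Nh_le a b 6
    have := up8_le' (s 4 + s 5 + s 6)
    push_cast at this
    linarith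
  have e1 : ((Nat.add (Nat.mul (nat_lit 10) (up8 (s 1))) (nat_lit 1) : ℕ) : ℝ) =
      10 * (up8 (s 1) : ℕ) + 1 := by
    show ((10 * up8 (s 1) + 1 : ℕ) : ℝ) = _
    push_cast
    ring
  have e2 : ((Nat.mul (nat_lit 5) (up8 (s 2)) : ℕ) : ℝ) = 5 * (up8 (s 2) : ℕ) := by
    show ((5 * up8 (s 2) : ℕ) : ℝ) = _
    push_cast
    ring
  have e3 : 5 / 2 * ((up8 (s 3) : ℕ) : ℝ) ≤
      ((Nat.div (Nat.add (Nat.mul (nat_lit 5) (up8 (s 3))) (nat_lit 1)) (nat_lit 2) : ℕ) : ℝ) := by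
    have h : 5 * up8 (s 3) ≤ 2 * ((5 * up8 (s 3) + 1) / 2) := by omega
    have h' : (5 : ℝ) * (up8 (s 3) : ℕ) ≤ 2 * (((5 * up8 (s 3) + 1) / 2 : ℕ) : ℝ) := by
      exact_mod_cast h
    show _ ≤ (((5 * up8 (s 3) + 1) / 2 : ℕ) : ℝ)
    linarith
  refine ⟨_, _, _, _, _, _, rfl, ?_, ?_, n6, ?_, n5, ?_, n4, Or.inl ?_⟩
  · show (1 : ℝ) ≤ ((Nat.add (Nat.mul (nat_lit 10) (up8 (s 1))) (nat_lit 1) : ℕ) : ℝ)
    rw [e1]
    have : (0 : ℝ) ≤ (up8 (s 1) : ℕ) := Nat.cast_nonneg _
    linarith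
  · show 10 * Nd x 1 ≤ ((Nat.add (Nat.mul (nat_lit 10) (up8 (s 1))) (nat_lit 1) : ℕ) : ℝ)
    rw [e1]
    linarith
  · show 5 * Nd x 2 ≤ ((Nat.mul (nat_lit 5) (up8 (s 2)) : ℕ) : ℝ)
    rw [e2]
    linarith
  · show 5 / 2 * Nd x 3 ≤
      ((Nat.div (Nat.add (Nat.mul (nat_lit 5) (up8 (s 3))) (nat_lit 1)) (nat_lit 2) : ℕ) : ℝ)
    linarith
  · show (1 : ℝ) ≤ ((Nat.mul (nat_lit 5) (up8 (s 2)) : ℕ) : ℝ)
    rw [e2]
    have h : 1 ≤ up8 (s 2) := Nat.le_add_left 1 _
    have h' : (1 : ℝ) ≤ (up8 (s 2) : ℕ) := by exact_mod_cast h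
    linarith

/-- the sum of the digits of the absolute values -/
theorem ds_abs {N : ℕ} (h : Rp N a) (hb : ∀ i, |a i| < 2 ^ 76) :
    ((ds (absT N) : ℕ) : ℤ) = ∑ i ∈ range 301, |a i| := by
  rw [absT_eq h.md h.sp hb, ds_eq le_rfl]
  · push_cast
    exact Finset.sum_congr rfl fun i _ => rfl
  · intro i _
    show (a i).natAbs ≤ 2 ^ 78
    have h2 := hb i
    have h4 : ((a i).natAbs : ℤ) = |a i| := Int.natCast_natAbs _
    omega

/-- at least the modulus -/
theorem nb2_sq (u v : ℕ) : u ^ 2 + v ^ 2 ≤ nb2 u v ^ 2 := by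
  have h := Pool.Agent.Helper90.KMO.nb2_le (a := u) (b := v) (x := ⟨u, v⟩) (by simp) (by simp)
  have h1 := Complex.sq_norm (⟨u, v⟩ : ℂ)
  have h2 : ‖(⟨u, v⟩ : ℂ)‖ ^ 2 ≤ (nb2 u v : ℝ) ^ 2 := pow_le_pow_left₀ (norm_nonneg _) h 2
  rw [h1, Complex.normSq_mk] at h2
  have h3 : ((u ^ 2 + v ^ 2 : ℕ) : ℝ) ≤ ((nb2 u v ^ 2 : ℕ) : ℝ) := by
    push_cast
    nlinarith [h2]
  exact_mod_cast h3

/-- VALIDITY -/
theorem GT_mk {re im : ℕ} (ha : Rp re a) (hb : Rp im b)
    (hm : ∑ i ∈ range 301, (|a i| + |b i|) ≤ (m : ℤ)) (hm' : m < 2 ^ 76) (g : Bool) (n : ℕ)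
    (hn : up8 (nb2 (ds (absT re)) (ds (absT im))) ≤ n) :
    GT ⟨g, m, n, lsT (Nat.add (absT re) (absT im)), re, im⟩ ∧
      zT ⟨g, m, n, lsT (Nat.add (absT re) (absT im)), re, im⟩ = zc a b := by
  have hl := abs_lt_of ha.sp hb.sp hm hm'
  have da : dcf re = a := ha.dcf fun i => (hl i).1
  have db : dcf im = b := hb.dcf fun i => (hl i).2
  have hz : zT ⟨g, m, n, lsT (Nat.add (absT re) (absT im)), re, im⟩ = zc a b := by
    funext i
    show ((dcf re i : ℤ) : ℂ) + ((dcf im i : ℤ) : ℂ) * Complex.I = zc a b i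
    rw [da, db]
    rfl
  refine ⟨⟨?_, ?_, ?_, hm', ?_, ?_⟩, hz⟩
  · show Rp re (dcf re)
    rw [da]
    exact ha
  · show Rp im (dcf im)
    rw [db]
    exact hb
  · show ∑ i ∈ range 301, (|dcf re i| + |dcf im i|) ≤ (m : ℤ)
    rw [da, db]
    exact hm
  · show (∑ i ∈ range 301, |dcf re i|) ^ 2 + (∑ i ∈ range 301, |dcf im i|) ^ 2 ≤ (256 * (n : ℤ)) ^ 2
    rw [da, db, ← ds_abs ha fun i => (hl i).1, ← ds_abs hb fun i => (hl i).2]
    have h1 := nb2_sq (ds (absT re)) (ds (absT im))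
    have h2 := up8_le (nb2 (ds (absT re)) (ds (absT im)))
    have h3 : nb2 (ds (absT re)) (ds (absT im)) ≤ 256 * n :=
      h2.trans (Nat.mul_le_mul_left _ hn)
    have h4 := h1.trans (Nat.pow_le_pow_left h3 2)
    exact_mod_cast h4
  · show LVT _ ((lsT (Nat.add (absT re) (absT im))).map rl)
    have e : Nat.add (absT re) (absT im) = Sm 301 (fun i => (a i).natAbs + (b i).natAbs) := by
      rw [Sm_add, ← absT_eq ha.md ha.sp fun i => (hl i).1, ← absT_eq hb.md hb.sp fun i => (hl i).2]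
      rfl
    have h := ls_ok (x := ⟨g, m, n, lsT (Nat.add (absT re) (absT im)), re, im⟩) hz hl
    rw [← e] at h
    exact h

end

end Pool.Agent.Helper91.TM
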