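import Pool.Agent.Helper62.C75.SQM

/-!
Taylor model machine (MP_c75db0, star frame): the interface. A machine `lf : Mch α` has values
`lf.ev x t`, a flag `lf.gd x` (no overflow), validity `lf.vl x` and bounds of the variation
`lf.LV x l`. The names and the order of the arguments are those of `Helper90.KMT` (CT2) and
`Helper62.SQM`.
-/

set_option autoImplicit false
noncomputable section
namespace Pool.Agent.Helper91.TMK

export Pool.Agent.Helper90.KMT (PT rl erz NN nn_rl er_le erz_nonneg tw)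

open Pool.Agent.Helper90.C75
open Pool.Agent.Helper90.KMO
open Pool.Agent.Helper86.C75 (Z)
open Pool.Agent.Helper86.CX (Cx cadd csub cmul cconj cq4 cdiv nb mx andB one1)
open Pool.Agent.Helper86.CT (DF Alg Mo er mk cst addM subM conjM mulM resM inv0 inv1 invM invOK)

/-- A MACHINE -/
structure Mch (α : Type) where
  ev : α → (ℕ → ℝ) → ℂ
  gd : α → Prop
  vl : α → Prop
  LV : α → List (ℝ × ℝ) → Prop

/-- THE LAWS of a machine with `D` parameters; `c` bounds the rounding error of a product -/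
structure AOKc (c : ℝ) (D : ℕ) {α : Type} (lf : Mch α) (A : Alg α) : Prop where
  vadd : ∀ {x y : α}, lf.vl x → lf.vl y → lf.vl (A.add x y)
  vsub : ∀ {x y : α}, lf.vl x → lf.vl y → lf.vl (A.sub x y)
  vmul : ∀ {x y : α}, lf.vl x → lf.vl y → lf.vl (A.mul x y)
  vq4 : ∀ {x : α}, lf.vl x → lf.vl (A.q4 x)
  vcj : ∀ {x : α}, lf.vl x → lf.vl (A.cj x)
  vcs : ∀ z : Cx, lf.vl (A.cs z)
  vinv : ∀ {x : α}, lf.vl x → lf.vl (A.inv x)
  add : ∀ {x y : α}, lf.vl x → lf.vl y → lf.gd (A.add x y) → lf.gd x ∧ lf.gd y ∧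
    ∀ t, lf.ev (A.add x y) t = lf.ev x t + lf.ev y t
  sub : ∀ {x y : α}, lf.vl x → lf.vl y → lf.gd (A.sub x y) → lf.gd x ∧ lf.gd y ∧
    ∀ t, lf.ev (A.sub x y) t = lf.ev x t - lf.ev y t
  mul : ∀ {x y : α}, lf.vl x → lf.vl y → lf.gd (A.mul x y) → lf.gd x ∧ lf.gd y ∧
    ∀ t l l', PT D t → lf.LV x l → lf.LV y l' →
      ‖lf.ev (A.mul x y) t - lf.ev x t * lf.ev y t / UU‖ ≤ c + erz l l' / UU
  q4 : ∀ {x : α}, lf.vl x → lf.gd (A.q4 x) → lf.gd x ∧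
    ∀ t, PT D t → ‖lf.ev (A.q4 x) t - lf.ev x t / 4‖ ≤ 3 / 2
  cj : ∀ {x : α}, lf.vl x → lf.gd (A.cj x) → lf.gd x ∧
    ∀ t, lf.ev (A.cj x) t = star (lf.ev x t)
  cs : ∀ z : Cx, lf.gd (A.cs z) → ∀ t, lf.ev (A.cs z) t = cz z
  mag : ∀ {x : α}, lf.vl x → lf.gd x → ∀ t, PT D t → ‖lf.ev x t‖ ≤ A.nb x
  lv : ∀ {x : α}, lf.vl x → lf.gd x → lf.LV x ((A.df x).map rl)
  lvcj : ∀ {x : α} {l : List (ℝ × ℝ)}, lf.vl x → lf.gd x → lf.LV x l → lf.LV (A.cj x) l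
  lvsub : ∀ {x y : α} {l : List (ℝ × ℝ)}, lf.vl x → lf.vl y → lf.gd (A.sub x y) → lf.LV x l →
    lf.LV y l → lf.LV (A.sub x y) (l.map tw)
  lvnn : ∀ {x : α} {l : List (ℝ × ℝ)}, lf.LV x l → NN l
  /-- a small bound shows that there was no overflow -/
  nbg : ∀ {x : α}, lf.vl x → A.nb x < 2 ^ 150 → lf.gd x
  /-- a number in a disc that does not contain the origin -/
  cng : ∀ {s : α} (n : ℕ), lf.vl s → A.nb (A.sub s (A.cs ⟨Z.p n, Z.p (nat_lit 0)⟩)) ≤ n →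
    lf.gd (A.sub s (A.cs ⟨Z.p n, Z.p (nat_lit 0)⟩))
  csb : ∀ n : ℕ, lf.gd (A.cs ⟨Z.p n, Z.p (nat_lit 0)⟩) → n < 2 ^ 90

/-- the laws with the error of KerT -/
abbrev AOK (D : ℕ) {α : Type} (lf : Mch α) (A : Alg α) : Prop := AOKc 13 D lf A

theorem AOKc.mono {c d : ℝ} {D : ℕ} {α : Type} {lf : Mch α} {A : Alg α} (h : AOKc c D lf A)
    (hcd : c ≤ d) : AOKc d D lf A :=
  { h with
    mul := fun hx hy hg => ⟨(h.mul hx hy hg).1, (h.mul hx hy hg).2.1, fun t l l' hP hl hl' =>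
      ((h.mul hx hy hg).2.2 t l l' hP hl hl').trans (by linarith)⟩ }

variable {α : Type} {D : ℕ} {lf : Mch α} {A : Alg α} {t : ℕ → ℝ}

/-- validity of the sizes -/
structure VT (D : ℕ) (lf : Mch α) (M : Mo α) : Prop where
  vl : lf.vl M.v
  bd : lf.gd M.v → ∀ t, PT D t → ‖lf.ev M.v t‖ ≤ M.B
  lv : lf.gd M.v → lf.LV M.v (M.l.map rl)

/-- THE MODEL OF A NUMBER (value of a function at the parameters `t`) -/
structure TOK (D : ℕ) (lf : Mch α) (t : ℕ → ℝ) (f : ℂ) (M : Mo α) : Prop where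
  val : VT D lf M
  mod : lf.gd M.v → ‖(UU : ℂ) * f - lf.ev M.v t‖ ≤ M.r

theorem vt_mk (hA : AOK D lf A) {v : α} (hv : lf.vl v) (r : ℕ) : VT D lf (mk A v r) :=
  ⟨hv, fun hg => hA.mag hv hg, fun hg => hA.lv hv hg⟩

theorem TOK.congr {f g : ℂ} {M : Mo α} (h : TOK D lf t f M) (e : f = g) : TOK D lf t g M := e ▸ h

/-! ### sums -/

theorem TOK.add (hA : AOK D lf A) {f g : ℂ} {M N : Mo α} (hf : TOK D lf t f M)
    (hg : TOK D lf t g N) : TOK D lf t (f + g) (addM A M N) := by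
  refine ⟨vt_mk hA (hA.vadd hf.val.vl hg.val.vl) _, fun hgd => ?_⟩
  obtain ⟨g1, g2, e1⟩ := hA.add hf.val.vl hg.val.vl hgd
  show ‖(UU : ℂ) * (f + g) - lf.ev (A.add M.v N.v) t‖ ≤ ((Nat.add M.r N.r : ℕ) : ℝ)
  rw [e1 t, c_add, mul_add]
  have e3 : (UU : ℂ) * f + UU * g - (lf.ev M.v t + lf.ev N.v t)
      = (UU * f - lf.ev M.v t) + (UU * g - lf.ev N.v t) := by ring
  rw [e3]
  exact (norm_add_le _ _).trans (add_le_add (hf.mod g1) (hg.mod g2))

theorem TOK.sub (hA : AOK D lf A) {f g : ℂ} {M N : Mo α} (hf : TOK D lf t f M)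
    (hg : TOK D lf t g N) : TOK D lf t (f - g) (subM A M N) := by
  refine ⟨vt_mk hA (hA.vsub hf.val.vl hg.val.vl) _, fun hgd => ?_⟩
  obtain ⟨g1, g2, e1⟩ := hA.sub hf.val.vl hg.val.vl hgd
  show ‖(UU : ℂ) * (f - g) - lf.ev (A.sub M.v N.v) t‖ ≤ ((Nat.add M.r N.r : ℕ) : ℝ)
  rw [e1 t, c_add, mul_sub]
  have e3 : (UU : ℂ) * f - UU * g - (lf.ev M.v t - lf.ev N.v t)
      = (UU * f - lf.ev M.v t) - (UU * g - lf.ev N.v t) := by ring
  rw [e3]
  exact (norm_sub_le _ _).trans (add_le_add (hf.mod g1) (hg.mod g2))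

theorem TOK.conj (hA : AOK D lf A) {f : ℂ} {M : Mo α} (hf : TOK D lf t f M) :
    TOK D lf t (star f) (conjM A M) := by
  refine ⟨⟨hA.vcj hf.val.vl, fun hgd t hP => ?_, fun hgd => ?_⟩, fun hgd => ?_⟩
  · obtain ⟨g1, e1⟩ := hA.cj hf.val.vl hgd
    show ‖lf.ev (A.cj M.v) t‖ ≤ (M.B : ℝ)
    rw [e1, norm_star]
    exact hf.val.bd g1 t hP
  · obtain ⟨g1, e1⟩ := hA.cj hf.val.vl hgd
    exact hA.lvcj hf.val.vl g1 (hf.val.lv g1)
  · obtain ⟨g1, e1⟩ := hA.cj hf.val.vl hgd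
    show ‖(UU : ℂ) * star f - lf.ev (A.cj M.v) t‖ ≤ (M.r : ℝ)
    have e4 : star (UU : ℂ) = UU := Complex.conj_ofReal _
    rw [e1]
    have e3 : (UU : ℂ) * star f - star (lf.ev M.v t) = star (UU * f - lf.ev M.v t) := by
      rw [star_sub, star_mul, e4, mul_comm]
    rw [e3, norm_star]
    exact hf.mod g1

/-! ### products -/

/-- the error of a product of two valid numbers -/
theorem mul_err (hA : AOK D lf A) (hP : PT D t) {M N : Mo α} (hM : VT D lf M) (hN : VT D lf N)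
    (hg : lf.gd (A.mul M.v N.v)) :
    ‖lf.ev (A.mul M.v N.v) t - lf.ev M.v t * lf.ev N.v t / UU‖ ≤ 13 + (er M.l N.l : ℕ) / UU := by
  obtain ⟨g1, g2, h⟩ := hA.mul hM.vl hN.vl hg
  have h1 := h t _ _ hP (hM.lv g1) (hN.lv g2)
  have h2 := div_le_div_of_nonneg_right (er_le M.l N.l) UU_pos.le
  linarith

theorem TOK.mul (hA : AOK D lf A) (hP : PT D t) {f g : ℂ} {M N : Mo α} (hf : TOK D lf t f M)
    (hg : TOK D lf t g N) : TOK D lf t (f * g) (mulM A M N) := by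
  have hU := UU_pos
  have hUc := UUc_ne
  refine ⟨vt_mk hA (hA.vmul hf.val.vl hg.val.vl) _, fun hgd => ?_⟩
  show ‖(UU : ℂ) * (f * g) - lf.ev (A.mul M.v N.v) t‖ ≤
    ((Nat.add (Nat.shiftRight (Nat.add (Nat.add (Nat.add (Nat.mul M.r N.B) (Nat.mul N.r M.B))
    (Nat.mul M.r N.r)) (er M.l N.l)) (nat_lit 48)) (nat_lit 17) : ℕ) : ℝ)
  have hs := (shr_le (Nat.add (Nat.add (Nat.add (Nat.mul M.r N.B) (Nat.mul N.r M.B))
    (Nat.mul M.r N.r)) (er M.l N.l))).2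
  rw [c_add, c_add, c_add, c_mul, c_mul, c_mul] at hs
  rw [c_add]
  have g1 : ((nat_lit 17 : ℕ) : ℝ) = 17 := by norm_num
  rw [g1]
  obtain ⟨k1, k2, -⟩ := hA.mul hf.val.vl hg.val.vl hgd
  have h2 := mul_err hA hP hf.val hg.val hgd
  have hF : ‖lf.ev M.v t‖ ≤ M.B := hf.val.bd k1 t hP
  have hG : ‖lf.ev N.v t‖ ≤ N.B := hg.val.bd k2 t hP
  have m1 : ‖(UU : ℂ) * f - lf.ev M.v t‖ ≤ M.r := hf.mod k1
  have m2 : ‖(UU : ℂ) * g - lf.ev N.v t‖ ≤ N.r := hg.mod k2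
  set F := lf.ev M.v t
  set G := lf.ev N.v t
  set Q := lf.ev (A.mul M.v N.v) t
  have e : (UU : ℂ) * (f * g) - Q = ((UU * f - F) * G + (UU * g - G) * F
      + (UU * f - F) * (UU * g - G)) / UU - (Q - F * G / UU) := by
    field_simp
    ring
  rw [e]
  refine (norm_sub_le _ _).trans ?_
  have h3 : ‖((UU : ℂ) * f - F) * G + (UU * g - G) * F
      + (UU * f - F) * (UU * g - G)‖ ≤ M.r * N.B + N.r * M.B + M.r * N.r := by
    refine (norm_add_le _ _).trans (add_le_add ((norm_add_le _ _).trans (add_le_add ?_ ?_)) ?_)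
    · rw [norm_mul]; exact mul_le_mul m1 hG (norm_nonneg _) (Nat.cast_nonneg _)
    · rw [norm_mul]; exact mul_le_mul m2 hF (norm_nonneg _) (Nat.cast_nonneg _)
    · rw [norm_mul]; exact mul_le_mul m1 m2 (norm_nonneg _) (Nat.cast_nonneg _)
  rw [norm_div, norm_UU]
  have h4 := div_le_div_of_nonneg_right h3 hU.le
  have h5 : (M.r * N.B + N.r * M.B + M.r * N.r + (er M.l N.l : ℕ) : ℝ) / UU =
      (M.r * N.B + N.r * M.B + M.r * N.r) / UU + (er M.l N.l : ℕ) / UU := add_div _ _ _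
  rw [h5] at hs
  linarith

/-! ### constants -/

theorem cz_nat' (c : ℕ) : cz ⟨Z.p c, Z.p (nat_lit 0)⟩ = (c : ℂ) :=
  Pool.Agent.Helper62.SQM.cz_nat c

theorem TOK.cst (hA : AOK D lf A) (_hP : PT D t) {f : ℂ} (c r : ℕ)
    (h : ‖(UU : ℂ) * f - c‖ ≤ r) : TOK D lf t f (Pool.Agent.Helper86.CT.cst A c r) := by
  refine ⟨vt_mk hA (hA.vcs _) _, fun hgd => ?_⟩
  show ‖(UU : ℂ) * f - lf.ev (A.cs ⟨Z.p c, Z.p (nat_lit 0)⟩) t‖ ≤ (r : ℝ)
  rw [hA.cs _ hgd, cz_nat']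
  exact h

theorem TOK.cst' (hA : AOK D lf A) (hP : PT D t) {f : ℂ} {c : ℕ} (h : (UU : ℂ) * f = c) :
    TOK D lf t f (Pool.Agent.Helper86.CT.cst A c (nat_lit 0)) :=
  TOK.cst hA hP c (nat_lit 0) (by rw [h, sub_self, norm_zero]; simp)

/-! ### the residual of a product -/

/-- small bounds: no overflow -/
theorem res_gd (hA : AOK D lf A) {M N : Mo α} (hM : VT D lf M) (hN : VT D lf N) {z : Cx}
    (h : A.nb (A.sub (A.mul M.v N.v) (A.cs z)) < 2 ^ 150) :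
    lf.gd (A.sub (A.mul M.v N.v) (A.cs z)) ∧ lf.gd (A.mul M.v N.v) ∧ lf.gd (A.cs z) ∧
      lf.gd M.v ∧ lf.gd N.v := by
  have v1 := hA.vmul hM.vl hN.vl
  have v2 := hA.vsub v1 (hA.vcs z)
  have g := hA.nbg v2 h
  obtain ⟨g1, g2, -⟩ := hA.sub v1 (hA.vcs z) g
  obtain ⟨g3, g4, -⟩ := hA.mul hM.vl hN.vl g1
  exact ⟨g, g1, g2, g3, g4⟩

/-- the residual -/
def resT (A : Alg α) (x y : α) : ℕ :=
  Nat.add (A.nb (A.sub (A.mul x y) (A.cs one1))) (nat_lit 16)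

theorem resT_le (hA : AOK D lf A) (hP : PT D t) {M N : Mo α} (hM : VT D lf M) (hN : VT D lf N)
    (hs : A.nb (A.sub (A.mul M.v N.v) (A.cs one1)) < 2 ^ 150) :
    ‖lf.ev M.v t * lf.ev N.v t / UU - UU‖ ≤
      (resT A M.v N.v : ℕ) + (er M.l N.l : ℕ) / UU := by
  obtain ⟨g, g1, g2, g3, g4⟩ := res_gd hA hM hN hs
  have h2 := mul_err hA hP hM hN g1
  have h3 := hA.mag (hA.vsub (hA.vmul hM.vl hN.vl) (hA.vcs one1)) g t hP
  have v1 := hA.vmul hM.vl hN.vl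
  rw [(hA.sub v1 (hA.vcs one1) g).2.2 t, hA.cs _ g2, cz_one1] at h3
  have e : lf.ev M.v t * lf.ev N.v t / UU - UU = (lf.ev (A.mul M.v N.v) t - UU) -
      (lf.ev (A.mul M.v N.v) t - lf.ev M.v t * lf.ev N.v t / UU) := by ring
  rw [e]
  have h4 : ((resT A M.v N.v : ℕ) : ℝ) = (A.nb (A.sub (A.mul M.v N.v) (A.cs one1)) : ℕ) + 16 := by
    unfold resT
    rw [c_add]
    norm_num
  rw [h4]
  have h5 := norm_sub_le (lf.ev (A.mul M.v N.v) t - UU)
    (lf.ev (A.mul M.v N.v) t - lf.ev M.v t * lf.ev N.v t / UU)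
  linarith

/-! ### the reciprocal -/

theorem etaT_le (M N : Mo α) : (resT A M.v N.v : ℝ) + ((er M.l N.l : ℕ) + M.r * N.B) / UU
    ≤ resM A M N := by
  have e : ((resM A M N : ℕ) : ℝ) = resT A M.v N.v + (Nat.shiftRight (Nat.add (er M.l N.l)
      (Nat.mul M.r N.B)) (nat_lit 48) : ℕ) + 1 := by
    show ((Nat.add (Nat.add (resT A M.v N.v) (Nat.shiftRight (Nat.add (er M.l N.l)
      (Nat.mul M.r N.B)) (nat_lit 48))) (nat_lit 1) : ℕ) : ℝ) = _
    rw [c_add, c_add]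
    norm_num
  have h := (shr_le (Nat.add (er M.l N.l) (Nat.mul M.r N.B))).2
  rw [c_add, c_mul] at h
  rw [e]
  linarith

/-- the flags of a reciprocal -/
theorem inv_gd {M : Mo α} (hok : invOK A M = true) :
    A.nb (A.sub (A.mul M.v (A.inv M.v)) (A.cs one1)) < 2 ^ 150 := by
  have hη : resM A M (inv0 A M) ≤ 140737488355328 := Nat.le_of_ble_eq_true hok
  have e : resM A M (inv0 A M) = A.nb (A.sub (A.mul M.v (A.inv M.v)) (A.cs one1)) + 16 +
    Nat.shiftRight (Nat.add (er M.l (inv0 A M).l) (Nat.mul M.r (inv0 A M).B)) 48 + 1 := rfl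
  rw [e] at hη
  have h2 : (140737488355328 : ℕ) < 2 ^ 150 := by norm_num
  omega

theorem TOK.inv (hA : AOK D lf A) (hP : PT D t) {f : ℂ} {M : Mo α}
    (hf : TOK D lf t f M) (hok : invOK A M = true) :
    TOK D lf t f⁻¹ (invM A M) ∧ f ≠ 0 := by
  have hU := UU_pos
  have hUc := UUc_ne
  set N := inv0 A M with hN
  have hNv : VT D lf N := vt_mk hA (hA.vinv hf.val.vl) _
  have hsm : A.nb (A.sub (A.mul M.v N.v) (A.cs one1)) < 2 ^ 150 := inv_gd hok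
  obtain ⟨-, -, -, gM, gN⟩ := res_gd hA hf.val hNv hsm
  have hη : resM A M N ≤ 140737488355328 := Nat.le_of_ble_eq_true hok
  have hη' : ((resM A M N : ℕ) : ℝ) ≤ UU / 2 := by
    have : ((resM A M N : ℕ) : ℝ) ≤ 140737488355328 := by exact_mod_cast hη
    unfold UU
    linarith
  set F := lf.ev M.v t
  set G := lf.ev N.v t
  have hGB : ‖G‖ ≤ N.B := hNv.bd gN t hP
  have hm : ‖(UU : ℂ) * f - F‖ ≤ M.r := hf.mod gM
  have k1 : ‖f * G - UU‖ ≤ resM A M N := by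
    have h2 := resT_le hA hP hf.val hNv hsm
    have e : f * G - UU = (F * G / UU - UU) + ((UU : ℂ) * f - F) * G / UU := by
      field_simp
      ring
    rw [e]
    refine (norm_add_le _ _).trans ?_
    have h3 : ‖((UU : ℂ) * f - F) * G / UU‖ ≤ M.r * N.B / UU := by
      rw [norm_div, norm_UU, norm_mul]
      exact div_le_div_of_nonneg_right (mul_le_mul hm hGB (norm_nonneg _) (Nat.cast_nonneg _))
        hU.le
    have h4 := etaT_le (A := A) M N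
    have e5 : (((er M.l N.l : ℕ) : ℝ) + M.r * N.B) / UU
        = (er M.l N.l : ℕ) / UU + M.r * N.B / UU := by ring
    rw [e5] at h4
    linarith
  have hpos : 0 < UU - resM A M N := by linarith
  have hfG : UU - resM A M N ≤ ‖f * G‖ := by
    have h3 := norm_sub_norm_le (UU : ℂ) (f * G)
    rw [norm_sub_rev, norm_UU] at h3
    linarith
  have hf0 : f ≠ 0 := by
    rintro rfl
    rw [zero_mul, norm_zero] at hfG
    linarith
  refine ⟨⟨⟨hNv.vl, hNv.bd, hNv.lv⟩, fun _ => ?_⟩, hf0⟩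
  show ‖(UU : ℂ) * f⁻¹ - G‖ ≤ ((Nat.add (Nat.div (Nat.mul (resM A M N) N.B)
    (Nat.sub (nat_lit 281474976710656) (resM A M N))) (nat_lit 1) : ℕ) : ℝ)
  have hG0 : G ≠ 0 := by
    intro h
    rw [h, mul_zero, norm_zero] at hfG
    linarith
  have e : (UU : ℂ) * f⁻¹ - G = -((f * G - UU) * G / (f * G)) := by
    field_simp
    ring
  have hsub : ((Nat.sub (nat_lit 281474976710656) (resM A M N) : ℕ) : ℝ) = UU - resM A M N := by
    show ((281474976710656 - resM A M N : ℕ) : ℝ) = _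
    rw [Nat.cast_sub (by omega)]
    unfold UU
    norm_num
  have hsubpos : 0 < Nat.sub (nat_lit 281474976710656) (resM A M N) := by
    show 0 < 281474976710656 - resM A M N
    omega
  have h6 := div_ub (Nat.mul (resM A M N) N.B) hsubpos
  rw [hsub, c_mul] at h6
  rw [e, norm_neg, c_add]
  have h7 : ‖(f * G - UU) * G / (f * G)‖ ≤ resM A M N * N.B / (UU - resM A M N) := by
    rw [norm_div, norm_mul]
    exact div_le_div₀ (by positivity) (mul_le_mul k1 hGB (norm_nonneg _) (Nat.cast_nonneg _)) hpos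
      hfG
  have g1 : ((nat_lit 1 : ℕ) : ℝ) = 1 := by norm_num
  rw [g1]
  exact h7.trans h6

end Pool.Agent.Helper91.TMK
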