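import Pool.Agent.Helper91.TM.A

/-!
Taylor model machine (MP_c75db0, star frame): the theorems of `Helper62.SQM` for machines `Mch`:
bounds of real numbers from their models, square roots.
-/

set_option autoImplicit false
noncomputable section
namespace Pool.Agent.Helper91.TMK

open Pool.Agent.Helper90.C75
open Pool.Agent.Helper90.KMO
open Pool.Agent.Helper86.C75 (Z)
open Pool.Agent.Helper86.CX (Cx andB)
open Pool.Agent.Helper86.CT (Alg Mo er mk)
open Pool.Agent.Helper62.SQM (resS sq1 sq2 sqM cenOK sqOK root_dist)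

variable {α : Type} {D : ℕ} {lf : Mch α} {A : Alg α} {t : ℕ → ℝ}

/-- the value is in a disc around a constant -/
theorem ev_cen (hA : AOK D lf A) (hP : PT D t) {s : α} (hs : lf.vl s) (c : ℕ)
    (hc : A.nb (A.sub s (A.cs ⟨Z.p c, Z.p (nat_lit 0)⟩)) ≤ c) :
    lf.gd s ∧ c < 2 ^ 90 ∧
      ‖lf.ev s t - c‖ ≤ (A.nb (A.sub s (A.cs ⟨Z.p c, Z.p (nat_lit 0)⟩)) : ℕ) := by
  have g := hA.cng c hs hc
  obtain ⟨g1, g2, e⟩ := hA.sub hs (hA.vcs _) g
  refine ⟨g1, hA.csb c g2, ?_⟩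
  have h := hA.mag (hA.vsub hs (hA.vcs _)) g t hP
  rw [e t, hA.cs _ g2, cz_nat'] at h
  exact h

/-- a model in a disc -/
theorem TOK_cen (hA : AOK D lf A) (hP : PT D t) {f : ℂ} {F : Mo α} (hf : TOK D lf t f F) {m c : ℕ}
    (h : cenOK A m c F.r F.v = true) : lf.gd F.v ∧ ‖(UU : ℂ) * f - c‖ ≤ c - m := by
  have h1 : A.nb (A.sub F.v (A.cs ⟨Z.p c, Z.p (nat_lit 0)⟩)) + F.r + m ≤ c :=
    Nat.le_of_ble_eq_true h
  have h2 : ((A.nb (A.sub F.v (A.cs ⟨Z.p c, Z.p (nat_lit 0)⟩)) : ℕ) : ℝ) + F.r + m ≤ c := by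
    exact_mod_cast h1
  obtain ⟨g, -, h3⟩ := ev_cen hA hP hf.val.vl c (by omega)
  have h4 : ‖(UU : ℂ) * f - lf.ev F.v t‖ ≤ F.r := hf.mod g
  refine ⟨g, ?_⟩
  have e : (UU : ℂ) * f - c = (UU * f - lf.ev F.v t) + (lf.ev F.v t - c) := by ring
  rw [e]
  exact (norm_add_le _ _).trans (by linarith)

/-- LOWER BOUND of the real part -/
theorem TOK_lb (hA : AOK D lf A) (hP : PT D t) {f : ℂ} {F : Mo α} (hf : TOK D lf t f F) {m c : ℕ}
    (h : cenOK A m c F.r F.v = true) : (m : ℝ) ≤ UU * f.re := by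
  have h5 := (TOK_cen hA hP hf h).2
  have h6 := (Complex.abs_re_le_norm _).trans h5
  have h7 := (abs_le.1 h6).1
  have h8 : ((UU : ℂ) * f - c).re = UU * f.re - c := by
    rw [Complex.sub_re, Complex.re_ofReal_mul, Complex.natCast_re]
  rw [h8] at h7
  linarith

/-- UPPER BOUND of the real part -/
theorem TOK_ub (hA : AOK D lf A) (hP : PT D t) {f : ℂ} {F : Mo α} (hf : TOK D lf t f F) {m c : ℕ}
    (h : cenOK A m c F.r F.v = true) : UU * f.re ≤ 2 * (c : ℝ) - m := by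
  have h5 := (TOK_cen hA hP hf h).2
  have h6 := (Complex.abs_re_le_norm _).trans h5
  have h7 := (abs_le.1 h6).2
  have h8 : ((UU : ℂ) * f - c).re = UU * f.re - c := by
    rw [Complex.sub_re, Complex.re_ofReal_mul, Complex.natCast_re]
  rw [h8] at h7
  linarith

/-! ### the residual -/

theorem resS_le (hA : AOK D lf A) (hP : PT D t) {f : ℂ} {F S : Mo α} (hf : TOK D lf t f F)
    (hS : VT D lf S) (hs : A.nb (A.sub (A.mul S.v S.v) F.v) < 2 ^ 150) :
    ‖(UU : ℂ) * f - lf.ev S.v t * lf.ev S.v t / UU‖ ≤ (resS A F S : ℕ) := by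
  have hU := UU_pos
  have v1 := hA.vmul hS.vl hS.vl
  have v2 := hA.vsub v1 hf.val.vl
  have g := hA.nbg v2 hs
  obtain ⟨g1, g2, e1⟩ := hA.sub v1 hf.val.vl g
  have h2 := mul_err hA hP hS hS g1
  have h4 : ‖(UU : ℂ) * f - lf.ev F.v t‖ ≤ F.r := hf.mod g2
  have h3 := hA.mag v2 g t hP
  rw [e1 t] at h3
  have h5 := (shr_le (er S.l S.l)).2
  set σ := lf.ev S.v t
  set G := lf.ev F.v t with hG
  set Q := lf.ev (A.mul S.v S.v) t with hQ
  have e : (UU : ℂ) * f - σ * σ / UU = (UU * f - G) - (Q - G) + (Q - σ * σ / UU) := by ring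
  rw [e]
  have g1 := norm_add_le ((UU * f - G) - (Q - G)) (Q - σ * σ / UU)
  have g3 := norm_sub_le ((UU : ℂ) * f - G) (Q - G)
  have g4 : ((resS A F S : ℕ) : ℝ) = (A.nb (A.sub (A.mul S.v S.v) F.v) : ℕ) + 16 +
      (Nat.shiftRight (er S.l S.l) (nat_lit 48) : ℕ) + 1 + F.r := by
    unfold resS
    rw [c_add, c_add, c_add, c_add]
    norm_num
  rw [g4]
  linarith

/-! ### the square root -/

/-- THE MODEL OF THE SQUARE ROOT -/
theorem TOK_sqrt (hA : AOK D lf A) (hP : PT D t) {a : ℝ} (ha : 0 ≤ a) {F : Mo α}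
    (hf : TOK D lf t (a : ℂ) F) {s : α} (hs : lf.vl s) {m c : ℕ}
    (h : sqOK A m c F (mk A s (nat_lit 0)) = true) :
    TOK D lf t ((√a : ℝ) : ℂ) (sqM A m F (mk A s (nat_lit 0))) ∧ 0 < a := by
  have hU := UU_pos
  have hUc := UUc_ne
  obtain ⟨h1, h23⟩ := andB_t h
  obtain ⟨h2, h3⟩ := andB_t h23
  set S := mk A s (nat_lit 0) with hS
  have hSv : VT D lf S := vt_mk hA hs _
  have hm1 : 1 ≤ m := Nat.le_of_ble_eq_true h2
  have hm0 : (0 : ℝ) < m := by exact_mod_cast hm1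
  have hq1 : sq1 (resS A F S) m ≤ m := Nat.le_of_ble_eq_true h3
  set q1 := sq1 (resS A F S) m with hq1'
  have hq2 : (q1 : ℝ) ≤ m := by exact_mod_cast hq1
  have g1 : A.nb (A.sub S.v (A.cs ⟨Z.p c, Z.p (nat_lit 0)⟩)) + 0 + m ≤ c :=
    Nat.le_of_ble_eq_true h1
  have g2 : ((A.nb (A.sub S.v (A.cs ⟨Z.p c, Z.p (nat_lit 0)⟩)) : ℕ) : ℝ) + m ≤ c := by
    exact_mod_cast (by omega : A.nb (A.sub S.v (A.cs ⟨Z.p c, Z.p (nat_lit 0)⟩)) + m ≤ c)
  obtain ⟨gS, hcb, g3'⟩ := ev_cen hA hP hSv.vl c (by omega)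
  -- the mean of the control values
  set σ := lf.ev S.v t with hσ
  have hre : (m : ℝ) ≤ σ.re := by
    have g3 := (Complex.abs_re_le_norm _).trans g3'
    have g4 := (abs_le.1 g3).1
    rw [Complex.sub_re, Complex.natCast_re] at g4
    linarith
  have g5 : ((nat_lit 281474976710656 : ℕ) : ℝ) = UU := by unfold UU; norm_num
  have g6 : ((nat_lit 1 : ℕ) : ℝ) = 1 := by norm_num
  have k3 : resS A F S * 281474976710656 / m + 1 ≤ m := hq1
  -- no overflow
  have hsm : A.nb (A.sub (A.mul S.v S.v) F.v) < 2 ^ 150 := by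
    have e1 : resS A F S = A.nb (A.sub (A.mul S.v S.v) F.v) + 16 +
      Nat.shiftRight (er S.l S.l) 48 + 1 + F.r := rfl
    have e2 : resS A F S * 281474976710656 < m * m := by
      have e3 : resS A F S * 281474976710656 / m < m := by omega
      exact (Nat.div_lt_iff_lt_mul (by omega)).1 e3
    have e4 : m * m < 2 ^ 180 := by
      have e5 : m < 2 ^ 90 := by omega
      calc m * m < 2 ^ 90 * 2 ^ 90 := Nat.mul_lt_mul'' e5 e5
        _ = 2 ^ 180 := by norm_num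
    by_contra hc
    have e6 : 2 ^ 150 ≤ resS A F S := by omega
    have e7 := Nat.mul_le_mul_right 281474976710656 e6
    have e8 : (2 : ℕ) ^ 180 ≤ 2 ^ 150 * 281474976710656 := by norm_num
    omega
  -- the residual
  have hres := resS_le hA hP hf hSv hsm
  set E := resS A F S with hE
  set y := UU * √a with hy
  have hy0 : 0 ≤ y := mul_nonneg hU.le (Real.sqrt_nonneg _)
  have he : ‖((y : ℝ) : ℂ) ^ 2 - σ ^ 2‖ ≤ E * UU := by
    have e1 : ((y : ℝ) : ℂ) ^ 2 = UU * (UU * (a : ℂ)) := by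
      have e2 : y ^ 2 = UU * (UU * a) := by
        rw [hy, mul_pow, Real.sq_sqrt ha]
        ring
      have e3 : ((y : ℝ) : ℂ) ^ 2 = ((y ^ 2 : ℝ) : ℂ) := by push_cast; ring
      rw [e3, e2]
      push_cast
      ring
    have e4 : ((y : ℝ) : ℂ) ^ 2 - σ ^ 2 = UU * (UU * (a : ℂ) - σ * σ / UU) := by
      rw [e1]
      field_simp
    rw [e4, norm_mul, norm_UU, mul_comm]
    exact mul_le_mul_of_nonneg_right hres hU.le
  have hr1 : E * UU / m ≤ q1 := by
    have k := div_ub (Nat.mul E (nat_lit 281474976710656)) (Nat.lt_of_lt_of_le Nat.zero_lt_one hm1)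
    rw [c_mul, g5] at k
    have k2 : ((q1 : ℕ) : ℝ) = (Nat.div (Nat.mul E (nat_lit 281474976710656)) m : ℕ) + 1 := by
      show ((Nat.add (Nat.div (Nat.mul E (nat_lit 281474976710656)) m) (nat_lit 1) : ℕ) : ℝ) = _
      rw [c_add, g6]
    rw [k2]
    exact k
  obtain ⟨k1, -⟩ := root_dist hy0 hre hm0 he hr1 (by linarith)
  have ha0 : 0 < a := by
    rcases ha.lt_or_eq with h0 | h0
    · exact h0
    · exfalso
      have h6 : y = 0 := by rw [hy, ← h0, Real.sqrt_zero, mul_zero]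
      have h7 : (m : ℝ) * m ≤ E * UU := by
        refine le_trans ?_ he
        rw [h6, Complex.ofReal_zero, zero_pow two_ne_zero, zero_sub, norm_neg, norm_pow, sq]
        have h8 := hre.trans (Complex.re_le_norm σ)
        exact mul_le_mul h8 h8 hm0.le (norm_nonneg _)
      have k4 : m * m ≤ E * 281474976710656 := by
        have : (m : ℝ) * m ≤ (E : ℝ) * 281474976710656 := by
          have e0 : UU = 281474976710656 := rfl
          rw [e0] at h7
          exact h7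
        exact_mod_cast this
      have k5 : m ≤ E * 281474976710656 / m := (Nat.le_div_iff_mul_le hm1).2 k4
      omega
  refine ⟨⟨⟨hSv.vl, hSv.bd, hSv.lv⟩, fun _ => ?_⟩, ha0⟩
  show ‖(UU : ℂ) * ((√a : ℝ) : ℂ) - σ‖ ≤ ((sq2 E m : ℕ) : ℝ)
  have e5 : (UU : ℂ) * ((√a : ℝ) : ℂ) = ((y : ℝ) : ℂ) := by
    rw [hy]
    push_cast
    ring
  rw [e5]
  refine k1.trans ?_
  have hb : 0 < Nat.sub (Nat.add m m) q1 := by
    show 0 < m + m - q1
    omega
  have k := div_ub (Nat.mul E (nat_lit 281474976710656)) hb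
  rw [c_mul, g5] at k
  have hb2 : ((Nat.sub (Nat.add m m) q1 : ℕ) : ℝ) = 2 * m - q1 := by
    show ((m + m - q1 : ℕ) : ℝ) = _
    rw [Nat.cast_sub (by omega)]
    push_cast
    ring
  rw [hb2] at k
  have k2 : ((sq2 E m : ℕ) : ℝ) = (Nat.div (Nat.mul E (nat_lit 281474976710656))
      (Nat.sub (Nat.add m m) q1) : ℕ) + 1 := by
    show ((Nat.add (Nat.div (Nat.mul E (nat_lit 281474976710656))
      (Nat.sub (Nat.add m m) q1)) (nat_lit 1) : ℕ) : ℝ) = _
    rw [c_add, g6]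
  rw [k2]
  exact k

/-- the value of a function given by a number of the machine -/
def cval (lf : Mch α) (t : ℕ → ℝ) (v : α) : ℂ := lf.ev v t / UU

theorem TOK_val (hA : AOK D lf A) {v : α} (hv : lf.vl v) :
    TOK D lf t (cval lf t v) (mk A v (nat_lit 0)) := by
  refine ⟨vt_mk hA hv _, fun _ => ?_⟩
  show ‖(UU : ℂ) * (lf.ev v t / UU) - lf.ev v t‖ ≤ ((nat_lit 0 : ℕ) : ℝ)
  rw [mul_div_cancel₀ _ UUc_ne, sub_self, norm_zero]
  exact Nat.cast_nonneg _

end Pool.Agent.Helper91.TMK
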