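import Pool.Agent.C75W.Im

/-!
Taylor model machine (MP_c75db0, star frame): numbers packed in digits of 160 bits.
-/

set_option autoImplicit false
set_option exponentiation.threshold 100000
namespace Pool.Agent.Helper91.TM

/-- the number with the digits `d 0, .., d (n - 1)` -/
def Sm : ℕ → (ℕ → ℕ) → ℕ
  | 0, _ => 0
  | n + 1, d => Sm n d + d n * 2 ^ (160 * n)

theorem Sm_eq (n : ℕ) (d : ℕ → ℕ) : Sm n d = ∑ i ∈ Finset.range n, d i * 2 ^ (160 * i) := by
  induction n with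
  | zero => rfl
  | succ n ih => rw [Sm, ih, Finset.sum_range_succ]

theorem Sm_succ' (n : ℕ) (d : ℕ → ℕ) : Sm (n + 1) d = d 0 + 2 ^ 160 * Sm n (fun i => d (i + 1)) := by
  have e : ∑ i ∈ Finset.range n, d (i + 1) * 2 ^ (160 * (i + 1)) =
      2 ^ 160 * ∑ i ∈ Finset.range n, d (i + 1) * 2 ^ (160 * i) := by
    rw [Finset.mul_sum]
    refine Finset.sum_congr rfl fun i _ => ?_
    rw [show 160 * (i + 1) = 160 + 160 * i by ring, pow_add]
    ring
  rw [Sm_eq, Sm_eq, Finset.sum_range_succ', e, mul_zero, pow_zero, mul_one, add_comm]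

theorem Sm_congr {n : ℕ} {d d' : ℕ → ℕ} (h : ∀ i < n, d i = d' i) : Sm n d = Sm n d' := by
  rw [Sm_eq, Sm_eq]
  exact Finset.sum_congr rfl fun i hi => by rw [h i (Finset.mem_range.1 hi)]

theorem Sm_lt {n : ℕ} {d : ℕ → ℕ} (h : ∀ i < n, d i < 2 ^ 160) : Sm n d < 2 ^ (160 * n) := by
  induction n with
  | zero => simp [Sm]
  | succ n ih =>
    have h1 := ih fun i hi => h i (by omega)
    have h2 := h n (by omega)
    rw [Sm, show 160 * (n + 1) = 160 + 160 * n by ring, pow_add]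
    have h3 : d n + 1 ≤ 2 ^ 160 := h2
    calc Sm n d + d n * 2 ^ (160 * n) < 2 ^ (160 * n) + d n * 2 ^ (160 * n) := by omega
      _ = (d n + 1) * 2 ^ (160 * n) := by ring
      _ ≤ 2 ^ 160 * 2 ^ (160 * n) := Nat.mul_le_mul_right _ h3

theorem Sm_add (n : ℕ) (d d' : ℕ → ℕ) : Sm n (fun i => d i + d' i) = Sm n d + Sm n d' := by
  induction n with
  | zero => rfl
  | succ n ih => rw [Sm, Sm, Sm, ih]; ring

theorem Sm_mul (n c : ℕ) (d : ℕ → ℕ) : Sm n (fun i => d i * c) = Sm n d * c := by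
  induction n with
  | zero => simp [Sm]
  | succ n ih => rw [Sm, Sm, ih]; ring

theorem Sm_sub {n : ℕ} {d d' : ℕ → ℕ} (h : ∀ i < n, d' i ≤ d i) :
    Sm n (fun i => d i - d' i) = Sm n d - Sm n d' := by
  have e : Sm n d = Sm n (fun i => d i - d' i) + Sm n d' := by
    rw [← Sm_add]
    exact Sm_congr fun i hi => (Nat.sub_add_cancel (h i hi)).symm
  rw [e, Nat.add_sub_cancel]

/-! ### masks -/

theorem land_split {k a b a' b' : ℕ} (ha : a < 2 ^ k) (ha' : a' < 2 ^ k) :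
    (a + 2 ^ k * b) &&& (a' + 2 ^ k * b') = (a &&& a') + 2 ^ k * (b &&& b') := by
  have hl : a &&& a' < 2 ^ k := Nat.lt_of_le_of_lt Nat.and_le_left ha
  apply Nat.eq_of_testBit_eq
  intro i
  rw [Nat.testBit_and, add_comm a, add_comm a', add_comm (a &&& a'),
    Nat.testBit_two_pow_mul_add _ ha, Nat.testBit_two_pow_mul_add _ ha',
    Nat.testBit_two_pow_mul_add _ hl]
  split_ifs
  · rw [Nat.testBit_and]
  · rw [Nat.testBit_and]

/-- a mask -/
theorem Sm_land {n : ℕ} {d m : ℕ → ℕ} (hd : ∀ i < n, d i < 2 ^ 160)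
    (hm : ∀ i < n, m i < 2 ^ 160) (T : ℕ) :
    (Sm n d + 2 ^ (160 * n) * T) &&& Sm n m = Sm n (fun i => d i &&& m i) := by
  induction n generalizing T with
  | zero =>
    simp [Sm]
  | succ n ih =>
    have h1 : Sm n d < 2 ^ (160 * n) := Sm_lt fun i hi => hd i (by omega)
    have h2 : Sm n m < 2 ^ (160 * n) := Sm_lt fun i hi => hm i (by omega)
    have e1 : Sm (n + 1) d + 2 ^ (160 * (n + 1)) * T =
        Sm n d + 2 ^ (160 * n) * (d n + 2 ^ 160 * T) := by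
      rw [Sm, show 160 * (n + 1) = 160 * n + 160 by ring, pow_add]
      ring
    have e2 : Sm (n + 1) m = Sm n m + 2 ^ (160 * n) * (m n + 2 ^ 160 * 0) := by
      rw [Sm]
      ring
    rw [e1, e2, land_split h1 h2, land_split (hd n (by omega)) (hm n (by omega))]
    have e3 := ih (fun i hi => hd i (by omega)) (fun i hi => hm i (by omega)) 0
    rw [mul_zero, add_zero] at e3
    rw [e3, Sm, Nat.and_zero]
    ring

/-- a shift and a mask of the low bits -/
theorem Sm_shift {s : ℕ} (hs : s ≤ 160) : ∀ {n : ℕ} {d m : ℕ → ℕ} (_ : ∀ i < n, d i < 2 ^ 160)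
    (_ : ∀ i < n, m i < 2 ^ (160 - s)) (T : ℕ),
    ((Sm n d + 2 ^ (160 * n) * T) / 2 ^ s) &&& Sm n m = Sm n (fun i => (d i / 2 ^ s) &&& m i) := by
  intro n
  induction n with
  | zero =>
    intro d m _ _ T
    simp [Sm]
  | succ n ih =>
    intro d m hd hm T
    have e1 : Sm (n + 1) d + 2 ^ (160 * (n + 1)) * T = d 0 + 2 ^ s * (2 ^ (160 - s) *
        (Sm n (fun i => d (i + 1)) + 2 ^ (160 * n) * T)) := by
      have e0 : (2 : ℕ) ^ 160 = 2 ^ s * 2 ^ (160 - s) := by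
        rw [← pow_add, show s + (160 - s) = 160 by omega]
      rw [Sm_succ', show 160 * (n + 1) = 160 + 160 * n by ring, pow_add 2 160 (160 * n), e0]
      ring
    rw [e1, Nat.add_mul_div_left _ _ (by positivity)]
    set x := Sm n (fun i => d (i + 1)) + 2 ^ (160 * n) * T with hx
    have hdiv : x = x % 2 ^ s + 2 ^ s * (x / 2 ^ s) := (Nat.mod_add_div x (2 ^ s)).symm
    have hd0 : d 0 / 2 ^ s < 2 ^ (160 - s) := by
      rw [Nat.div_lt_iff_lt_mul (by positivity), ← pow_add, show 160 - s + s = 160 by omega]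
      exact hd 0 (by omega)
    have e2 : d 0 / 2 ^ s + 2 ^ (160 - s) * x =
        (d 0 / 2 ^ s + 2 ^ (160 - s) * (x % 2 ^ s)) + 2 ^ 160 * (x / 2 ^ s) := by
      conv_lhs => rw [hdiv]
      rw [mul_add, ← mul_assoc, ← pow_add, show 160 - s + s = 160 by omega]
      ring
    have hlt : d 0 / 2 ^ s + 2 ^ (160 - s) * (x % 2 ^ s) < 2 ^ 160 := by
      have h3 : x % 2 ^ s + 1 ≤ 2 ^ s := Nat.mod_lt _ (by positivity)
      calc d 0 / 2 ^ s + 2 ^ (160 - s) * (x % 2 ^ s) < 2 ^ (160 - s) * (x % 2 ^ s + 1) := by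
            rw [mul_add]; omega
        _ ≤ 2 ^ (160 - s) * 2 ^ s := Nat.mul_le_mul_left _ h3
        _ = 2 ^ 160 := by rw [← pow_add, show 160 - s + s = 160 by omega]
    have hm0 : m 0 < 2 ^ 160 := (hm 0 (by omega)).trans_le (Nat.pow_le_pow_right (by norm_num) (by omega))
    rw [e2, Sm_succ', Sm_succ', land_split hlt hm0, ih (fun i hi => hd (i + 1) (by omega))
      (fun i hi => hm (i + 1) (by omega)) T]
    congr 1
    have h4 := land_split (k := 160 - s) (a := d 0 / 2 ^ s) (b := x % 2 ^ s) (a' := m 0) (b' := 0)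
      hd0 (hm 0 (by omega))
    rw [mul_zero, add_zero, Nat.and_zero, mul_zero, add_zero] at h4
    exact h4

/-! ### sums of digits -/

theorem Sm_mod (n : ℕ) (d : ℕ → ℕ) :
    Sm n d % (2 ^ 160 - 1) = (∑ i ∈ Finset.range n, d i) % (2 ^ 160 - 1) := by
  have h : ∀ k : ℕ, 2 ^ (160 * k) ≡ 1 [MOD 2 ^ 160 - 1] := by
    intro k
    rw [pow_mul]
    have h1 : 2 ^ 160 ≡ 1 [MOD 2 ^ 160 - 1] := by
      refine (Nat.modEq_iff_dvd' (by norm_num)).2 ?_ |>.symm
      exact dvd_refl _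
    simpa using h1.pow k
  rw [Sm_eq]
  refine Nat.ModEq.sum fun i _ => ?_
  simpa using (Nat.ModEq.refl (d i)).mul (h i)

theorem Sm_ds {n : ℕ} {d : ℕ → ℕ} (h : ∑ i ∈ Finset.range n, d i < 2 ^ 160 - 1) :
    Sm n d % (2 ^ 160 - 1) = ∑ i ∈ Finset.range n, d i := by
  rw [Sm_mod, Nat.mod_eq_of_lt h]

/-- blocks -/
theorem Sm_div {k : ℕ} : ∀ {n : ℕ} {d : ℕ → ℕ} (_ : ∀ i < k + n, d i < 2 ^ 160),
    Sm (k + n) d / 2 ^ (160 * k) = Sm n (fun i => d (k + i)) := by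
  intro n d hd
  have e : Sm (k + n) d = Sm k d + 2 ^ (160 * k) * Sm n (fun i => d (k + i)) := by
    rw [Sm_eq, Sm_eq, Sm_eq, Finset.sum_range_add, Finset.mul_sum]
    congr 1
    refine Finset.sum_congr rfl fun i _ => ?_
    rw [show 160 * (k + i) = 160 * k + 160 * i by ring, pow_add]
    ring
  rw [e, Nat.add_mul_div_left _ _ (by positivity), Nat.div_eq_of_lt
    (Sm_lt fun i hi => hd i (by omega)), zero_add]

theorem Sm_low {k n : ℕ} {d : ℕ → ℕ} (hd : ∀ i < k + n, d i < 2 ^ 160) :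
    Sm (k + n) d % 2 ^ (160 * k) = Sm k d := by
  have e : Sm (k + n) d = Sm k d + 2 ^ (160 * k) * Sm n (fun i => d (k + i)) := by
    rw [Sm_eq, Sm_eq, Sm_eq, Finset.sum_range_add, Finset.mul_sum]
    congr 1
    refine Finset.sum_congr rfl fun i _ => ?_
    rw [show 160 * (k + i) = 160 * k + 160 * i by ring, pow_add]
    ring
  rw [e, Nat.add_mul_mod_self_left, Nat.mod_eq_of_lt (Sm_lt fun i hi => hd i (by omega))]

/-! ### integers modulo `2 ^ (160 n)` -/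

/-- the integer with the digits `c i` -/
def Sz (n : ℕ) (c : ℕ → ℤ) : ℤ := ∑ i ∈ Finset.range n, c i * 2 ^ (160 * i)

theorem Sz_cast (n : ℕ) (d : ℕ → ℕ) : ((Sm n d : ℕ) : ℤ) = Sz n (fun i => (d i : ℤ)) := by
  rw [Sm_eq, Sz]
  push_cast
  rfl

theorem Sz_add (n : ℕ) (c c' : ℕ → ℤ) : Sz n (fun i => c i + c' i) = Sz n c + Sz n c' := by
  unfold Sz
  rw [← Finset.sum_add_distrib]
  exact Finset.sum_congr rfl fun i _ => by ring

theorem Sz_sub (n : ℕ) (c c' : ℕ → ℤ) : Sz n (fun i => c i - c' i) = Sz n c - Sz n c' := by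
  unfold Sz
  rw [← Finset.sum_sub_distrib]
  exact Finset.sum_congr rfl fun i _ => by ring

theorem Sz_congr {n : ℕ} {c c' : ℕ → ℤ} (h : ∀ i < n, c i = c' i) : Sz n c = Sz n c' :=
  Finset.sum_congr rfl fun i hi => by rw [h i (Finset.mem_range.1 hi)]

/-- from the residue to the digits -/
theorem Sm_of {n N : ℕ} {c : ℕ → ℤ} {o d : ℕ → ℕ} (h : (N : ℤ) ≡ Sz n c [ZMOD 2 ^ (160 * n)])
    (hd : ∀ i < n, d i < 2 ^ 160) (hc : ∀ i < n, c i + o i = d i) :
    ∃ T : ℕ, N + Sm n o = Sm n d + 2 ^ (160 * n) * T := by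
  have h1 : ((N + Sm n o : ℕ) : ℤ) ≡ ((Sm n d : ℕ) : ℤ) [ZMOD 2 ^ (160 * n)] := by
    push_cast
    rw [Sz_cast, Sz_cast]
    have e : Sz n (fun i => (d i : ℤ)) = Sz n c + Sz n (fun i => (o i : ℤ)) := by
      rw [← Sz_add]
      exact Sz_congr fun i hi => (hc i hi).symm
    rw [e]
    exact h.add_right _
  have h2 : (N + Sm n o) ≡ Sm n d [MOD 2 ^ (160 * n)] := by
    rw [← Int.natCast_modEq_iff]
    push_cast
    push_cast at h1
    exact h1
  have h3 := Sm_lt hd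
  refine ⟨(N + Sm n o) / 2 ^ (160 * n), ?_⟩
  have h4 : (N + Sm n o) % 2 ^ (160 * n) = Sm n d := by
    rw [h2, Nat.mod_eq_of_lt h3]
  have h5 := Nat.mod_add_div (N + Sm n o) (2 ^ (160 * n))
  omega

end Pool.Agent.Helper91.TM
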