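import Pool.Agent.Helper91.TM.D

/-!
Taylor model machine (MP_c75db0, star frame): polynomials of total degree `≤ 6` in three variables,
with coefficients numbered by `43 i + 44 j + 50 k`; products.
-/

set_option autoImplicit false
noncomputable section
namespace Pool.Agent.Helper91.TM

open Finset

/-- the degree, the exponents -/
def xd (i : ℕ) : ℕ := i / 43
def x1 (i : ℕ) : ℕ := i % 43 % 7
def x2 (i : ℕ) : ℕ := i % 43 / 7
def x0 (i : ℕ) : ℕ := xd i - (x1 i + x2 i)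
/-- the digits in use -/
def vb (i : ℕ) : Bool := Nat.blt i 301 && Nat.ble (x1 i + x2 i) (xd i)

theorem vb_iff (i : ℕ) : vb i = true ↔ i < 301 ∧ i % 43 % 7 + i % 43 / 7 ≤ i / 43 := by
  unfold vb x1 x2 xd
  simp

theorem x_of {D B C : ℕ} (hB : B < 7) (h : B + 7 * C < 43) :
    xd (43 * D + (B + 7 * C)) = D ∧ x1 (43 * D + (B + 7 * C)) = B ∧
      x2 (43 * D + (B + 7 * C)) = C := by
  have e1 : (43 * D + (B + 7 * C)) / 43 = D := by omega
  have e2 : (43 * D + (B + 7 * C)) % 43 = B + 7 * C := by omega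
  unfold xd x1 x2
  rw [e1, e2]
  refine ⟨rfl, ?_, ?_⟩ <;> omega

theorem vb_rep {i : ℕ} (h : vb i = true) : ∃ D B C : ℕ, i = 43 * D + (B + 7 * C) ∧ B < 7 ∧
    B + C ≤ D ∧ D ≤ 6 := by
  rw [vb_iff] at h
  obtain ⟨h1, h2⟩ := h
  have e1 := Nat.div_add_mod i 43
  have e2 := Nat.mod_add_div (i % 43) 7
  refine ⟨i / 43, i % 43 % 7, i % 43 / 7, ?_, Nat.mod_lt _ (by norm_num), h2, ?_⟩
  · rw [e2]
    exact e1.symm
  · omega

theorem vb_of {D B C : ℕ} (hB : B < 7) (h : B + C ≤ D) (hD : D ≤ 6) :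
    vb (43 * D + (B + 7 * C)) = true := by
  obtain ⟨h1, h2, h3⟩ := x_of (D := D) (B := B) (C := C) hB (by omega)
  have e : vb (43 * D + (B + 7 * C)) = (Nat.blt (43 * D + (B + 7 * C)) 301 &&
      Nat.ble (x1 (43 * D + (B + 7 * C)) + x2 (43 * D + (B + 7 * C)))
        (xd (43 * D + (B + 7 * C)))) := rfl
  rw [e, h1, h2, h3]
  have g1 : Nat.blt (43 * D + (B + 7 * C)) 301 = true := by
    rw [Nat.blt_eq]
    omega
  have g2 : Nat.ble (B + C) D = true := Nat.ble_eq_true_of_le h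
  rw [g1, g2]
  rfl

theorem vb_add {i j : ℕ} (hi : vb i = true) (hj : vb j = true) (h : i + j < 301) :
    vb (i + j) = true ∧ x0 (i + j) = x0 i + x0 j ∧ x1 (i + j) = x1 i + x1 j ∧
      x2 (i + j) = x2 i + x2 j ∧ xd (i + j) = xd i + xd j := by
  obtain ⟨D, B, C, rfl, b1, b2, b3⟩ := vb_rep hi
  obtain ⟨D', B', C', rfl, c1, c2, c3⟩ := vb_rep hj
  have e : 43 * D + (B + 7 * C) + (43 * D' + (B' + 7 * C')) =
      43 * (D + D') + ((B + B') + 7 * (C + C')) := by ring
  have hD : D + D' ≤ 6 := by omega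
  obtain ⟨h1, h2, h3⟩ := x_of (D := D) (B := B) (C := C) b1 (by omega)
  obtain ⟨g1, g2, g3⟩ := x_of (D := D') (B := B') (C := C') c1 (by omega)
  obtain ⟨k1, k2, k3⟩ := x_of (D := D + D') (B := B + B') (C := C + C') (by omega) (by omega)
  have k4 := vb_of (D := D + D') (B := B + B') (C := C + C') (by omega) (by omega) hD
  rw [e]
  refine ⟨k4, ?_, by rw [k2, h2, g2], by rw [k3, h3, g3], by rw [k1, h1, g1]⟩
  unfold x0
  rw [k1, k2, k3, h1, h2, h3, g1, g2, g3]
  omega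

theorem vb_hi {i j : ℕ} (hi : vb i = true) (hj : vb j = true) (h : 301 ≤ i + j) :
    7 ≤ xd i + xd j := by
  obtain ⟨D, B, C, rfl, b1, b2, b3⟩ := vb_rep hi
  obtain ⟨D', B', C', rfl, c1, c2, c3⟩ := vb_rep hj
  obtain ⟨h1, -, -⟩ := x_of (D := D) (B := B) (C := C) b1 (by omega)
  obtain ⟨g1, -, -⟩ := x_of (D := D') (B := B') (C := C') c1 (by omega)
  rw [h1, g1]
  omega

/-- the monomial -/
def mu (s : ℕ → ℝ) (i : ℕ) : ℝ := s 0 ^ x0 i * s 1 ^ x1 i * s 2 ^ x2 i

theorem mu_add {s : ℕ → ℝ} {i j : ℕ} (hi : vb i = true) (hj : vb j = true) (h : i + j < 301) :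
    mu s (i + j) = mu s i * mu s j := by
  obtain ⟨-, h0, h1, h2, -⟩ := vb_add hi hj h
  unfold mu
  rw [h0, h1, h2, pow_add, pow_add, pow_add]
  ring

/-- coordinates between `-1` and `1` -/
def SB (s : ℕ → ℝ) : Prop := ∀ j < 3, |s j| ≤ 1

theorem mu_le {s : ℕ → ℝ} (hs : SB s) (i : ℕ) : |mu s i| ≤ 1 := by
  unfold mu
  rw [abs_mul, abs_mul, abs_pow, abs_pow, abs_pow]
  have h0 := pow_le_one₀ (n := x0 i) (abs_nonneg _) (hs 0 (by norm_num))
  have h1 := pow_le_one₀ (n := x1 i) (abs_nonneg _) (hs 1 (by norm_num))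
  have h2 := pow_le_one₀ (n := x2 i) (abs_nonneg _) (hs 2 (by norm_num))
  have p0 := pow_nonneg (abs_nonneg (s 0)) (x0 i)
  have p1 := pow_nonneg (abs_nonneg (s 1)) (x1 i)
  have p2 := pow_nonneg (abs_nonneg (s 2)) (x2 i)
  have h3 := mul_le_one₀ h0 p1 h1
  exact mul_le_one₀ h3 p2 h2

/-- the value of the polynomial with the coefficients `z` -/
def Ev (s : ℕ → ℝ) (z : ℕ → ℂ) : ℂ := ∑ i ∈ range 301, z i * (mu s i : ℂ)

/-- only the digits in use -/
def Sp {R : Type*} [Zero R] (z : ℕ → R) : Prop := ∀ i, vb i = false → z i = 0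

/-- the product of the coefficients -/
def cv {R : Type*} [Semiring R] (a b : ℕ → R) (k : ℕ) : R := ∑ p ∈ antidiagonal k, a p.1 * b p.2

theorem split_sum {R : Type*} [AddCommMonoid R] (n : ℕ) (f : ℕ × ℕ → R) :
    ∑ p ∈ range n ×ˢ range n, f p = ∑ k ∈ range n, ∑ p ∈ antidiagonal k, f p +
      ∑ p ∈ (range n ×ˢ range n).filter (fun p => ¬ (p.1 + p.2 < n)), f p := by
  rw [← Finset.sum_filter_add_sum_filter_not (range n ×ˢ range n) (fun p => p.1 + p.2 < n)]
  congr 1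
  rw [← Finset.sum_fiberwise_of_maps_to (t := range n) (g := fun p : ℕ × ℕ => p.1 + p.2)]
  · refine Finset.sum_congr rfl fun k hk => ?_
    refine Finset.sum_congr ?_ fun _ _ => rfl
    ext p
    rw [mem_range] at hk
    simp only [mem_filter, mem_product, mem_range, HasAntidiagonal.mem_antidiagonal]
    omega
  · intro p hp
    simp only [mem_filter, mem_product, mem_range] at hp
    exact mem_range.2 hp.2

/-- the dropped part -/
def Hd (s : ℕ → ℝ) (a b : ℕ → ℂ) : ℂ :=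
  ∑ p ∈ (range 301 ×ˢ range 301).filter (fun p => ¬ (p.1 + p.2 < 301)),
    (a p.1 * (mu s p.1 : ℂ)) * (b p.2 * (mu s p.2 : ℂ))

theorem Ev_mul {s : ℕ → ℝ} {a b : ℕ → ℂ} (ha : Sp a) (hb : Sp b) :
    Ev s a * Ev s b = Ev s (cv a b) + Hd s a b := by
  unfold Ev Hd
  rw [Finset.sum_mul_sum, ← Finset.sum_product', split_sum]
  congr 1
  refine Finset.sum_congr rfl fun k hk => ?_
  unfold cv
  rw [Finset.sum_mul]
  refine Finset.sum_congr rfl fun p hp => ?_
  rw [HasAntidiagonal.mem_antidiagonal] at hp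
  rw [mem_range] at hk
  cases h1 : vb p.1 with
  | false => rw [ha _ h1]; ring
  | true =>
    cases h2 : vb p.2 with
    | false => rw [hb _ h2]; ring
    | true =>
      rw [← hp, mu_add h1 h2 (by omega)]
      push_cast
      ring

theorem cv_sp {R : Type*} [Semiring R] {a b : ℕ → R} (ha : Sp a) (hb : Sp b) {k : ℕ}
    (hk : k < 301) (h : vb k = false) : cv a b k = 0 := by
  unfold cv
  refine Finset.sum_eq_zero fun p hp => ?_
  rw [HasAntidiagonal.mem_antidiagonal] at hp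
  cases h1 : vb p.1 with
  | false => rw [ha _ h1, zero_mul]
  | true =>
    cases h2 : vb p.2 with
    | false => rw [hb _ h2, mul_zero]
    | true =>
      have h3 := (vb_add h1 h2 (by omega)).1
      rw [hp, h] at h3
      exact absurd h3 (by decide)

theorem mul_split {R : Type*} [CommRing R] (n : ℕ) (q : ℕ → R)
    (hq : ∀ i j, q i * q j = q (i + j)) (a b : ℕ → R) :
    (∑ i ∈ range n, a i * q i) * (∑ i ∈ range n, b i * q i) =
      ∑ k ∈ range n, cv a b k * q k + q n *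
        ∑ p ∈ (range n ×ˢ range n).filter (fun p => ¬ (p.1 + p.2 < n)),
          (a p.1 * b p.2) * q (p.1 + p.2 - n) := by
  rw [Finset.sum_mul_sum, ← Finset.sum_product', split_sum, Finset.mul_sum]
  congr 1
  · refine Finset.sum_congr rfl fun k _ => ?_
    unfold cv
    rw [Finset.sum_mul]
    refine Finset.sum_congr rfl fun p hp => ?_
    rw [HasAntidiagonal.mem_antidiagonal] at hp
    rw [← hp, ← hq]
    ring
  · refine Finset.sum_congr rfl fun p hp => ?_
    simp only [mem_filter, mem_product, mem_range] at hp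
    have e : q p.1 * q p.2 = q n * q (p.1 + p.2 - n) := by
      rw [hq, hq]
      congr 1
      omega
    linear_combination (a p.1 * b p.2) * e

/-- the packed product -/
theorem Sz_mul (n : ℕ) (a b : ℕ → ℤ) :
    ∃ T : ℤ, Sz n a * Sz n b = Sz n (cv a b) + 2 ^ (160 * n) * T :=
  ⟨_, mul_split n (fun i => (2 : ℤ) ^ (160 * i)) (fun i j => by
    rw [mul_add, pow_add]) a b⟩

/-! ### the norms of the homogeneous parts -/

/-- the sum of the moduli of the coefficients of degree `d` -/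
def Nh (z : ℕ → ℂ) (d : ℕ) : ℝ := ∑ r ∈ range 43, ‖z (43 * d + r)‖

theorem Nh_nn (z : ℕ → ℂ) (d : ℕ) : 0 ≤ Nh z d := Finset.sum_nonneg fun _ _ => norm_nonneg _

theorem sum_blk {R : Type*} [AddCommMonoid R] (f : ℕ → R) : ∑ i ∈ range 301, f i =
    (∑ r ∈ range 43, f (43 * 0 + r)) + (∑ r ∈ range 43, f (43 * 1 + r)) +
    (∑ r ∈ range 43, f (43 * 2 + r)) + (∑ r ∈ range 43, f (43 * 3 + r)) +
    (∑ r ∈ range 43, f (43 * 4 + r)) + (∑ r ∈ range 43, f (43 * 5 + r)) +
    (∑ r ∈ range 43, f (43 * 6 + r)) := by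
  have e : (301 : ℕ) = 43 + 43 + 43 + 43 + 43 + 43 + 43 := rfl
  rw [e, Finset.sum_range_add, Finset.sum_range_add, Finset.sum_range_add, Finset.sum_range_add,
    Finset.sum_range_add, Finset.sum_range_add]
  simp only [mul_zero, zero_add, mul_one]

theorem sum_blk2 (z : ℕ → ℂ) (g : ℕ → ℝ) : ∑ i ∈ range 301, ‖z i‖ * g (xd i) =
    Nh z 0 * g 0 + Nh z 1 * g 1 + Nh z 2 * g 2 + Nh z 3 * g 3 + Nh z 4 * g 4 + Nh z 5 * g 5 +
      Nh z 6 * g 6 := by
  rw [sum_blk]
  have h : ∀ d, ∑ r ∈ range 43, ‖z (43 * d + r)‖ * g (xd (43 * d + r)) = Nh z d * g d := by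
    intro d
    unfold Nh
    rw [Finset.sum_mul]
    refine Finset.sum_congr rfl fun r hr => ?_
    rw [mem_range] at hr
    congr 2
    unfold xd
    omega
  rw [h, h, h, h, h, h, h]

/-- the bound of the dropped part -/
def hb (A B : ℕ → ℝ) : ℝ := A 1 * B 6 + A 2 * (B 5 + B 6) + A 3 * (B 4 + B 5 + B 6) +
  A 4 * (B 3 + B 4 + B 5 + B 6) + A 5 * (B 2 + B 3 + B 4 + B 5 + B 6) +
  A 6 * (B 1 + B 2 + B 3 + B 4 + B 5 + B 6)

set_option maxRecDepth 20000 in
/-- BOUND OF THE DROPPED PART -/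
theorem Hd_le {s : ℕ → ℝ} (hs : SB s) {a b : ℕ → ℂ} (ha : Sp a) (hb' : Sp b) :
    ‖Hd s a b‖ ≤ hb (Nh a) (Nh b) := by
  have h1 : ‖Hd s a b‖ ≤ ∑ p ∈ range 301 ×ˢ range 301,
      (if 7 ≤ xd p.1 + xd p.2 then ‖a p.1‖ * ‖b p.2‖ else 0) := by
    unfold Hd
    refine (norm_sum_le _ _).trans ?_
    rw [Finset.sum_filter]
    refine Finset.sum_le_sum fun p _ => ?_
    by_cases h2 : p.1 + p.2 < 301
    · have e1 : (if ¬(p.1 + p.2 < 301) then
          ‖a p.1 * (mu s p.1 : ℂ) * (b p.2 * (mu s p.2 : ℂ))‖ else 0) = 0 := by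
        simp only [h2, not_true_eq_false, if_false]
      rw [e1]
      split_ifs
      · positivity
      · exact le_rfl
    · have e1 : (if ¬(p.1 + p.2 < 301) then
          ‖a p.1 * (mu s p.1 : ℂ) * (b p.2 * (mu s p.2 : ℂ))‖ else 0) =
          ‖a p.1 * (mu s p.1 : ℂ) * (b p.2 * (mu s p.2 : ℂ))‖ := by
        simp only [h2, not_false_eq_true, if_true]
      rw [e1]
      by_cases h3 : 7 ≤ xd p.1 + xd p.2
      · rw [if_pos h3, norm_mul, norm_mul, norm_mul, Complex.norm_real, Complex.norm_real,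
          Real.norm_eq_abs, Real.norm_eq_abs]
        have m1 := mu_le hs p.1
        have m2 := mu_le hs p.2
        refine mul_le_mul ?_ ?_ (by positivity) (norm_nonneg _)
        · exact mul_le_of_le_one_right (norm_nonneg _) m1
        · exact mul_le_of_le_one_right (norm_nonneg _) m2
      · rw [if_neg h3]
        have h4 : vb p.1 = false ∨ vb p.2 = false := by
          by_contra hc
          push Not at hc
          have g1 : vb p.1 = true := by simpa using hc.1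
          have g2 : vb p.2 = true := by simpa using hc.2
          exact h3 (vb_hi g1 g2 (by omega))
        rcases h4 with h4 | h4
        · rw [ha _ h4]; simp
        · rw [hb' _ h4]; simp
  refine h1.trans (le_of_eq ?_)
  rw [Finset.sum_product]
  have h2 : ∀ i, ∑ j ∈ range 301, (if 7 ≤ xd i + xd j then ‖a i‖ * ‖b j‖ else 0) =
      ‖a i‖ * (∑ j ∈ range 301, ‖b j‖ * (if 7 ≤ xd i + xd j then 1 else 0)) := by
    intro i
    rw [Finset.mul_sum]
    refine Finset.sum_congr rfl fun j _ => ?_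
    split_ifs
    · rw [mul_one]
    · rw [mul_zero, mul_zero]
  set G : ℕ → ℝ := fun d => Nh b 0 * (if 7 ≤ d + 0 then 1 else 0) +
      Nh b 1 * (if 7 ≤ d + 1 then 1 else 0) + Nh b 2 * (if 7 ≤ d + 2 then 1 else 0) +
      Nh b 3 * (if 7 ≤ d + 3 then 1 else 0) + Nh b 4 * (if 7 ≤ d + 4 then 1 else 0) +
      Nh b 5 * (if 7 ≤ d + 5 then 1 else 0) + Nh b 6 * (if 7 ≤ d + 6 then 1 else 0) with hG
  have h3 : ∀ i, ∑ j ∈ range 301, ‖b j‖ * (if 7 ≤ xd i + xd j then (1 : ℝ) else 0) = G (xd i) :=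
    fun i => sum_blk2 b (fun d => if 7 ≤ xd i + d then 1 else 0)
  have h4 : ∀ i ∈ range 301, ∑ j ∈ range 301,
      (if 7 ≤ xd (i, j).1 + xd (i, j).2 then ‖a (i, j).1‖ * ‖b (i, j).2‖ else 0) =
      ‖a i‖ * G (xd i) :=
    fun i _ => by rw [← h3 i, ← h2 i]
  rw [Finset.sum_congr rfl h4, sum_blk2 a G, hG]
  unfold hb
  norm_num

end Pool.Agent.Helper91.TM
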