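import Pool.Agent.Helper86.CT.KerT
import Pool.Agent.Helper91.TM.C

/-!
Taylor model machine (MP_c75db0, star frame), kernel side. A polynomial of total degree `≤ 6` in
`s_j = 2 t_j - 1`, `j = 0, 1, 2`, with complex coefficients (unit `2 ^ (-56)`), is a pair of natural
numbers modulo `2 ^ 48160`: the coefficient of `s_0^i s_1^j s_2^k` is the digit
`43 i + 44 j + 50 k` (digits of 160 bits, signed). The algebra `AT` is an `Alg` of KerT.
-/

set_option autoImplicit false
noncomputable section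
namespace Pool.Agent.Helper91.TM

open Pool.Agent.Helper86.C75 (Z)
open Pool.Agent.Helper86.CX (Cx andB nb2 nb ab cdiv one1 mx)
open Pool.Agent.Helper86.CT (DF Alg Mo N3)

/-- a polynomial: flag (no overflow so far), bound of the sum of the coefficients, bound of the
modulus (unit `2 ^ (-48)`), bounds of the homogeneous parts, real and imaginary part -/
structure TP where
  g : Bool
  m : Nat
  n : Nat
  l : List DF
  re : Nat
  im : Nat

/-! ### absolute values and digit sums -/

def abs1 (X S T : Nat) : Nat :=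
  Nat.add (Nat.land X (Nat.mul S (nat_lit 75557863725914323419135)))
    (Nat.sub (Nat.mul T (nat_lit 75557863725914323419136))
      (Nat.land X (Nat.mul T (nat_lit 75557863725914323419135))))
def abs2 (X S : Nat) : Nat := abs1 X S (Nat.sub cON S)
def abs3 (X : Nat) : Nat := abs2 X (Nat.land (Nat.shiftRight X (nat_lit 76)) cON)
/-- the absolute values of the digits -/
def absT (N : Nat) : Nat := abs3 (Nat.add N cOR)
/-- the sum of the digits -/
def ds (X : Nat) : Nat :=
  Nat.mod X (nat_lit 1461501637330902918203684832716283019655932542975)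
/-- change of the unit, rounding up -/
def up8 (n : Nat) : Nat := Nat.add (Nat.shiftRight n (nat_lit 8)) (nat_lit 1)

def ls3 (n1 n2 n3 n4 n5 n6 : Nat) : List DF :=
  ⟨Nat.add (Nat.mul (nat_lit 10) n1) (nat_lit 1), n6⟩ ::
    ⟨Nat.mul (nat_lit 5) n2, n5⟩ ::
    ⟨Nat.div (Nat.add (Nat.mul (nat_lit 5) n3) (nat_lit 1)) (nat_lit 2), n4⟩ :: []
/-- the list of the bounds; `X` = absolute values; the last three: degrees at least 4, 5, 6 -/
def lsT (X : Nat) : List DF :=
  ls3 (up8 (ds (Nat.land (Nat.shiftRight X (nat_lit 6880)) cBK)))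
    (up8 (ds (Nat.land (Nat.shiftRight X (nat_lit 13760)) cBK)))
    (up8 (ds (Nat.land (Nat.shiftRight X (nat_lit 20640)) cBK)))
    (up8 (ds (Nat.shiftRight X (nat_lit 27520)))) (up8 (ds (Nat.shiftRight X (nat_lit 34400))))
    (up8 (ds (Nat.shiftRight X (nat_lit 41280))))

/-- the bound of the modulus; `h`: bound in the case of an overflow -/
def nbF (g : Bool) (h nr ni : Nat) : Nat :=
  Bool.rec (motive := fun _ => Nat)
    (Nat.add (nat_lit 1606938044258990275541962092341162602522202993782792835301376) h)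
    (up8 (nb2 nr ni)) g

/-- sums: `m` given -/
def mkA3 (g : Bool) (m h re im xr xi : Nat) : TP :=
  ⟨g, m, nbF g h (ds xr) (ds xi), lsT (Nat.add xr xi), re, im⟩
def mkA2 (m h re im : Nat) (g : Bool) : TP := mkA3 g m h re im (absT re) (absT im)
/-- products: `m` computed -/
def mkB4 (g : Bool) (h re im x nr ni : Nat) : TP :=
  ⟨g, Nat.add nr ni, nbF g h nr ni, lsT x, re, im⟩
def mkB3 (g : Bool) (h re im xr xi : Nat) : TP := mkB4 g h re im (Nat.add xr xi) (ds xr) (ds xi)
def mkB2 (g : Bool) (h re im : Nat) : TP := mkB3 g h re im (absT re) (absT im)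

/-! ### operations -/

def adR (x y : Nat) : Nat := Nat.land (Nat.add x y) cMA
def suR (x y : Nat) : Nat := Nat.land (Nat.add x (Nat.sub cBM y)) cMA
/-- rounding of a product -/
def roR (N : Nat) : Nat :=
  Nat.land (Nat.add (Nat.land (Nat.shiftRight (Nat.add N cO5) (nat_lit 56)) cK5) cC5) cMA
/-- a quarter -/
def q4R (N : Nat) : Nat :=
  Nat.land (Nat.add (Nat.land (Nat.shiftRight (Nat.add N cO2) (nat_lit 2)) cK2) cC2) cMA

def addT2 (x y : TP) (m : Nat) : TP :=
  mkA2 m (Nat.add x.n y.n) (adR x.re y.re) (adR x.im y.im)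
    (andB (andB x.g y.g) (Nat.ble m (nat_lit 75557863725914323419135)))
def addT (x y : TP) : TP := addT2 x y (Nat.add x.m y.m)
def subT2 (x y : TP) (m : Nat) : TP :=
  mkA2 m (Nat.add x.n y.n) (suR x.re y.re) (suR x.im y.im)
    (andB (andB x.g y.g) (Nat.ble m (nat_lit 75557863725914323419135)))
def subT (x y : TP) : TP := subT2 x y (Nat.add x.m y.m)
/-- three products of numbers: `P = x.re y.re`, `Q = x.im y.im` -/
def mulT1 (x y : TP) (P Q R : Nat) : TP :=
  mkB2 (andB (andB x.g y.g) (Nat.ble (Nat.mul x.m y.m) (nat_lit 1361129467683753853853498429727072845824)))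
    (Nat.add x.n y.n) (roR (Nat.add P (Nat.sub cBB Q))) (roR (Nat.sub R (Nat.add P Q)))
def mulT (x y : TP) : TP :=
  mulT1 x y (Nat.mul x.re y.re) (Nat.mul x.im y.im) (Nat.mul (Nat.add x.re x.im) (Nat.add y.re y.im))
def q4T (x : TP) : TP := mkB2 x.g x.n (q4R x.re) (q4R x.im)
def cjT (x : TP) : TP := ⟨x.g, x.m, x.n, x.l, x.re, suR (nat_lit 0) x.im⟩

/-- a signed number modulo `2 ^ 48160` -/
def toR (x : Z) : Nat :=
  Z.rec (motive := fun _ => Nat) (fun n => Nat.land n cMA) (fun n => suR (nat_lit 0) n) x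
def csT2 (c : Cx) (m h : Nat) (re im : Nat) (g : Bool) : TP :=
  ⟨g, m, nbF g h (Nat.mul (nat_lit 256) (ab c.re)) (Nat.mul (nat_lit 256) (ab c.im)),
    ⟨(nat_lit 1), (nat_lit 0)⟩ :: ⟨(nat_lit 0), (nat_lit 0)⟩ :: ⟨(nat_lit 0), (nat_lit 0)⟩ :: [],
    re, im⟩
def csT1 (c : Cx) (h m : Nat) : TP :=
  csT2 c m h (toR (Z.mul (Z.p (nat_lit 256)) c.re)) (toR (Z.mul (Z.p (nat_lit 256)) c.im))
    (Nat.ble m (nat_lit 75557863725914323419135))
/-- a constant -/
def csT (c : Cx) : TP :=
  csT1 c (Nat.add (ab c.re) (ab c.im)) (Nat.mul (nat_lit 256) (Nat.add (ab c.re) (ab c.im)))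
def oneT : TP := csT one1

/-- the constant coefficient -/
def c0R (N : Nat) : Z :=
  Z.sub' (Nat.shiftRight (Nat.land (Nat.add N (nat_lit 75557863725914323419136))
    (nat_lit 1461501637330902918203684832716283019655932542975)) (nat_lit 8))
    (nat_lit 295147905179352825856)
def c0T (x : TP) : Cx := ⟨c0R x.re, c0R x.im⟩

/-- approximate inverse: `a (1 - u + u² - u³ + u⁴ - u⁵ + u⁶ - u⁷)`, `u = a x - 1` -/
def inv5 (a u v w : TP) : TP :=
  mulT (mulT (mulT (subT oneT u) (addT oneT v)) (addT oneT w)) a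
def inv4 (a u v : TP) : TP := inv5 a u v (mulT v v)
def inv3 (a u : TP) : TP := inv4 a u (mulT u u)
def inv2 (x a : TP) : TP := inv3 a (subT (mulT a x) oneT)
def invT (x : TP) : TP := inv2 x (csT (cdiv one1 (c0T x)))

/-- THE ALGEBRA -/
def AT : Alg TP :=
  ⟨addT, subT, mulT, q4T, cjT, csT, invT, TP.n, TP.l⟩

/-! ### hints for square roots -/

/-- a real constant -/
def rcT (n : Nat) : TP := csT ⟨Z.p n, Z.p (nat_lit 0)⟩
/-- `s (1 + u/2 - u²/8 + u³/16 - 5/128 u⁴ + 7/256 u⁵ - 21/1024 u⁶)` -/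
def sq5 (s u v : TP) (w : TP) : TP :=
  mulT s (subT (subT (addT oneT (mulT (rcT (nat_lit 140737488355328)) u))
    (mulT v (subT (rcT (nat_lit 35184372088832)) (mulT (rcT (nat_lit 17592186044416)) u))))
    (mulT w (addT (subT (rcT (nat_lit 10995116277760)) (mulT (rcT (nat_lit 7696581394432)) u))
      (mulT (rcT (nat_lit 5772436045824)) v))))
def sq4 (s u v : TP) : TP := sq5 s u v (mulT v v)
def sq3 (s u : TP) : TP := sq4 s u (mulT u u)
/-- approximate square root of `F`; `s` the root of the constant coefficient, `i` the inverse of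
the constant coefficient -/
def sqT (s i : Nat) (F : TP) : TP := sq3 (rcT s) (subT (mulT (rcT i) F) oneT)

/-! ### coordinates -/

/-- `N 2 ^ (160 e)` -/
def shZ (e : Nat) (x : Z) : Z := Z.mul (Z.p (Nat.shiftLeft (nat_lit 1) e)) x
def qtZ (e a0 : Nat) (a c b : Z) : Nat :=
  toR (Z.add (Z.mul (Z.p a0) (Z.add (Z.add a b) (Z.add c c)))
    (Z.add (shZ e (Z.mul (Z.p (Nat.mul (nat_lit 2) a0)) (Z.sub b a)))
      (shZ (Nat.mul (nat_lit 2) e) (Z.mul (Z.p a0) (Z.sub (Z.add a b) (Z.add c c))))))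
def qtM (a c b : Cx) : Nat :=
  Nat.mul (nat_lit 256) (Nat.add (Nat.add (Nat.add (ab a.re) (ab a.im)) (Nat.add (ab b.re) (ab b.im)))
    (Nat.add (ab c.re) (ab c.im)))
def qtT2 (e : Nat) (a c b : Cx) (m : Nat) : TP :=
  mkA2 m m (qtZ e (nat_lit 64) a.re c.re b.re) (qtZ e (nat_lit 64) a.im c.im b.im)
    (Nat.ble m (nat_lit 75557863725914323419135))
/-- position of the direction -/
def eJ (j : Nat) : Nat :=
  Nat.rec (motive := fun _ => Nat) (nat_lit 6880)
    (fun i _ => Nat.rec (motive := fun _ => Nat) (nat_lit 7040) (fun _ _ => (nat_lit 8000)) i) j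
/-- the quadratic function with the controls `a`, `c`, `b` in the direction `j` -/
def qtT (j : Nat) (a c b : Cx) : TP := qtT2 (eJ j) a c b (qtM a c b)

end Pool.Agent.Helper91.TM
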