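import Pool.Agent.Helper91.TM.E
import Pool.Agent.Helper91.TM.K
import Pool.Agent.Helper90.CX.CT2

/-!
Taylor model machine (MP_c75db0, star frame), real side: the coefficients of a packed polynomial,
its value, validity.
-/

set_option autoImplicit false
set_option exponentiation.threshold 100000
noncomputable section
namespace Pool.Agent.Helper91.TM

open Finset
open Pool.Agent.Helper90.KMT (rl)
open Pool.Agent.Helper86.CT (DF)

/-- coefficient number `i` of a packed number -/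
def dcf (N i : ℕ) : ℤ :=
  bif vb i then (((N + cOR) / 2 ^ (160 * i) % 2 ^ 160 : ℕ) : ℤ) - 2 ^ 76 else 0

/-- the coefficients, unit `2 ^ (-56)` -/
def zT (x : TP) (i : ℕ) : ℂ := ((dcf x.re i : ℤ) : ℂ) + ((dcf x.im i : ℤ) : ℂ) * Complex.I

/-- the coordinates `2 t - 1` -/
def tS (t : ℕ → ℝ) (j : ℕ) : ℝ := 2 * t j - 1

/-- THE VALUE, unit `2 ^ (-48)` -/
def evT (x : TP) (t : ℕ → ℝ) : ℂ := Ev (tS t) (zT x) / 256

/-- the sum of the moduli of the coefficients of degree `d`, unit `2 ^ (-48)` -/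
def Nd (x : TP) (d : ℕ) : ℝ := Nh (zT x) d / 256

/-- the number `N` has the coefficients `c` -/
structure Rp (N : ℕ) (c : ℕ → ℤ) : Prop where
  lt : N < 2 ^ (160 * 301)
  md : (N : ℤ) ≡ Sz 301 c [ZMOD 2 ^ (160 * 301)]
  sp : Sp c

/-- the bounds of the homogeneous parts -/
def LVT (x : TP) (l : List (ℝ × ℝ)) : Prop := ∃ D1 F1 D2 F2 D3 F3 : ℝ,
  l = [(D1, F1), (D2, F2), (D3, F3)] ∧ 1 ≤ D1 ∧ 10 * Nd x 1 ≤ D1 ∧ Nd x 6 ≤ F1 ∧
  5 * Nd x 2 ≤ D2 ∧ Nd x 5 + Nd x 6 ≤ F2 ∧ 5 / 2 * Nd x 3 ≤ D3 ∧ Nd x 4 + Nd x 5 + Nd x 6 ≤ F3 ∧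
  (1 ≤ D2 ∨ Nd x 3 + Nd x 4 + Nd x 5 + Nd x 6 = 0)

/-- the polynomial is what it claims -/
structure GT (x : TP) : Prop where
  re : Rp x.re (dcf x.re)
  im : Rp x.im (dcf x.im)
  sm : ∑ i ∈ range 301, (|dcf x.re i| + |dcf x.im i|) ≤ (x.m : ℤ)
  m : x.m < 2 ^ 76
  n : (∑ i ∈ range 301, |dcf x.re i|) ^ 2 + (∑ i ∈ range 301, |dcf x.im i|) ^ 2 ≤
    (256 * (x.n : ℤ)) ^ 2
  l : LVT x (x.l.map rl)

/-- validity -/
structure VLT (x : TP) : Prop where
  ok : x.g = true → GT x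
  big : x.g = false → 2 ^ 200 ≤ x.n

/-! ### decoding -/

/-- the same sum for the kernel -/
def SmF (f : Bool → Nat) (n : Nat) : Nat :=
  Nat.rec (motive := fun _ => Nat) (nat_lit 0)
    (fun i s => Nat.add s (Nat.shiftLeft (f (and (Nat.blt i (nat_lit 301)) (Nat.ble
      (Nat.add (Nat.mod (Nat.mod i (nat_lit 43)) (nat_lit 7))
        (Nat.div (Nat.mod i (nat_lit 43)) (nat_lit 7)))
      (Nat.div i (nat_lit 43))))) (Nat.mul (nat_lit 160) i))) n
theorem SmF_eq (f : Bool → Nat) (n : Nat) : SmF f n = Sm n (fun i => f (vb i)) := by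
  induction n with
  | zero => rfl
  | succ n ih =>
    have e : SmF f (n + 1) = SmF f n + Nat.shiftLeft (f (vb n)) (160 * n) := rfl
    rw [e, ih, Sm]
    congr 1
    exact Nat.shiftLeft_eq _ _
/-- the offset -/
def fo (k : Nat) (b : Bool) : Nat := Bool.rec (motive := fun _ => Nat) (nat_lit 0) k b
theorem cst_of {c k : Nat} (h : Nat.beq c (SmF (fo k) (nat_lit 301)) = true) :
    c = Sm 301 (fun i => fo k (vb i)) :=
  (Nat.eq_of_beq_eq_true h).trans (SmF_eq _ _)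
theorem cOR_eq : cOR = Sm 301 (fun i => fo (nat_lit 75557863725914323419136) (vb i)) :=
  cst_of (by decide +kernel)

theorem dig_of {n N : ℕ} {d : ℕ → ℕ} {T : ℕ} (h : N = Sm n d + 2 ^ (160 * n) * T)
    (hd : ∀ i < n, d i < 2 ^ 160) {i : ℕ} (hi : i < n) : N / 2 ^ (160 * i) % 2 ^ 160 = d i := by
  obtain ⟨k, rfl⟩ : ∃ k, n = i + (1 + k) := ⟨n - i - 1, by omega⟩
  have e : N = Sm i d + 2 ^ (160 * i) * (Sm (1 + k) (fun j => d (i + j)) +
      2 ^ (160 * (1 + k)) * T) := by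
    have e1 : Sm (i + (1 + k)) d = Sm i d + 2 ^ (160 * i) * Sm (1 + k) (fun j => d (i + j)) := by
      rw [Sm_eq, Sm_eq, Sm_eq, Finset.sum_range_add, Finset.mul_sum]
      congr 1
      refine Finset.sum_congr rfl fun j _ => ?_
      rw [show 160 * (i + j) = 160 * i + 160 * j by ring, pow_add]
      ring
    have e2 : 2 ^ (160 * (i + (1 + k))) = 2 ^ (160 * i) * 2 ^ (160 * (1 + k)) := by
      rw [← pow_add]
      congr 1
      ring
    rw [h, e1, e2]
    ring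
  have h1 : Sm i d < 2 ^ (160 * i) := Sm_lt fun j hj => hd j (by omega)
  rw [e, Nat.add_mul_div_left _ _ (by positivity), Nat.div_eq_of_lt h1, zero_add]
  rw [add_comm 1 k, Sm_succ', show 160 * (k + 1) = 160 + 160 * k by ring, pow_add, add_assoc,
    mul_assoc, ← mul_add, Nat.add_mul_mod_self_left]
  rw [add_zero]
  exact Nat.mod_eq_of_lt (hd i (by omega))

/-- the offset of the digits -/
def o76 (i : ℕ) : ℕ := fo (nat_lit 75557863725914323419136) (vb i)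
theorem o76_t {i : ℕ} (h : vb i = true) : o76 i = 2 ^ 76 := by
  unfold o76
  rw [h]
  norm_num [fo]
theorem o76_f {i : ℕ} (h : vb i = false) : o76 i = 0 := by
  unfold o76
  rw [h]
  rfl

/-- THE COEFFICIENTS ARE DETERMINED -/
theorem dcf_of {N : ℕ} {c : ℕ → ℤ} (h : (N : ℤ) ≡ Sz 301 c [ZMOD 2 ^ (160 * 301)]) (hs : Sp c)
    (hc : ∀ i, |c i| < 2 ^ 76) : dcf N = c := by
  have hd : ∀ i < 301, (fun i => (c i + (o76 i : ℤ)).toNat) i < 2 ^ 160 := by
    intro i _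
    have h1 := abs_lt.1 (hc i)
    show (c i + (o76 i : ℤ)).toNat < 2 ^ 160
    cases hv : vb i
    · rw [o76_f hv]
      omega
    · rw [o76_t hv]
      omega
  have ho : ∀ i < 301, c i + (o76 i : ℤ) = (((fun i => (c i + (o76 i : ℤ)).toNat) i : ℕ) : ℤ) := by
    intro i _
    have h1 := abs_lt.1 (hc i)
    show c i + (o76 i : ℤ) = ((c i + (o76 i : ℤ)).toNat : ℤ)
    cases hv : vb i
    · rw [o76_f hv, hs i hv]
      rfl
    · rw [o76_t hv, Int.toNat_of_nonneg (by omega)]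
  obtain ⟨T, hT⟩ := Sm_of (n := 301) (N := N) (c := c) (o := o76) h hd ho
  have e : Sm 301 o76 = cOR := cOR_eq.symm
  rw [e] at hT
  funext i
  unfold TM.dcf
  cases hv : vb i
  · rw [cond_false]
    exact (hs i hv).symm
  · rw [cond_true]
    have hi : i < 301 := ((vb_iff i).1 hv).1
    rw [dig_of hT hd hi, ← ho i hi, o76_t hv]
    push_cast
    ring

theorem Rp.dcf {N : ℕ} {c : ℕ → ℤ} (h : Rp N c) (hc : ∀ i, |c i| < 2 ^ 76) : dcf N = c :=
  dcf_of h.md h.sp hc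

end Pool.Agent.Helper91.TM
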