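import Pool.Agent.Helper91.TM.G
import Pool.Agent.Helper91.TM.A

/-!
Taylor model machine (MP_c75db0, star frame): sums, differences, conjugates.
-/

set_option autoImplicit false
set_option exponentiation.threshold 100000
noncomputable section
namespace Pool.Agent.Helper91.TM

open Finset
open Pool.Agent.Helper90.KMT (rl)
open Pool.Agent.Helper86.CT (DF)
open Pool.Agent.Helper86.CX (nb2 andB)
open Pool.Agent.Helper90.KMO (andB_t)

/-! ### reduction modulo `2 ^ 48160` -/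

theorem cMA_eq : cMA = 2 ^ (160 * 301) - 1 := by
  have h : Nat.beq cMA (Nat.sub (Nat.shiftLeft (nat_lit 1) (nat_lit 48160)) (nat_lit 1)) = true := by
    decide +kernel
  have h1 := Nat.eq_of_beq_eq_true h
  have h2 : Nat.shiftLeft 1 48160 = 2 ^ (160 * 301) := by
    have := Nat.shiftLeft_eq 1 48160
    rw [one_mul] at this
    exact this
  rw [h1]
  show Nat.shiftLeft 1 48160 - 1 = _
  rw [h2]

theorem cBM_eq : cBM = 2 ^ (160 * 301) := by
  have h2 : Nat.shiftLeft 1 48160 = 2 ^ (160 * 301) := by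
    have := Nat.shiftLeft_eq 1 48160
    rw [one_mul] at this
    exact this
  exact h2

theorem land_MA (x : ℕ) : Nat.land x cMA = x % 2 ^ (160 * 301) := by
  have e : Nat.land x cMA = x &&& cMA := rfl
  rw [e, cMA_eq, land_ones]

theorem Rp_mod {x : ℕ} {c : ℕ → ℤ} (h : (x : ℤ) ≡ Sz 301 c [ZMOD 2 ^ (160 * 301)]) (hs : Sp c) :
    Rp (Nat.land x cMA) c := by
  rw [land_MA]
  refine ⟨Nat.mod_lt _ (by positivity), ?_, hs⟩
  have h1 : ((x % 2 ^ (160 * 301) : ℕ) : ℤ) ≡ (x : ℤ) [ZMOD 2 ^ (160 * 301)] := by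
    have := Int.mod_modEq (x : ℤ) (2 ^ (160 * 301))
    push_cast
    exact this
  exact h1.trans h

theorem Sp_add {a b : ℕ → ℤ} (ha : Sp a) (hb : Sp b) : Sp (fun i => a i + b i) := by
  intro i hi
  show a i + b i = 0
  rw [ha i hi, hb i hi]
  rfl

theorem Sp_sub {a b : ℕ → ℤ} (ha : Sp a) (hb : Sp b) : Sp (fun i => a i - b i) := by
  intro i hi
  show a i - b i = 0
  rw [ha i hi, hb i hi]
  rfl

theorem adR_ok {x y : ℕ} {a b : ℕ → ℤ} (ha : Rp x a) (hb : Rp y b) :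
    Rp (adR x y) (fun i => a i + b i) := by
  refine Rp_mod (x := Nat.add x y) ?_ (Sp_add ha.sp hb.sp)
  rw [Sz_add]
  have e : ((Nat.add x y : ℕ) : ℤ) = (x : ℤ) + y := by
    show ((x + y : ℕ) : ℤ) = _
    push_cast
    rfl
  rw [e]
  exact ha.md.add hb.md

theorem suR_ok {x y : ℕ} {a b : ℕ → ℤ} (ha : Rp x a) (hb : Rp y b) :
    Rp (suR x y) (fun i => a i - b i) := by
  refine Rp_mod (x := Nat.add x (Nat.sub cBM y)) ?_ (Sp_sub ha.sp hb.sp)
  rw [Sz_sub]
  have e : ((Nat.add x (Nat.sub cBM y) : ℕ) : ℤ) = ((x : ℤ) - y) + 2 ^ (160 * 301) := by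
    show ((x + (cBM - y) : ℕ) : ℤ) = _
    have h1 : y ≤ cBM := by rw [cBM_eq]; exact hb.lt.le
    rw [Nat.cast_add, Nat.cast_sub h1, cBM_eq]
    push_cast
    ring
  rw [e]
  have h2 : ((x : ℤ) - y) + 2 ^ (160 * 301) ≡ (x : ℤ) - y [ZMOD 2 ^ (160 * 301)] :=
    Int.add_modEq_right
  exact h2.trans (ha.md.sub hb.md)

theorem Rp_zero : Rp 0 (fun _ => 0) := by
  refine ⟨by positivity, ?_, fun _ _ => rfl⟩
  have e : Sz 301 (fun _ => 0) = 0 := by
    unfold Sz
    simp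
  rw [e]
  rfl

/-! ### construction -/

theorem nbF_t (h u v : ℕ) : nbF true h u v = up8 (nb2 u v) := rfl
theorem nbF_f (h u v : ℕ) : 2 ^ 200 + h = nbF false h u v := rfl

/-- SUMS: the bound of the coefficients is given -/
theorem mkA_ok {m h re im : ℕ} {g : Bool} {a b : ℕ → ℤ} (H : g = true → Rp re a ∧ Rp im b ∧
    ∑ i ∈ range 301, (|a i| + |b i|) ≤ (m : ℤ) ∧ m < 2 ^ 76) :
    VLT (mkA2 m h re im g) ∧ (g = true → zT (mkA2 m h re im g) = zc a b) := by
  cases g with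
  | false =>
    refine ⟨⟨fun hc => ?_, fun _ => ?_⟩, fun hc => ?_⟩
    · exact absurd (show false = true from hc) (by decide)
    · show 2 ^ 200 ≤ nbF false h (ds (absT re)) (ds (absT im))
      rw [← nbF_f]
      exact Nat.le_add_right _ _
    · exact absurd hc (by decide)
  | true =>
    obtain ⟨ha, hb, hm, hm'⟩ := H rfl
    obtain ⟨h1, h2⟩ := GT_mk ha hb hm hm' true _ (le_refl (up8 (nb2 (ds (absT re)) (ds (absT im)))))
    refine ⟨⟨fun _ => h1, fun hc => ?_⟩, fun _ => h2⟩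
    exact absurd (show true = false from hc) (by decide)

/-- PRODUCTS: the bound of the coefficients is computed -/
theorem mkB_ok {h re im : ℕ} {g : Bool} {a b : ℕ → ℤ} (H : g = true → Rp re a ∧ Rp im b ∧
    ∑ i ∈ range 301, (|a i| + |b i|) < 2 ^ 76) :
    VLT (mkB2 g h re im) ∧ (g = true → zT (mkB2 g h re im) = zc a b) := by
  cases g with
  | false =>
    refine ⟨⟨fun hc => ?_, fun _ => ?_⟩, fun hc => ?_⟩
    · exact absurd (show false = true from hc) (by decide)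
    · show 2 ^ 200 ≤ nbF false h (ds (absT re)) (ds (absT im))
      rw [← nbF_f]
      exact Nat.le_add_right _ _
    · exact absurd hc (by decide)
  | true =>
    obtain ⟨ha, hb, hm⟩ := H rfl
    have h0 : 0 ≤ ∑ i ∈ range 301, (|a i| + |b i|) :=
      Finset.sum_nonneg fun i _ => add_nonneg (abs_nonneg _) (abs_nonneg _)
    obtain ⟨m0, hm0⟩ := Int.eq_ofNat_of_zero_le h0
    have hm1 : m0 < 2 ^ 76 := by
      have : (m0 : ℤ) < 2 ^ 76 := hm0 ▸ hm
      exact_mod_cast this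
    have hl := abs_lt_of ha.sp hb.sp hm0.le hm1
    have e : ((Nat.add (ds (absT re)) (ds (absT im)) : ℕ) : ℤ) =
        ∑ i ∈ range 301, (|a i| + |b i|) := by
      show ((ds (absT re) + ds (absT im) : ℕ) : ℤ) = _
      rw [Nat.cast_add, ds_abs ha fun i => (hl i).1, ds_abs hb fun i => (hl i).2,
        Finset.sum_add_distrib]
    have hm' : Nat.add (ds (absT re)) (ds (absT im)) < 2 ^ 76 := by
      have : ((Nat.add (ds (absT re)) (ds (absT im)) : ℕ) : ℤ) < 2 ^ 76 := e ▸ hm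
      exact_mod_cast this
    obtain ⟨h1, h2⟩ := GT_mk (m := Nat.add (ds (absT re)) (ds (absT im))) ha hb e.ge hm' true _
      (le_refl (up8 (nb2 (ds (absT re)) (ds (absT im)))))
    refine ⟨⟨fun _ => h1, fun hc => ?_⟩, fun _ => h2⟩
    exact absurd (show true = false from hc) (by decide)

/-! ### sums, differences, conjugates -/

theorem zT_zc (x : TP) : zT x = zc (dcf x.re) (dcf x.im) := rfl

theorem m_ok {m : ℕ} (h : Nat.ble m (nat_lit 75557863725914323419135) = true) : m < 2 ^ 76 := by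
  have h1 : m ≤ 75557863725914323419135 := Nat.le_of_ble_eq_true h
  omega

theorem addT_ok {x y : TP} (hx : VLT x) (hy : VLT y) : VLT (addT x y) ∧
    ((addT x y).g = true → x.g = true ∧ y.g = true ∧ zT (addT x y) = fun i => zT x i + zT y i) := by
  have H : andB (andB x.g y.g) (Nat.ble (Nat.add x.m y.m) (nat_lit 75557863725914323419135)) =
      true → Rp (adR x.re y.re) (fun i => dcf x.re i + dcf y.re i) ∧
      Rp (adR x.im y.im) (fun i => dcf x.im i + dcf y.im i) ∧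
      ∑ i ∈ range 301, (|dcf x.re i + dcf y.re i| + |dcf x.im i + dcf y.im i|) ≤
        ((Nat.add x.m y.m : ℕ) : ℤ) ∧ Nat.add x.m y.m < 2 ^ 76 := by
    intro h
    obtain ⟨h1, h2⟩ := andB_t h
    obtain ⟨h3, h4⟩ := andB_t h1
    have k1 := hx.ok h3
    have k2 := hy.ok h4
    refine ⟨adR_ok k1.re k2.re, adR_ok k1.im k2.im, ?_, m_ok h2⟩
    have e : ((Nat.add x.m y.m : ℕ) : ℤ) = (x.m : ℤ) + y.m := by
      show ((x.m + y.m : ℕ) : ℤ) = _
      push_cast
      rfl
    rw [e]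
    refine le_trans ?_ (add_le_add k1.sm k2.sm)
    rw [← Finset.sum_add_distrib]
    refine Finset.sum_le_sum fun i _ => ?_
    have := abs_add_le (dcf x.re i) (dcf y.re i)
    have := abs_add_le (dcf x.im i) (dcf y.im i)
    linarith
  obtain ⟨h1, h2⟩ := mkA_ok (h := Nat.add x.n y.n) H
  refine ⟨h1, fun hg => ?_⟩
  have hg' : andB (andB x.g y.g) (Nat.ble (Nat.add x.m y.m) (nat_lit 75557863725914323419135)) =
    true := hg
  obtain ⟨h5, -⟩ := andB_t hg'
  obtain ⟨h3, h4⟩ := andB_t h5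
  refine ⟨h3, h4, ?_⟩
  refine (h2 hg').trans ?_
  funext i
  show zc (fun i => dcf x.re i + dcf y.re i) (fun i => dcf x.im i + dcf y.im i) i =
    zc (dcf x.re) (dcf x.im) i + zc (dcf y.re) (dcf y.im) i
  unfold zc
  push_cast
  ring

theorem subT_ok {x y : TP} (hx : VLT x) (hy : VLT y) : VLT (subT x y) ∧
    ((subT x y).g = true → x.g = true ∧ y.g = true ∧ zT (subT x y) = fun i => zT x i - zT y i) := by
  have H : andB (andB x.g y.g) (Nat.ble (Nat.add x.m y.m) (nat_lit 75557863725914323419135)) =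
      true → Rp (suR x.re y.re) (fun i => dcf x.re i - dcf y.re i) ∧
      Rp (suR x.im y.im) (fun i => dcf x.im i - dcf y.im i) ∧
      ∑ i ∈ range 301, (|dcf x.re i - dcf y.re i| + |dcf x.im i - dcf y.im i|) ≤
        ((Nat.add x.m y.m : ℕ) : ℤ) ∧ Nat.add x.m y.m < 2 ^ 76 := by
    intro h
    obtain ⟨h1, h2⟩ := andB_t h
    obtain ⟨h3, h4⟩ := andB_t h1
    have k1 := hx.ok h3
    have k2 := hy.ok h4
    refine ⟨suR_ok k1.re k2.re, suR_ok k1.im k2.im, ?_, m_ok h2⟩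
    have e : ((Nat.add x.m y.m : ℕ) : ℤ) = (x.m : ℤ) + y.m := by
      show ((x.m + y.m : ℕ) : ℤ) = _
      push_cast
      rfl
    rw [e]
    refine le_trans ?_ (add_le_add k1.sm k2.sm)
    rw [← Finset.sum_add_distrib]
    refine Finset.sum_le_sum fun i _ => ?_
    have := abs_sub (dcf x.re i) (dcf y.re i)
    have := abs_sub (dcf x.im i) (dcf y.im i)
    linarith
  obtain ⟨h1, h2⟩ := mkA_ok (h := Nat.add x.n y.n) H
  refine ⟨h1, fun hg => ?_⟩
  have hg' : andB (andB x.g y.g) (Nat.ble (Nat.add x.m y.m) (nat_lit 75557863725914323419135)) =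
    true := hg
  obtain ⟨h5, -⟩ := andB_t hg'
  obtain ⟨h3, h4⟩ := andB_t h5
  refine ⟨h3, h4, ?_⟩
  refine (h2 hg').trans ?_
  funext i
  show zc (fun i => dcf x.re i - dcf y.re i) (fun i => dcf x.im i - dcf y.im i) i =
    zc (dcf x.re) (dcf x.im) i - zc (dcf y.re) (dcf y.im) i
  unfold zc
  push_cast
  ring

/-! ### values -/

theorem Ev_add (s : ℕ → ℝ) (a b : ℕ → ℂ) : Ev s (fun i => a i + b i) = Ev s a + Ev s b := by
  unfold Ev
  rw [← Finset.sum_add_distrib]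
  exact Finset.sum_congr rfl fun i _ => by ring
theorem Ev_sub (s : ℕ → ℝ) (a b : ℕ → ℂ) : Ev s (fun i => a i - b i) = Ev s a - Ev s b := by
  unfold Ev
  rw [← Finset.sum_sub_distrib]
  exact Finset.sum_congr rfl fun i _ => by ring
theorem Ev_star (s : ℕ → ℝ) (a : ℕ → ℂ) : Ev s (fun i => star (a i)) = star (Ev s a) := by
  unfold Ev
  rw [star_sum]
  refine Finset.sum_congr rfl fun i _ => ?_
  rw [star_mul, mul_comm]
  congr 1
  exact (Complex.conj_ofReal _).symm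
theorem Ev_norm {s : ℕ → ℝ} (hs : SB s) (a : ℕ → ℂ) : ‖Ev s a‖ ≤ ∑ i ∈ range 301, ‖a i‖ := by
  unfold Ev
  refine (norm_sum_le _ _).trans (Finset.sum_le_sum fun i _ => ?_)
  rw [norm_mul, Complex.norm_real, Real.norm_eq_abs]
  exact mul_le_of_le_one_right (norm_nonneg _) (mu_le hs i)

theorem tS_ok {t : ℕ → ℝ} (h0 : ∀ j < 3, 0 ≤ t j) (h1 : ∀ j < 3, t j ≤ 1) : SB (tS t) := by
  intro j hj
  unfold tS
  rw [abs_le]
  constructor <;> linarith [h0 j hj, h1 j hj]

/-- the modulus -/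
theorem evT_le {x : TP} (h : GT x) {t : ℕ → ℝ} (hs : SB (tS t)) : ‖evT x t‖ ≤ x.n := by
  have e1 : (Ev (tS t) (zT x)).re = ∑ i ∈ range 301, (dcf x.re i : ℝ) * mu (tS t) i := by
    unfold Ev
    rw [Complex.re_sum]
    refine Finset.sum_congr rfl fun i _ => ?_
    rw [Complex.re_mul_ofReal, zT_zc, zc_re]
  have e2 : (Ev (tS t) (zT x)).im = ∑ i ∈ range 301, (dcf x.im i : ℝ) * mu (tS t) i := by
    unfold Ev
    rw [Complex.im_sum]
    refine Finset.sum_congr rfl fun i _ => ?_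
    rw [Complex.im_mul_ofReal, zT_zc, zc_im]
  have hb : ∀ c : ℕ → ℤ, |∑ i ∈ range 301, (c i : ℝ) * mu (tS t) i| ≤
      ((∑ i ∈ range 301, |c i| : ℤ) : ℝ) := by
    intro c
    refine (Finset.abs_sum_le_sum_abs _ _).trans ?_
    push_cast
    refine Finset.sum_le_sum fun i _ => ?_
    rw [abs_mul]
    exact mul_le_of_le_one_right (abs_nonneg _) (mu_le hs i)
  have h1 : ‖Ev (tS t) (zT x)‖ ^ 2 ≤ (256 * (x.n : ℝ)) ^ 2 := by
    rw [Complex.sq_norm, Complex.normSq_apply, e1, e2]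
    have k1 := hb (dcf x.re)
    have k2 := hb (dcf x.im)
    have k3 := pow_le_pow_left₀ (abs_nonneg _) k1 2
    have k4 := pow_le_pow_left₀ (abs_nonneg _) k2 2
    rw [sq_abs] at k3 k4
    have k5 : ((∑ i ∈ range 301, |dcf x.re i| : ℤ) : ℝ) ^ 2 +
        ((∑ i ∈ range 301, |dcf x.im i| : ℤ) : ℝ) ^ 2 ≤ (256 * (x.n : ℝ)) ^ 2 := by
      exact_mod_cast h.n
    nlinarith [k3, k4, k5]
  have h2 : ‖Ev (tS t) (zT x)‖ ≤ 256 * (x.n : ℝ) :=
    (pow_le_pow_iff_left₀ (norm_nonneg _) (by positivity) two_ne_zero).1 h1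
  unfold evT
  rw [norm_div]
  have e3 : ‖(256 : ℂ)‖ = 256 := by norm_num
  rw [e3]
  linarith

/-! ### conjugates -/

theorem cjT_ok {x : TP} (hx : VLT x) : VLT (cjT x) ∧ ((cjT x).g = true → x.g = true ∧
    zT (cjT x) = fun i => star (zT x i)) := by
  have key : x.g = true → Rp (cjT x).im (fun i => - dcf x.im i) ∧
      dcf (cjT x).im = fun i => - dcf x.im i := by
    intro hg
    have k := hx.ok hg
    have h1 : Rp (cjT x).im (fun i => 0 - dcf x.im i) := suR_ok Rp_zero k.im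
    have e : (fun i => 0 - dcf x.im i) = fun i => - dcf x.im i := by
      funext i
      exact zero_sub _
    rw [e] at h1
    refine ⟨h1, h1.dcf fun i => ?_⟩
    rw [abs_neg]
    exact (abs_lt_of k.re.sp k.im.sp k.sm k.m i).2
  have hz : x.g = true → zT (cjT x) = fun i => star (zT x i) := by
    intro hg
    obtain ⟨-, h2⟩ := key hg
    funext i
    show ((dcf x.re i : ℤ) : ℂ) + ((dcf (cjT x).im i : ℤ) : ℂ) * Complex.I = star (zT x i)
    rw [h2]
    unfold zT
    apply Complex.ext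
    · simp
    · simp
  refine ⟨⟨fun hg => ?_, fun hg => hx.big hg⟩, fun hg => ⟨hg, hz hg⟩⟩
  have hg' : x.g = true := hg
  have k := hx.ok hg'
  obtain ⟨h1, h2⟩ := key hg'
  have hnd : ∀ d, Nd (cjT x) d = Nd x d := by
    intro d
    unfold Nd Nh
    congr 1
    refine Finset.sum_congr rfl fun r _ => ?_
    rw [hz hg']
    exact norm_star _
  refine ⟨k.re, ?_, ?_, k.m, ?_, ?_⟩
  · rw [h2]
    exact h1
  · show ∑ i ∈ range 301, (|dcf x.re i| + |dcf (cjT x).im i|) ≤ (x.m : ℤ)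
    rw [h2]
    simp only [abs_neg]
    exact k.sm
  · show (∑ i ∈ range 301, |dcf x.re i|) ^ 2 + (∑ i ∈ range 301, |dcf (cjT x).im i|) ^ 2 ≤
      (256 * (x.n : ℤ)) ^ 2
    rw [h2]
    simp only [abs_neg]
    exact k.n
  · obtain ⟨D1, F1, D2, F2, D3, F3, e, a1, a2, a3, a4, a5, a6, a7, a8⟩ := k.l
    refine ⟨D1, F1, D2, F2, D3, F3, e, a1, ?_, ?_, ?_, ?_, ?_, ?_, ?_⟩
    · rw [hnd]; exact a2
    · rw [hnd]; exact a3
    · rw [hnd]; exact a4
    · rw [hnd, hnd]; exact a5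
    · rw [hnd]; exact a6
    · rw [hnd, hnd, hnd]; exact a7
    · rw [hnd, hnd, hnd, hnd]; exact a8

theorem Nd_cj {x : TP} (hx : VLT x) (hg : x.g = true) (d : ℕ) : Nd (cjT x) d = Nd x d := by
  have hz := ((cjT_ok hx).2 hg).2
  unfold Nd Nh
  congr 1
  refine Finset.sum_congr rfl fun r _ => ?_
  rw [hz]
  exact norm_star _

theorem Nd_sub {x y : TP} (hz : zT (subT x y) = fun i => zT x i - zT y i) (d : ℕ) :
    Nd (subT x y) d ≤ Nd x d + Nd y d := by
  unfold Nd Nh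
  rw [← add_div, ← Finset.sum_add_distrib, hz]
  refine div_le_div_of_nonneg_right (Finset.sum_le_sum fun r _ => ?_) (by norm_num)
  exact norm_sub_le _ _

theorem Nd_nn (x : TP) (d : ℕ) : 0 ≤ Nd x d := div_nonneg (Nh_nn _ _) (by norm_num)

end Pool.Agent.Helper91.TM
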